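import Mathlib

/-!
# An abstract criterion for being virtually abelian
-/

set_option autoImplicit false

namespace Pool.Agent.Lib.MP_59c382_al

theorem fun_induction {J : Type*} [Fintype J] [DecidableEq J] {P : (J → ℕ) → Prop} (h0 : P 0)
    (hs : ∀ a j, P a → P (a + Pi.single j 1)) (a : J → ℕ) : P a := by
  obtain ⟨n, hn⟩ : ∃ n, ∑ j, a j = n := ⟨_, rfl⟩
  induction n generalizing a with
  | zero =>
    have : a = 0 := by
      funext j
      have := Finset.single_le_sum (f := a) (fun _ _ => Nat.zero_le _) (Finset.mem_univ j)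
      rw [hn] at this
      exact Nat.le_zero.mp this
    rw [this]
    exact h0
  | succ n ih =>
    obtain ⟨j, hj⟩ : ∃ j, a j ≠ 0 := by
      by_contra hcon
      push Not at hcon
      rw [Finset.sum_eq_zero (fun j _ => hcon j)] at hn
      omega
    have h1 : a = Function.update a j (a j - 1) + Pi.single j 1 := by
      funext i
      by_cases hi : i = j
      · subst hi
        simp only [Pi.add_apply, Function.update_self, Pi.single_eq_same]
        omega
      · simp [hi]
    rw [h1]
    apply hs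
    apply ih
    have h2 : ∑ i, a i = ∑ i, Function.update a j (a j - 1) i + 1 := by
      conv_lhs => rw [h1]
      simp only [Pi.add_apply, Finset.sum_add_distrib]
      rw [Finset.sum_pi_single']
      simp
    omega

theorem single_add_single_eq {Q : Type*} [DecidableEq Q] {a b c d : Q}
    (h : (Pi.single a 1 + Pi.single b 1 : Q → ℕ) = Pi.single c 1 + Pi.single d 1) (hac : a ≠ c) :
    b = c := by
  have h1 := congrFun h c
  simp only [Pi.add_apply, Pi.single_eq_same, Pi.single_eq_of_ne hac.symm] at h1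
  by_contra hbc
  rw [Pi.single_eq_of_ne (Ne.symm hbc)] at h1
  omega

section

variable {G : Type*} [Group G] {Q : Type*} [Fintype Q] [DecidableEq Q] {K : Type*}
  {Sk : G → K} {N : G → Q → ℕ} {vis : K → Finset Q} {J : Type*} [Fintype J] [DecidableEq J]
  {γ : (J → ℕ) → G}

omit [Fintype Q] in
/-- the structure of one translated family -/
theorem exists_tau (hinj : ∀ g h, Sk g = Sk h → N g = N h → g = h)
    (hvis : ∀ g q, N g q ≠ 0 → q ∈ vis (Sk g))
    (hJ : ∀ g, (vis (Sk g)).card ≤ Fintype.card J)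
    (hγ : Function.Injective γ) (δ : G) (m₀ : ℕ)
    (hE : ∀ m : J → ℕ, (∀ j, m₀ ≤ m j) → ∀ j, ∃ q ∈ vis (Sk (γ m * δ)),
      Sk (γ (m + Pi.single j 1) * δ) = Sk (γ m * δ) ∧
      N (γ (m + Pi.single j 1) * δ) = N (γ m * δ) + Pi.single q 1) :
    ∃ τ : J → Q, (∀ a : J → ℕ, Sk (γ ((fun _ => m₀) + a) * δ) = Sk (γ (fun _ => m₀) * δ)) ∧
      (∀ (a : J → ℕ) j, N (γ ((fun _ => m₀) + a) * δ) (τ j) =
        N (γ (fun _ => m₀) * δ) (τ j) + a j) ∧
      ∀ (a : J → ℕ) q, (∀ j, τ j ≠ q) → N (γ ((fun _ => m₀) + a) * δ) q = 0 := by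
  classical
  set v : (J → ℕ) → G := fun a => γ ((fun _ => m₀) + a) * δ with hv
  have hE' : ∀ (a : J → ℕ) j, ∃ q ∈ vis (Sk (v a)), Sk (v (a + Pi.single j 1)) = Sk (v a) ∧
      N (v (a + Pi.single j 1)) = N (v a) + Pi.single q 1 := by
    intro a j
    have := hE ((fun _ => m₀) + a) (fun i => Nat.le_add_right _ _) j
    rw [add_assoc] at this
    exact this
  choose τ hτ1 hτ2 hτ3 using hE'
  have hSk : ∀ a, Sk (v a) = Sk (v 0) := by
    intro a
    induction a using fun_induction with
    | h0 => rfl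
    | hs a j ih => rw [hτ2, ih]
  have hτinj : ∀ a, Function.Injective (τ a) := by
    intro a j l hjl
    have h1 : v (a + Pi.single j 1) = v (a + Pi.single l 1) := by
      apply hinj
      · rw [hτ2, hτ2]
      · rw [hτ3, hτ3, hjl]
    have h2 := hγ (mul_right_cancel h1)
    have h3 := add_left_cancel (add_left_cancel h2)
    by_contra hne
    have h4 := congrFun h3 j
    rw [Pi.single_eq_same, Pi.single_eq_of_ne hne] at h4
    omega
  have himage : ∀ a, Finset.univ.image (τ a) = vis (Sk (v 0)) := by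
    intro a
    apply Finset.eq_of_subset_of_card_le
    · intro q hq
      obtain ⟨j, _, rfl⟩ := Finset.mem_image.mp hq
      rw [← hSk a]
      exact hτ1 a j
    · rw [Finset.card_image_of_injective _ (hτinj a), Finset.card_univ]
      exact hJ _
  have hne_const : ∀ a j l, j ≠ l → τ (a + Pi.single j 1) l = τ a l := by
    intro a j l hjl
    have h1 : N (v (a + Pi.single j 1 + Pi.single l 1)) =
        N (v (a + Pi.single l 1 + Pi.single j 1)) := by
      rw [add_assoc, add_comm (Pi.single j 1 : J → ℕ), ← add_assoc]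
    rw [hτ3, hτ3, hτ3, hτ3, add_assoc, add_assoc] at h1
    have h2 := add_left_cancel h1
    exact single_add_single_eq h2 (fun h => hjl (hτinj a h))
  have hconst1 : ∀ a j l, τ (a + Pi.single j 1) l = τ a l := by
    intro a j l
    by_cases hjl : j = l
    · subst hjl
      have h1 : τ (a + Pi.single j 1) j ∈ Finset.univ.image (τ a) := by
        rw [himage a, ← himage (a + Pi.single j 1)]
        exact Finset.mem_image_of_mem _ (Finset.mem_univ j)
      obtain ⟨i, _, hi⟩ := Finset.mem_image.mp h1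
      by_cases hij : j = i
      · rw [← hi, hij]
      · exfalso
        have h2 := hne_const a j i hij
        rw [← h2] at hi
        exact hij (hτinj _ hi).symm
    · exact hne_const a j l hjl
  have hconst : ∀ a, τ a = τ 0 := by
    intro a
    induction a using fun_induction with
    | h0 => rfl
    | hs a j ih => rw [← ih]; funext l; exact hconst1 a j l
  have hv0 : v 0 = γ (fun _ => m₀) * δ := by
    simp only [hv, add_zero]
  refine ⟨τ 0, ?_, ?_, ?_⟩
  · intro a
    rw [← hv0]
    exact hSk a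
  · intro a j
    rw [← hv0]
    show N (v a) (τ 0 j) = _
    induction a using fun_induction with
    | h0 => simp
    | hs a i ih =>
      rw [hτ3, Pi.add_apply, ih, hconst a, Pi.add_apply, add_assoc]
      congr 2
      by_cases hij : i = j
      · subst hij; simp
      · rw [Pi.single_eq_of_ne (Ne.symm hij), Pi.single_eq_of_ne]
        exact fun h => hij ((hτinj 0 h).symm)
  · intro a q hq
    by_contra hne
    have h1 := hvis _ _ hne
    have h2 : q ∈ vis (Sk (v 0)) := by
      rw [← hSk a]
      exact h1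
    rw [← himage 0] at h2
    obtain ⟨j, _, hj⟩ := Finset.mem_image.mp h2
    exact hq j hj

/-- **Abstract criterion.** -/
theorem abs_virtually_abelian (hfin : (Set.range Sk).Finite)
    (hinj : ∀ g h, Sk g = Sk h → N g = N h → g = h)
    (hvis : ∀ g q, N g q ≠ 0 → q ∈ vis (Sk g))
    (hJ : ∀ g, (vis (Sk g)).card ≤ Fintype.card J)
    (hγ : Function.Injective γ)
    (hE : ∀ δ : G, ∃ m₀ : ℕ, ∀ m : J → ℕ, (∀ j, m₀ ≤ m j) → ∀ j, ∃ q ∈ vis (Sk (γ m * δ)),
      Sk (γ (m + Pi.single j 1) * δ) = Sk (γ m * δ) ∧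
      N (γ (m + Pi.single j 1) * δ) = N (γ m * δ) + Pi.single q 1) :
    ∃ H : Subgroup G, H.FiniteIndex ∧ ∀ x ∈ H, ∀ y ∈ H, x * y = y * x := by
  classical
  choose m₀ hm₀ using hE
  have hτ := fun δ => exists_tau hinj hvis hJ hγ δ (m₀ δ) (hm₀ δ)
  choose τ hτ1 hτ2 hτ3 using hτ
  let H : Subgroup G :=
    { carrier := {δ | ∃ A B : J → ℕ, ∀ b, γ (A + b) * δ = γ (B + b)}
      one_mem' := ⟨0, 0, fun b => mul_one _⟩
      mul_mem' := by
        rintro x y ⟨A, B, h⟩ ⟨A', B', h'⟩
        refine ⟨A + A', B + B', fun b => ?_⟩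
        rw [← mul_assoc, add_assoc, h (A' + b)]
        have : B + (A' + b) = A' + (B + b) := by
          rw [← add_assoc, ← add_assoc, add_comm B A']
        rw [this, h' (B + b), ← add_assoc, add_comm B' B]
      inv_mem' := by
        rintro x ⟨A, B, h⟩
        refine ⟨B, A, fun b => ?_⟩
        rw [← h b, mul_inv_cancel_right] }
  have hH : ∀ δ, δ ∈ H ↔ ∃ A B : J → ℕ, ∀ b, γ (A + b) * δ = γ (B + b) := fun δ => Iff.rfl
  refine ⟨H, ?_, ?_⟩
  · -- finite index
    have hkey : ∀ δ δ' : G, Sk (γ (fun _ => m₀ δ) * δ) = Sk (γ (fun _ => m₀ δ') * δ') →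
        τ δ = τ δ' → δ * δ'⁻¹ ∈ H := by
      intro δ δ' h1 h2
      rw [hH]
      refine ⟨(fun _ => m₀ δ) + fun j => N (γ (fun _ => m₀ δ') * δ') (τ δ j),
        (fun _ => m₀ δ') + fun j => N (γ (fun _ => m₀ δ) * δ) (τ δ j), fun b => ?_⟩
      rw [← mul_assoc, mul_inv_eq_iff_eq_mul, add_assoc, add_assoc]
      apply hinj
      · rw [hτ1, hτ1, h1]
      · funext q
        by_cases hq : ∃ j, τ δ j = q
        · obtain ⟨j, rfl⟩ := hq
          rw [hτ2 δ, h2, hτ2 δ', Pi.add_apply, Pi.add_apply]
          omega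
        · push Not at hq
          rw [hτ3 δ _ q hq, hτ3 δ' _ q (by rwa [h2] at hq)]
    have hfin' : Finite (Set.range Sk) := hfin
    let f : G ⧸ H → (Set.range Sk) × (J → Q) := fun x =>
      (⟨Sk (γ (fun _ => m₀ (x.out)⁻¹) * (x.out)⁻¹), _, rfl⟩, τ (x.out)⁻¹)
    have hf : Function.Injective f := by
      intro x y hxy
      have h1 := congrArg (fun p => (Prod.fst p).1) hxy
      have h2 := congrArg Prod.snd hxy
      have h3 := hkey _ _ h1 h2
      rw [inv_inv] at h3
      rw [← QuotientGroup.out_eq' x, ← QuotientGroup.out_eq' y]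
      exact QuotientGroup.eq.mpr h3
    have : Finite (G ⧸ H) := Finite.of_injective f hf
    exact Subgroup.finiteIndex_of_finite_quotient
  · -- commutativity
    rintro x ⟨A, B, h⟩ y ⟨A', B', h'⟩
    have h1 : γ (A + A') * (x * y) = γ (B + B') := by
      rw [← mul_assoc, h A', add_comm B A', h' B, add_comm B' B]
    have h2 : γ (A + A') * (y * x) = γ (B + B') := by
      rw [← mul_assoc, add_comm A A', h' A, add_comm B' A, h B']
    exact mul_left_cancel (h1.trans h2.symm)

end

end Pool.Agent.Lib.MP_59c382_al
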