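import Pool.Agent.Lib.MP_59c382_al.FFCase

/-!
# Commutative algebra: functionals, primes and points
-/

set_option autoImplicit false

namespace Pool.Agent.Lib.MP_59c382_al

open scoped TensorProduct

/-- A non-zero semilinear functional. -/
theorem exists_functional {R : Type*} [CommRing R] {M : Type*} [AddCommGroup M] [Module R M]
    [Module.Finite R M] {F : Type*} [Field F] (f : R →+* F)
    (hf : Module.annihilator R M ≤ RingHom.ker f) :
    ∃ φ : M →+ F, (∀ r m, φ (r • m) = f r * φ m) ∧ ∃ m, φ m ≠ 0 := by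
  have hprime : (RingHom.ker f).IsPrime := RingHom.ker_isPrime f
  set p : PrimeSpectrum R := ⟨RingHom.ker f, hprime⟩ with hp
  have hmem : p ∈ Module.support R M := Module.mem_support_iff_of_finite.mpr hf
  rw [Module.mem_support_iff_nontrivial_residueField_tensorProduct] at hmem
  obtain ⟨z, hz⟩ := exists_ne (0 : p.asIdeal.ResidueField ⊗[R] M)
  obtain ⟨ψ, hψ⟩ : ∃ ψ : Module.Dual p.asIdeal.ResidueField (p.asIdeal.ResidueField ⊗[R] M),
      ψ z ≠ 0 := by
    by_contra hcon
    push Not at hcon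
    exact hz ((Module.forall_dual_apply_eq_zero_iff p.asIdeal.ResidueField z).mp hcon)
  obtain ⟨m, hm⟩ : ∃ m : M, ψ (1 ⊗ₜ m) ≠ 0 := by
    by_contra hcon
    push Not at hcon
    apply hψ
    induction z using TensorProduct.induction_on with
    | zero => exact map_zero ψ
    | tmul c m =>
      have : c ⊗ₜ[R] m = c • ((1 : p.asIdeal.ResidueField) ⊗ₜ[R] m) := by
        rw [TensorProduct.smul_tmul', smul_eq_mul, mul_one]
      rw [this, map_smul, hcon, smul_zero]
    | add a b ha hb =>
      have : ∀ y : p.asIdeal.ResidueField ⊗[R] M, ψ y = 0 := by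
        intro y
        induction y using TensorProduct.induction_on with
        | zero => exact map_zero ψ
        | tmul c m =>
          have : c ⊗ₜ[R] m = c • ((1 : p.asIdeal.ResidueField) ⊗ₜ[R] m) := by
            rw [TensorProduct.smul_tmul', smul_eq_mul, mul_one]
          rw [this, map_smul, hcon, smul_zero]
        | add a b ha hb => rw [map_add, ha, hb, add_zero]
      exact this _
  let ι : p.asIdeal.ResidueField →+* F := Ideal.ResidueField.lift p.asIdeal f le_rfl (by
    intro x hx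
    rw [Submonoid.mem_comap, IsUnit.mem_submonoid_iff, isUnit_iff_ne_zero]
    exact fun h => hx (RingHom.mem_ker.mpr h))
  refine ⟨⟨⟨fun m => ι (ψ (1 ⊗ₜ m)), ?_⟩, ?_⟩, ?_, ⟨m, ?_⟩⟩
  · rw [TensorProduct.tmul_zero, map_zero, map_zero]
  · intro a b
    show ι (ψ (1 ⊗ₜ (a + b))) = ι (ψ (1 ⊗ₜ a)) + ι (ψ (1 ⊗ₜ b))
    rw [TensorProduct.tmul_add, map_add, map_add]
  · intro r m
    show ι (ψ (1 ⊗ₜ (r • m))) = f r * ι (ψ (1 ⊗ₜ m))
    have h1 : (1 : p.asIdeal.ResidueField) ⊗ₜ[R] (r • m) =
        algebraMap R p.asIdeal.ResidueField r • ((1 : p.asIdeal.ResidueField) ⊗ₜ[R] m) := by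
      rw [TensorProduct.tmul_smul, algebraMap_smul]
    rw [h1, map_smul, smul_eq_mul, map_mul]
    congr 1
    exact Ideal.ResidueField.lift_algebraMap _ _ _ _ _
  · show ι (ψ (1 ⊗ₜ m)) ≠ 0
    exact fun h => hm ((map_eq_zero ι).mp h)

/-- A prime at which `u` is not a root of unity. -/
theorem exists_prime {R : Type*} [CommRing R] [IsNoetherianRing R] (I : Ideal R) (u : R)
    (h : ∀ k : ℕ, 0 < k → u ^ k - 1 ∉ I.radical) :
    ∃ P : Ideal R, P.IsPrime ∧ I ≤ P ∧ ∀ k : ℕ, 0 < k → u ^ k - 1 ∉ P := by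
  classical
  by_contra hcon
  push Not at hcon
  have hfin := Ideal.finite_minimalPrimes_of_isNoetherianRing R I
  have h1 : ∀ P ∈ I.minimalPrimes, ∃ k : ℕ, 0 < k ∧ u ^ k - 1 ∈ P :=
    fun P hP => hcon P hP.1.1 hP.1.2
  choose! k hk1 hk2 using h1
  set K := ∏ P ∈ hfin.toFinset, k P with hK
  have hKpos : 0 < K := Finset.prod_pos (fun P hP => hk1 P ((Set.Finite.mem_toFinset hfin).mp hP))
  apply h K hKpos
  rw [← Ideal.sInf_minimalPrimes, Submodule.mem_sInf]
  intro P hP
  have hdvd : k P ∣ K := Finset.dvd_prod_of_mem k ((Set.Finite.mem_toFinset hfin).mpr hP)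
  obtain ⟨c, hc⟩ := hdvd
  rw [hc, pow_mul]
  have h2 : u ^ k P - 1 ∣ (u ^ k P) ^ c - 1 := by
    simpa using sub_dvd_pow_sub_pow (u ^ k P) 1 c
  exact Ideal.mem_of_dvd P h2 (hk2 P hP)

universe v in
/-- A point over a given field `K`. -/
theorem exists_point {R : Type*} [CommRing R] [Algebra.FiniteType ℤ R] {L : Type v} [Field L]
    (g : R →+* L) (K : Type*) [Field K] [Algebra K L] :
    ∃ (F : Type v) (_ : Field F) (_ : Algebra K F) (_ : FiniteDimensional K F) (f : R →+* F),
      RingHom.ker g ≤ RingHom.ker f ∧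
      (∀ (y : K) (r : R), g r = algebraMap K L y → f r = algebraMap K F y) ∧
      (∀ r : R, IsAlgebraic K (g r) → g r ≠ 0 → f r ≠ 0) ∧
      Algebra.adjoin K (Set.range f) = ⊤ := by
  classical
  set D := Algebra.adjoin K (Set.range g) with hD
  have hft : Algebra.FiniteType K D := by
    obtain ⟨t, ht⟩ := ‹Algebra.FiniteType ℤ R›.out
    have h1 : D = Algebra.adjoin K (g '' (t : Set R)) := by
      apply le_antisymm
      · apply Algebra.adjoin_le
        rintro _ ⟨r, rfl⟩
        have hr : r ∈ Algebra.adjoin ℤ (t : Set R) := by rw [ht]; trivial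
        induction hr using Algebra.adjoin_induction with
        | mem x hx => exact Algebra.subset_adjoin ⟨x, hx, rfl⟩
        | algebraMap n =>
          rw [eq_intCast, map_intCast]
          exact intCast_mem _ n
        | add x y _ _ hx hy => rw [map_add]; exact Subalgebra.add_mem _ hx hy
        | mul x y _ _ hx hy => rw [map_mul]; exact Subalgebra.mul_mem _ hx hy
      · exact Algebra.adjoin_mono (Set.image_subset_range _ _)
    rw [h1]
    exact Algebra.FiniteType.adjoin_of_finite (t.finite_toSet.image g)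
  obtain ⟨m, hm⟩ := Ideal.exists_maximal D
  let _ : Field (D ⧸ m) := Ideal.Quotient.field m
  have hfd : Module.Finite K (D ⧸ m) := finite_of_finite_type_of_isJacobsonRing K (D ⧸ m)
  let g' : R →+* D := g.codRestrict D (fun r => Algebra.subset_adjoin ⟨r, rfl⟩)
  have hg' : ∀ r, ((g' r : D) : L) = g r := fun r => rfl
  refine ⟨D ⧸ m, Ideal.Quotient.field m, inferInstance, hfd, (Ideal.Quotient.mk m).comp g', ?_, ?_,
    ?_, ?_⟩
  · intro r hr
    rw [RingHom.mem_ker] at hr ⊢
    have : g' r = 0 := Subtype.ext (by rw [hg', hr]; rfl)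
    rw [RingHom.comp_apply, this, map_zero]
  · intro y r hr
    have h1 : g' r = algebraMap K D y := Subtype.ext (by rw [hg', hr]; rfl)
    rw [RingHom.comp_apply, h1]
    rfl
  · intro r halg hne h0
    rw [RingHom.comp_apply, Ideal.Quotient.eq_zero_iff_mem] at h0
    have hinv : ((g' r : D) : L)⁻¹ ∈ D := D.inv_mem_of_algebraic (x := g' r) (by rw [hg']; exact halg)
    have h1 : (⟨_, hinv⟩ : D) * g' r = 1 := by
      apply Subtype.ext
      show ((g' r : D) : L)⁻¹ * (g' r : D) = 1
      rw [hg']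
      exact inv_mul_cancel₀ hne
    have h2 : (1 : D) ∈ m := by
      rw [← h1]
      exact m.mul_mem_left _ h0
    exact hm.ne_top ((Ideal.eq_top_iff_one m).mpr h2)
  · rw [eq_top_iff]
    rintro y -
    obtain ⟨⟨d, hd⟩, rfl⟩ := Ideal.Quotient.mk_surjective y
    induction hd using Algebra.adjoin_induction with
    | mem x hx =>
      obtain ⟨r, rfl⟩ := hx
      exact Algebra.subset_adjoin ⟨r, rfl⟩
    | algebraMap c => exact Subalgebra.algebraMap_mem _ c
    | add x y hx' hy' hx hy =>
      have : (⟨x + y, add_mem hx' hy'⟩ : D) = ⟨x, hx'⟩ + ⟨y, hy'⟩ := rfl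
      rw [this, map_add]
      exact Subalgebra.add_mem _ hx hy
    | mul x y hx' hy' hx hy =>
      have : (⟨x * y, mul_mem hx' hy'⟩ : D) = ⟨x, hx'⟩ * ⟨y, hy'⟩ := rfl
      rw [this, map_mul]
      exact Subalgebra.mul_mem _ hx hy

end Pool.Agent.Lib.MP_59c382_al
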