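import Pool.Agent.Lib.MP_59c382_al.Theta

/-!
# From an automatic structure to a combing of linear length
-/

set_option autoImplicit false

namespace Pool.Agent.Lib.MP_59c382_al

variable {G : Type*} [Group G]

/-- automatic structure, in the form of the frozen statement -/
structure Aut (G : Type*) [Group G] where
  /-- number of generators -/
  n : ℕ
  /-- generators -/
  s : Fin n → G
  /-- states -/
  σ : Type
  fin : Fintype σ
  /-- the automaton -/
  M : DFA (Fin n) σ
  /-- fellow traveller constant -/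
  k : ℕ
  surj : ∀ g : G, ∃ w ∈ M.accepts, (w.map s).prod = g
  fellow : ∀ u ∈ M.accepts, ∀ v ∈ M.accepts, ∀ a : G, (a = 1 ∨ a ∈ Set.range s) →
        (u.map s).prod * a = (v.map s).prod →
        ∀ t : ℕ, ∃ l : List G, l.length ≤ k ∧
          (∀ x ∈ l, x ∈ Set.range s ∨ x⁻¹ ∈ Set.range s) ∧
          ((u.take t).map s).prod * l.prod = ((v.take t).map s).prod

/-- `g` is a product of at most `r` generators and inverses of generators -/
def Bl {n : ℕ} (s : Fin n → G) (r : ℕ) (g : G) : Prop :=
  ∃ l : List G, l.length ≤ r ∧ (∀ x ∈ l, x ∈ Set.range s ∨ x⁻¹ ∈ Set.range s) ∧ l.prod = g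

section Bl

variable {n : ℕ} {s : Fin n → G}

theorem Bl_one (r : ℕ) : Bl s r 1 := ⟨[], by simp, by simp, by simp⟩

theorem Bl_mono {r r' : ℕ} (h : r ≤ r') {g : G} (hg : Bl s r g) : Bl s r' g := by
  obtain ⟨l, h1, h2, h3⟩ := hg
  exact ⟨l, h1.trans h, h2, h3⟩

theorem Bl_inv {r : ℕ} {g : G} (hg : Bl s r g) : Bl s r g⁻¹ := by
  obtain ⟨l, h1, h2, h3⟩ := hg
  refine ⟨(l.map (fun x => x⁻¹)).reverse, by simpa using h1, ?_, ?_⟩
  · intro x hx
    rw [List.mem_reverse] at hx
    obtain ⟨y, hy, rfl⟩ := List.mem_map.mp hx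
    rw [inv_inv]
    exact (h2 y hy).symm
  · rw [← h3, List.prod_inv_reverse]

theorem Bl_mul {r r' : ℕ} {g h : G} (hg : Bl s r g) (hh : Bl s r' h) : Bl s (r + r') (g * h) := by
  obtain ⟨l, h1, h2, h3⟩ := hg
  obtain ⟨l', h1', h2', h3'⟩ := hh
  refine ⟨l ++ l', by simp; omega, ?_, by simp [h3, h3']⟩
  intro x hx
  rcases List.mem_append.mp hx with h | h
  · exact h2 x h
  · exact h2' x h

theorem Bl_gen (i : Fin n) : Bl s 1 (s i) := ⟨[s i], by simp, by simp, by simp⟩

theorem finite_Bl (r : ℕ) : {g | Bl s r g}.Finite := by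
  have h1 : ({l : List (Fin n × Bool) | l.length ≤ r}).Finite := List.finite_length_le _ r
  apply (h1.image (fun l => (l.map (fun p => if p.2 then s p.1 else (s p.1)⁻¹)).prod)).subset
  rintro g ⟨l, hl1, hl2, hl3⟩
  rw [Set.mem_image]
  clear h1
  induction l generalizing g r with
  | nil => exact ⟨[], by simp, by simpa using hl3⟩
  | cons x l ih =>
    rw [List.length_cons] at hl1
    obtain ⟨r', rfl⟩ : ∃ r', r = r' + 1 := ⟨r - 1, by omega⟩
    obtain ⟨l', h1, h2⟩ := ih r' (by omega) (fun y hy => hl2 y (by simp [hy])) rfl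
    rw [List.prod_cons] at hl3
    rcases hl2 x (by simp) with ⟨i, hi⟩ | ⟨i, hi⟩
    · refine ⟨(i, true) :: l', ?_, ?_⟩
      · rw [Set.mem_ofPred_eq] at h1 ⊢
        simp only [List.length_cons]
        omega
      · rw [List.map_cons, List.prod_cons, h2]
        simp [hi, hl3]
    · refine ⟨(i, false) :: l', ?_, ?_⟩
      · rw [Set.mem_ofPred_eq] at h1 ⊢
        simp only [List.length_cons]
        omega
      · rw [List.map_cons, List.prod_cons, h2]
        simp [hi, hl3]

theorem Bl_ev (w : List (Fin n)) : Bl s w.length (w.map s).prod :=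
  ⟨w.map s, by simp, by
    intro x hx
    obtain ⟨i, _, rfl⟩ := List.mem_map.mp hx
    exact Or.inl ⟨i, rfl⟩, rfl⟩

end Bl

namespace Aut

variable (S : Aut G)

/-- evaluation of words -/
def ev (w : List (Fin S.n)) : G := (w.map S.s).prod

@[simp] theorem ev_nil : S.ev [] = 1 := rfl

@[simp] theorem ev_append (u v : List (Fin S.n)) : S.ev (u ++ v) = S.ev u * S.ev v := by
  simp [ev]

theorem exists_Bl (g : G) : ∃ r, Bl S.s r g := by
  obtain ⟨w, _, hw⟩ := S.surj g
  exact ⟨w.length, hw ▸ Bl_ev w⟩

open Classical in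
/-- word length -/
noncomputable def len (g : G) : ℕ := Nat.find (S.exists_Bl g)

theorem len_le_iff {g : G} {r : ℕ} : S.len g ≤ r ↔ Bl S.s r g := by
  classical
  constructor
  · intro h
    exact Bl_mono h (Nat.find_spec (S.exists_Bl g))
  · intro h
    exact Nat.find_min' (S.exists_Bl g) h

theorem len_mul (g h : G) : S.len (g * h) ≤ S.len g + S.len h := by
  rw [len_le_iff]
  exact Bl_mul (S.len_le_iff.mp le_rfl) (S.len_le_iff.mp le_rfl)

theorem len_inv (g : G) : S.len g⁻¹ = S.len g := by
  apply le_antisymm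
  · rw [len_le_iff]
    exact Bl_inv (S.len_le_iff.mp le_rfl)
  · rw [len_le_iff]
    have := Bl_inv (S.len_le_iff.mp (le_refl (S.len g⁻¹)))
    rwa [inv_inv] at this

theorem len_one : S.len 1 = 0 := by
  have := S.len_le_iff.mpr (Bl_one (s := S.s) 0)
  omega

theorem mem_accepts_iff (w : List (Fin S.n)) : w ∈ S.M.accepts ↔ S.M.eval w ∈ S.M.accept :=
  Iff.rfl

/-- the pumping argument -/
theorem length_le_of_minimal {u v : List (Fin S.n)} (hv : v ∈ S.M.accepts)
    (huv : ∀ t, Bl S.s S.k ((S.ev (u.take t))⁻¹ * S.ev (v.take t)))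
    (hmin : ∀ v' ∈ S.M.accepts, S.ev v' = S.ev v → v.length ≤ v'.length) :
    v.length ≤ u.length + Nat.card S.σ * Nat.card {g | Bl S.s S.k g} := by
  by_contra hlt
  rw [not_le] at hlt
  have := S.fin
  have : Finite {g | Bl S.s S.k g} := finite_Bl S.k
  set N := Nat.card S.σ * Nat.card {g | Bl S.s S.k g} with hN
  let φ : Fin (N + 1) → S.σ × {g | Bl S.s S.k g} := fun j =>
    (S.M.eval (v.take (u.length + j)), ⟨(S.ev (u.take (u.length + j)))⁻¹ *
      S.ev (v.take (u.length + j)), huv _⟩)
  obtain ⟨j₁, j₂, hne, heq⟩ : ∃ j₁ j₂ : Fin (N + 1), j₁ < j₂ ∧ φ j₁ = φ j₂ := by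
    have hnot : ¬ Function.Injective φ := by
      intro hinj
      have := Nat.card_le_card_of_injective φ hinj
      rw [Nat.card_prod, ← hN, Nat.card_eq_fintype_card, Fintype.card_fin] at this
      omega
    rw [Function.not_injective_iff] at hnot
    obtain ⟨a, b, hab, hne⟩ := hnot
    rcases lt_or_gt_of_ne hne with h | h
    · exact ⟨a, b, h, hab⟩
    · exact ⟨b, a, h, hab.symm⟩
  have h1 : S.M.eval (v.take (u.length + j₁)) = S.M.eval (v.take (u.length + j₂)) :=
    congrArg Prod.fst heq
  have h2 : S.ev (v.take (u.length + j₁)) = S.ev (v.take (u.length + j₂)) := by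
    have := congrArg (fun p => (Prod.snd p).1) heq
    simp only [φ] at this
    rw [List.take_of_length_le (by omega), List.take_of_length_le (l := u) (by omega)] at this
    exact mul_left_cancel this
  set v' := v.take (u.length + j₁) ++ v.drop (u.length + j₂) with hv'
  have hlen : v'.length < v.length := by
    rw [hv', List.length_append, List.length_take, List.length_drop]
    have := j₂.2
    omega
  have hacc : v' ∈ S.M.accepts := by
    rw [mem_accepts_iff, hv', DFA.eval, DFA.evalFrom_of_append]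
    have h3 : S.M.evalFrom S.M.start (v.take (u.length + j₁)) =
        S.M.evalFrom S.M.start (v.take (u.length + j₂)) := h1
    rw [h3, ← DFA.evalFrom_of_append, List.take_append_drop]
    exact hv
  have hev : S.ev v' = S.ev v := by
    rw [hv', ev_append, h2, ← ev_append, List.take_append_drop]
  have := hmin v' hacc hev
  omega

/-- a shortest representative -/
theorem exists_rep (g : G) : ∃ w ∈ S.M.accepts, S.ev w = g ∧
    ∀ v' ∈ S.M.accepts, S.ev v' = g → w.length ≤ v'.length := by
  classical
  have h : ∃ m, ∃ w ∈ S.M.accepts, S.ev w = g ∧ w.length = m := by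
    obtain ⟨w, hw, he⟩ := S.surj g
    exact ⟨w.length, w, hw, he, rfl⟩
  obtain ⟨w, hw, he, hl⟩ := Nat.find_spec h
  refine ⟨w, hw, he, ?_⟩
  intro v' hv' he'
  rw [hl]
  exact Nat.find_min' h ⟨v', hv', he', rfl⟩

/-- a shortest representative -/
noncomputable def rep (g : G) : List (Fin S.n) := (S.exists_rep g).choose

theorem rep_mem (g : G) : S.rep g ∈ S.M.accepts := (S.exists_rep g).choose_spec.1

theorem ev_rep (g : G) : S.ev (S.rep g) = g := (S.exists_rep g).choose_spec.2.1

theorem rep_min (g : G) {v : List (Fin S.n)} (hv : v ∈ S.M.accepts) (h : S.ev v = g) :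
    (S.rep g).length ≤ v.length := (S.exists_rep g).choose_spec.2.2 v hv h

/-- point at time `t` -/
noncomputable def pt (t : ℕ) (g : G) : G := S.ev ((S.rep g).take t)

theorem pt_fellow_gen (t : ℕ) (g : G) (i : Fin S.n) :
    Bl S.s S.k ((S.pt t g)⁻¹ * S.pt t (g * S.s i)) := by
  obtain ⟨l, h1, h2, h3⟩ := S.fellow _ (S.rep_mem g) _ (S.rep_mem (g * S.s i)) (S.s i)
    (Or.inr ⟨i, rfl⟩) (by
      have e1 := S.ev_rep g
      have e2 := S.ev_rep (g * S.s i)
      unfold ev at e1 e2
      rw [e1, e2]) t
  refine ⟨l, h1, h2, ?_⟩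
  unfold pt ev
  rw [← h3, inv_mul_cancel_left]

/-- the pumping constant -/
noncomputable def NN : ℕ := Nat.card S.σ * Nat.card {g | Bl S.s S.k g}

theorem rep_length_mul (g : G) (i : Fin S.n) :
    (S.rep (g * S.s i)).length ≤ (S.rep g).length + S.NN := by
  apply S.length_le_of_minimal (S.rep_mem _)
  · exact fun t => S.pt_fellow_gen t g i
  · intro v' hv' he
    rw [S.ev_rep] at he
    exact S.rep_min _ hv' he

theorem rep_length_of_mul (g : G) (i : Fin S.n) :
    (S.rep g).length ≤ (S.rep (g * S.s i)).length + S.NN := by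
  apply S.length_le_of_minimal (S.rep_mem _)
  · intro t
    have := Bl_inv (S.pt_fellow_gen t g i)
    rw [mul_inv_rev, inv_inv] at this
    exact this
  · intro v' hv' he
    rw [S.ev_rep] at he
    exact S.rep_min _ hv' he

theorem rep_length_list (l : List G) (hl : ∀ x ∈ l, x ∈ Set.range S.s ∨ x⁻¹ ∈ Set.range S.s) :
    (S.rep l.prod).length ≤ (S.rep 1).length + S.NN * l.length := by
  induction l using List.reverseRecOn with
  | nil => simp
  | append_singleton l x ih =>
    have ih' := ih (fun y hy => hl y (by simp [hy]))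
    rw [List.prod_append, List.prod_singleton, List.length_append, List.length_singleton,
      Nat.mul_add, Nat.mul_one]
    rcases hl x (by simp) with ⟨i, hi⟩ | ⟨i, hi⟩
    · rw [← hi]
      have := S.rep_length_mul l.prod i
      omega
    · have h1 := S.rep_length_of_mul (l.prod * x) i
      have h2 : l.prod * x * S.s i = l.prod := by rw [hi, mul_inv_cancel_right]
      rw [h2] at h1
      omega

theorem rep_length (g : G) : (S.rep g).length ≤ (S.rep 1).length + S.NN * S.len g := by
  obtain ⟨l, h1, h2, h3⟩ := S.len_le_iff.mp (le_refl (S.len g))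
  have := S.rep_length_list l h2
  rw [h3] at this
  refine this.trans ?_
  exact Nat.add_le_add_left (Nat.mul_le_mul_left _ h1) _

theorem pt_fellow_list (t : ℕ) (l : List G)
    (hl : ∀ x ∈ l, x ∈ Set.range S.s ∨ x⁻¹ ∈ Set.range S.s) (g : G) :
    S.len ((S.pt t g)⁻¹ * S.pt t (g * l.prod)) ≤ S.k * l.length := by
  induction l generalizing g with
  | nil => simp [S.len_one]
  | cons x l ih =>
    have ih' := ih (fun y hy => hl y (by simp [hy])) (g * x)
    have e1 : (S.pt t g)⁻¹ * S.pt t (g * (x :: l).prod) =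
        ((S.pt t g)⁻¹ * S.pt t (g * x)) * ((S.pt t (g * x))⁻¹ * S.pt t (g * x * l.prod)) := by
      rw [List.prod_cons, mul_assoc g x]
      group
    rw [e1]
    refine (S.len_mul _ _).trans ?_
    have h1 : S.len ((S.pt t g)⁻¹ * S.pt t (g * x)) ≤ S.k := by
      rcases hl x (by simp) with ⟨i, hi⟩ | ⟨i, hi⟩
      · rw [← hi, len_le_iff]
        exact S.pt_fellow_gen t g i
      · have h2 := S.pt_fellow_gen t (g * x) i
        rw [hi, mul_inv_cancel_right] at h2
        have h3 := Bl_inv h2
        rw [mul_inv_rev, inv_inv] at h3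
        rwa [len_le_iff]
    rw [List.length_cons, Nat.mul_succ]
    omega

/-- the combing -/
noncomputable def combing : Combing G where
  len := S.len
  len_one := S.len_one
  len_inv := S.len_inv
  len_mul := S.len_mul
  finite_ball r := by
    have : {g | S.len g ≤ r} = {g | Bl S.s r g} := by
      ext g
      exact S.len_le_iff
    rw [this]
    exact finite_Bl r
  α := S.pt
  K := S.k
  c := S.NN + (S.rep 1).length
  α_zero g := by simp [pt]
  α_step t g := by
    rw [len_le_iff]
    unfold pt
    by_cases h : t < (S.rep g).length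
    · rw [List.take_succ_eq_append_getElem h, ev_append, inv_mul_cancel_left]
      have : S.ev [(S.rep g)[t]] = S.s ((S.rep g)[t]) := by simp [ev]
      rw [this]
      exact Bl_gen _
    · rw [List.take_of_length_le (by omega), List.take_of_length_le (by omega), inv_mul_cancel]
      exact Bl_one _
  α_end t g ht := by
    unfold pt
    rw [List.take_of_length_le, S.ev_rep]
    refine (S.rep_length g).trans (le_trans ?_ ht)
    nlinarith [Nat.zero_le (S.NN), Nat.zero_le ((S.rep 1).length), Nat.zero_le (S.len g)]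
  α_fellow t g h := by
    obtain ⟨l, h1, h2, h3⟩ := S.len_le_iff.mp (le_refl (S.len (g⁻¹ * h)))
    have := S.pt_fellow_list t l h2 g
    rw [h3, mul_inv_cancel_left] at this
    exact this.trans (Nat.mul_le_mul_left _ h1)
  α_len t g := by
    rw [len_le_iff]
    unfold pt
    have h1 : Bl S.s ((S.rep g).take t).length (S.ev ((S.rep g).take t)) := Bl_ev _
    apply Bl_mono _ h1
    rw [List.length_take]
    refine (min_le_right _ _).trans ((S.rep_length g).trans ?_)
    nlinarith [Nat.zero_le (S.NN), Nat.zero_le ((S.rep 1).length), Nat.zero_le (S.len g)]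

end Aut

end Pool.Agent.Lib.MP_59c382_al
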