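import Mathlib

/-!
# Block decomposition of runs
-/

set_option autoImplicit false
set_option linter.unusedSectionVars false

namespace Pool.Agent.Lib.MP_59c382_al

variable {α σ : Type*} [DecidableEq σ]

/-- reachable and co-reachable states -/
def Live (M : DFA α σ) (q : σ) : Prop :=
  (∃ u, M.eval u = q) ∧ ∃ v, M.evalFrom q v ∈ M.accept

/-- states with a non-empty loop -/
def Cyc (M : DFA α σ) (q : σ) : Prop := ∃ u : List α, u ≠ [] ∧ M.evalFrom q u = q

/-- the skeleton of a list of blocks -/
def sk (M : DFA α σ) : σ → List (List α) → List (List α)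
  | _, [] => []
  | q, B :: Bs => if M.evalFrom q B = q then sk M q Bs else B :: sk M (M.evalFrom q B) Bs

/-- the exponents of a list of blocks -/
def cnt (M : DFA α σ) : σ → List (List α) → σ → ℕ
  | _, [] => 0
  | q, B :: Bs => if M.evalFrom q B = q then cnt M q Bs + Pi.single q 1
      else cnt M (M.evalFrom q B) Bs

/-- visited states -/
def sts (M : DFA α σ) : σ → List (List α) → Finset σ
  | q, [] => {q}
  | q, B :: Bs => insert q (sts M (M.evalFrom q B) Bs)

section basic

variable (M : DFA α σ)

theorem mem_sts_self (q : σ) (Bs : List (List α)) : q ∈ sts M q Bs := by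
  cases Bs with
  | nil => simp [sts]
  | cons B Bs => simp [sts]

theorem sts_sk (q : σ) (Bs : List (List α)) : sts M q (sk M q Bs) = sts M q Bs := by
  induction Bs generalizing q with
  | nil => rfl
  | cons B Bs ih =>
    rw [sk, sts]
    split_ifs with h
    · rw [ih, h, Finset.insert_eq_of_mem (mem_sts_self M q Bs)]
    · rw [sts, ih]

theorem exists_split_of_mem_sts {q r : σ} {Bs : List (List α)} (h : r ∈ sts M q Bs) :
    ∃ B1 B2, Bs = B1 ++ B2 ∧ M.evalFrom q B1.flatten = r := by
  induction Bs generalizing q with
  | nil =>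
    rw [sts, Finset.mem_singleton] at h
    exact ⟨[], [], rfl, by simp [h]⟩
  | cons B Bs ih =>
    rw [sts, Finset.mem_insert] at h
    rcases h with rfl | h
    · exact ⟨[], B :: Bs, rfl, by simp⟩
    · obtain ⟨B1, B2, h1, h2⟩ := ih h
      refine ⟨B :: B1, B2, by rw [h1]; rfl, ?_⟩
      rw [List.flatten_cons, DFA.evalFrom_of_append]
      exact h2

theorem mem_sts_append {q : σ} (B1 B2 : List (List α)) :
    M.evalFrom q B1.flatten ∈ sts M q (B1 ++ B2) := by
  induction B1 generalizing q with
  | nil => exact mem_sts_self M _ _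
  | cons B B1 ih =>
    rw [List.cons_append, sts, List.flatten_cons, DFA.evalFrom_of_append]
    exact Finset.mem_insert_of_mem ih

theorem cnt_ne_zero {q r : σ} {Bs : List (List α)} (h : cnt M q Bs r ≠ 0) :
    r ∈ sts M q Bs ∧ ∃ B ∈ Bs, M.evalFrom r B = r := by
  induction Bs generalizing q with
  | nil => exact absurd rfl h
  | cons B Bs ih =>
    rw [cnt] at h
    split_ifs at h with hB
    · by_cases hr : r = q
      · subst hr
        exact ⟨mem_sts_self M _ _, B, by simp, hB⟩
      · rw [Pi.add_apply, Pi.single_eq_of_ne hr, add_zero] at h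
        obtain ⟨h1, B', hB', h2⟩ := ih h
        refine ⟨?_, B', by simp [hB'], h2⟩
        rw [sts, hB]
        exact Finset.mem_insert_of_mem h1
    · obtain ⟨h1, B', hB', h2⟩ := ih h
      refine ⟨?_, B', by simp [hB'], h2⟩
      rw [sts]
      exact Finset.mem_insert_of_mem h1

theorem sk_insert {q : σ} {z : List α} (B1 B2 : List (List α))
    (hz : M.evalFrom (M.evalFrom q B1.flatten) z = M.evalFrom q B1.flatten) :
    sk M q (B1 ++ z :: B2) = sk M q (B1 ++ B2) := by
  induction B1 generalizing q with
  | nil =>
    simp only [List.flatten_nil, DFA.evalFrom_nil] at hz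
    rw [List.nil_append, List.nil_append, sk, if_pos hz]
  | cons B B1 ih =>
    rw [List.flatten_cons, DFA.evalFrom_of_append] at hz
    rw [List.cons_append, List.cons_append, sk, sk]
    split_ifs with h
    · rw [h] at hz
      exact ih hz
    · rw [ih hz]

theorem cnt_insert {q : σ} {z : List α} (B1 B2 : List (List α))
    (hz : M.evalFrom (M.evalFrom q B1.flatten) z = M.evalFrom q B1.flatten) :
    cnt M q (B1 ++ z :: B2) = cnt M q (B1 ++ B2) + Pi.single (M.evalFrom q B1.flatten) 1 := by
  induction B1 generalizing q with
  | nil =>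
    simp only [List.flatten_nil, DFA.evalFrom_nil] at hz
    rw [List.nil_append, List.nil_append, cnt, if_pos hz]
    simp
  | cons B B1 ih =>
    rw [List.flatten_cons, DFA.evalFrom_of_append] at hz ⊢
    rw [List.cons_append, List.cons_append, cnt, cnt]
    split_ifs with h
    · rw [h] at hz ⊢
      rw [ih hz, add_right_comm]
    · rw [ih hz]

theorem length_flatten_of {P : ℕ} {Bs : List (List α)} (h : ∀ B ∈ Bs, B.length = P) :
    Bs.flatten.length = Bs.length * P := by
  induction Bs with
  | nil => simp
  | cons B Bs ih =>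
    rw [List.flatten_cons, List.length_append, List.length_cons, h B (by simp),
      ih (fun B' hB' => h B' (by simp [hB']))]
    ring

/-- the decomposition of a word exists -/
theorem exists_blocks {P : ℕ} (hP : 0 < P) (w : List α) :
    ∃ (Bs : List (List α)) (t : List α), w = Bs.flatten ++ t ∧ (∀ B ∈ Bs, B.length = P) ∧
      t.length < P := by
  obtain ⟨n, hn⟩ : ∃ n, w.length ≤ n := ⟨_, le_rfl⟩
  induction n generalizing w with
  | zero =>
    have : w = [] := List.length_eq_zero_iff.mp (Nat.le_zero.mp hn)
    exact ⟨[], [], by simp [this], by simp, by simpa using hP⟩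
  | succ n ih =>
    by_cases hlt : w.length < P
    · exact ⟨[], w, by simp, by simp, hlt⟩
    · obtain ⟨Bs, t, h1, h2, h3⟩ := ih (w.drop P) (by rw [List.length_drop]; omega)
      refine ⟨w.take P :: Bs, t, ?_, ?_, h3⟩
      · rw [List.flatten_cons, List.append_assoc, ← h1, List.take_append_drop]
      · intro B hB
        rcases List.mem_cons.mp hB with rfl | hB
        · rw [List.length_take]; omega
        · exact h2 B hB

/-- the decomposition of a word is unique -/
theorem blocks_unique {P : ℕ} {Bs Bs' : List (List α)} {t t' : List α}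
    (h : Bs.flatten ++ t = Bs'.flatten ++ t') (hB : ∀ B ∈ Bs, B.length = P)
    (hB' : ∀ B ∈ Bs', B.length = P) (ht : t.length < P) (ht' : t'.length < P) :
    Bs = Bs' ∧ t = t' := by
  induction Bs generalizing Bs' with
  | nil =>
    match Bs' with
    | [] => exact ⟨rfl, by simpa using h⟩
    | B' :: Bs' =>
      exfalso
      have h1 := congrArg List.length h
      simp only [List.flatten_nil, List.nil_append, List.flatten_cons, List.length_append] at h1
      have := hB' B' (by simp)
      omega
  | cons B Bs ih =>
    match Bs' with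
    | [] =>
      exfalso
      have h1 := congrArg List.length h
      simp only [List.flatten_nil, List.nil_append, List.flatten_cons, List.length_append] at h1
      have := hB B (by simp)
      omega
    | B' :: Bs' =>
      rw [List.flatten_cons, List.flatten_cons, List.append_assoc, List.append_assoc] at h
      have hlen : B.length = B'.length := by rw [hB B (by simp), hB' B' (by simp)]
      obtain ⟨h1, h2⟩ := List.append_inj h hlen
      obtain ⟨h3, h4⟩ := ih h2 (fun X hX => hB X (by simp [hX])) (fun X hX => hB' X (by simp [hX]))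
      exact ⟨by rw [h1, h3], h4⟩

end basic

/-- hypotheses on the loops -/
structure LoopData (M : DFA α σ) where
  /-- block length -/
  P : ℕ
  P_pos : 0 < P
  /-- loops -/
  z : σ → List α
  uniq : ∀ q, Live M q → ∀ u v : List α, u.length = v.length → M.evalFrom q u = q →
    M.evalFrom q v = q → u = v
  z_len : ∀ q, Live M q → Cyc M q → (z q).length = P
  z_loop : ∀ q, Live M q → Cyc M q → M.evalFrom q (z q) = q

/-- good runs -/
def Gd (M : DFA α σ) (P : ℕ) (q : σ) (Bs : List (List α)) : Prop :=
  (∃ u, M.eval u = q) ∧ (∃ t, M.evalFrom q (Bs.flatten ++ t) ∈ M.accept) ∧ ∀ B ∈ Bs, B.length = P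

omit [DecidableEq σ] in
theorem evalFrom_replicate (M : DFA α σ) {q : σ} {u : List α} (h : M.evalFrom q u = q) (n : ℕ) :
    M.evalFrom q (List.replicate n u).flatten = q := by
  induction n with
  | zero => simp
  | succ n ih =>
    rw [List.replicate_succ, List.flatten_cons, DFA.evalFrom_of_append, h, ih]

theorem length_replicate_flatten (n : ℕ) (u : List α) :
    (List.replicate n u).flatten.length = n * u.length := by
  simp

namespace LoopData

variable {M : DFA α σ} (D : LoopData M)

omit [DecidableEq σ] in
theorem gd_live {q : σ} {Bs : List (List α)} (h : Gd M D.P q Bs) : Live M q :=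
  ⟨h.1, by
    obtain ⟨t, ht⟩ := h.2.1
    exact ⟨_, ht⟩⟩

omit [DecidableEq σ] in
theorem gd_split {q : σ} {B1 B2 : List (List α)} (h : Gd M D.P q (B1 ++ B2)) :
    Gd M D.P (M.evalFrom q B1.flatten) B2 := by
  obtain ⟨⟨u, hu⟩, ⟨t, ht⟩, hB⟩ := h
  refine ⟨⟨u ++ B1.flatten, ?_⟩, ⟨t, ?_⟩, fun B hB2 => hB B (by simp [hB2])⟩
  · rw [DFA.eval, DFA.evalFrom_of_append, ← hu]
    rfl
  · rw [List.flatten_append, List.append_assoc, DFA.evalFrom_of_append] at ht
    exact ht

theorem gd_cons {q : σ} {B : List α} {Bs : List (List α)} (h : Gd M D.P q (B :: Bs)) :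
    Gd M D.P (M.evalFrom q B) Bs := by
  have := D.gd_split (B1 := [B]) (B2 := Bs) h
  simpa using this

/-- a loop whose length is a multiple of `P` is a power of `z` -/
theorem loop_eq {q : σ} (hq : Live M q) {u : List α} (hu : u ≠ []) (hloop : M.evalFrom q u = q)
    {n : ℕ} (hn : u.length = n * D.P) : u = (List.replicate n (D.z q)).flatten := by
  have hcyc : Cyc M q := ⟨u, hu, hloop⟩
  apply D.uniq q hq
  · rw [length_replicate_flatten, D.z_len q hq hcyc, hn]
  · exact hloop
  · exact evalFrom_replicate M (D.z_loop q hq hcyc) n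

/-- no return -/
theorem not_mem_sts {q : σ} {B : List α} {Bs : List (List α)} (h : Gd M D.P q (B :: Bs))
    (hne : M.evalFrom q B ≠ q) : q ∉ sts M (M.evalFrom q B) Bs := by
  intro hmem
  apply hne
  obtain ⟨B1, B2, h1, h2⟩ := exists_split_of_mem_sts M hmem
  have hlive := D.gd_live h
  have hlen : ((B :: B1).flatten).length = (B1.length + 1) * D.P := by
    rw [length_flatten_of (P := D.P), List.length_cons]
    intro X hX
    apply h.2.2
    rw [h1]
    rcases List.mem_cons.mp hX with rfl | hX
    · simp
    · simp [hX]
  have hB : B.length = D.P := h.2.2 B (by simp)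
  have hne' : (B :: B1).flatten ≠ [] := by
    intro h0
    rw [h0] at hlen
    have := D.P_pos
    simp only [List.length_nil] at hlen
    have h3 : 0 < (B1.length + 1) * D.P := by positivity
    omega
  have hloop : M.evalFrom q (B :: B1).flatten = q := by
    rw [List.flatten_cons, DFA.evalFrom_of_append]
    exact h2
  have h3 := D.loop_eq hlive hne' hloop hlen
  have hcyc : Cyc M q := ⟨_, hne', hloop⟩
  rw [List.replicate_succ, List.flatten_cons, List.flatten_cons] at h3
  have h4 := (List.append_inj h3 (by rw [hB, D.z_len q hlive hcyc])).1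
  rw [h4]
  exact D.z_loop q hlive hcyc

/-- **Injectivity.** -/
theorem sk_cnt_inj {q : σ} {Bs Bs' : List (List α)} (h : Gd M D.P q Bs) (h' : Gd M D.P q Bs')
    (hsk : sk M q Bs = sk M q Bs') (hcnt : cnt M q Bs = cnt M q Bs') : Bs = Bs' := by
  induction Bs generalizing q Bs' with
  | nil =>
    match Bs' with
    | [] => rfl
    | B' :: Bs' =>
      exfalso
      by_cases hB' : M.evalFrom q B' = q
      · rw [cnt, cnt, if_pos hB'] at hcnt
        have := congrFun hcnt q
        simp at this
      · rw [sk, sk, if_neg hB'] at hsk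
        simp at hsk
  | cons B Bs ih =>
    match Bs' with
    | [] =>
      exfalso
      by_cases hB : M.evalFrom q B = q
      · rw [cnt, cnt, if_pos hB] at hcnt
        have := congrFun hcnt q
        simp at this
      · rw [sk, sk, if_neg hB] at hsk
        simp at hsk
    | B' :: Bs' =>
      by_cases hB : M.evalFrom q B = q
      · by_cases hB' : M.evalFrom q B' = q
        · have h1 : B = B' := D.uniq q (D.gd_live h) B B'
            (by rw [h.2.2 B (by simp), h'.2.2 B' (by simp)]) hB hB'
          rw [sk, sk, if_pos hB, if_pos hB'] at hsk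
          rw [cnt, cnt, if_pos hB, if_pos hB'] at hcnt
          have h2 := D.gd_cons h
          have h3 := D.gd_cons h'
          rw [hB] at h2
          rw [hB'] at h3
          rw [h1, ih h2 h3 hsk (add_right_cancel hcnt)]
        · exfalso
          rw [cnt, cnt, if_pos hB, if_neg hB'] at hcnt
          have h1 := congrFun hcnt q
          rw [Pi.add_apply, Pi.single_eq_same] at h1
          exact D.not_mem_sts h' hB' (cnt_ne_zero M (r := q) (by omega)).1
      · by_cases hB' : M.evalFrom q B' = q
        · exfalso
          rw [cnt, cnt, if_neg hB, if_pos hB'] at hcnt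
          have h1 := congrFun hcnt q
          rw [Pi.add_apply, Pi.single_eq_same] at h1
          exact D.not_mem_sts h hB (cnt_ne_zero M (r := q) (by omega)).1
        · rw [sk, sk, if_neg hB, if_neg hB'] at hsk
          rw [cnt, cnt, if_neg hB, if_neg hB'] at hcnt
          rw [List.cons.injEq] at hsk
          obtain ⟨h1, h2⟩ := hsk
          subst h1
          rw [ih (D.gd_cons h) (D.gd_cons h') h2 hcnt]

theorem length_sk_lt {q : σ} {Bs : List (List α)} (h : Gd M D.P q Bs) :
    (sk M q Bs).length + 1 ≤ (sts M q Bs).card := by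
  induction Bs generalizing q with
  | nil => simp [sk, sts]
  | cons B Bs ih =>
    have h1 := ih (D.gd_cons h)
    by_cases hB : M.evalFrom q B = q
    · rw [sk, if_pos hB, sts, hB, Finset.insert_eq_of_mem (mem_sts_self M q Bs)]
      rw [hB] at h1
      exact h1
    · rw [sk, if_neg hB, sts, List.length_cons, Finset.card_insert_of_notMem (D.not_mem_sts h hB)]
      omega

theorem sk_length_blocks {q : σ} {Bs : List (List α)} (h : ∀ B ∈ Bs, B.length = D.P) :
    ∀ B ∈ sk M q Bs, B.length = D.P := by
  induction Bs generalizing q with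
  | nil => simp [sk]
  | cons B Bs ih =>
    intro X hX
    rw [sk] at hX
    split_ifs at hX
    · exact ih (fun Y hY => h Y (by simp [hY])) X hX
    · rcases List.mem_cons.mp hX with rfl | hX
      · exact h X (by simp)
      · exact ih (fun Y hY => h Y (by simp [hY])) X hX

theorem evalFrom_sk (q : σ) (Bs : List (List α)) :
    M.evalFrom q (sk M q Bs).flatten = M.evalFrom q Bs.flatten := by
  induction Bs generalizing q with
  | nil => rfl
  | cons B Bs ih =>
    rw [sk, List.flatten_cons, DFA.evalFrom_of_append]
    split_ifs with h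
    · rw [ih, h]
    · rw [List.flatten_cons, DFA.evalFrom_of_append, ih]

/-- reduced block lists -/
def Rd (M : DFA α σ) : σ → List (List α) → Prop
  | _, [] => True
  | q, B :: Bs => q ∉ sts M (M.evalFrom q B) Bs ∧ Rd M (M.evalFrom q B) Bs

theorem rd_sk {q : σ} {Bs : List (List α)} (h : Gd M D.P q Bs) : Rd M q (sk M q Bs) := by
  induction Bs generalizing q with
  | nil => trivial
  | cons B Bs ih =>
    rw [sk]
    split_ifs with hB
    · have := D.gd_cons h
      rw [hB] at this
      exact ih this
    · refine ⟨?_, ih (D.gd_cons h)⟩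
      rw [sts_sk]
      exact D.not_mem_sts h hB

/-- insertion of loops -/
def ins (D : LoopData M) (m : σ → ℕ) : σ → List (List α) → List (List α)
  | q, [] => List.replicate (m q) (D.z q)
  | q, B :: Bs => List.replicate (m q) (D.z q) ++ B :: ins D m (M.evalFrom q B) Bs

theorem ins_congr {m m' : σ → ℕ} {q : σ} {Ks : List (List α)}
    (h : ∀ r ∈ sts M q Ks, m r = m' r) : D.ins m q Ks = D.ins m' q Ks := by
  induction Ks generalizing q with
  | nil => rw [ins, ins, h q (mem_sts_self M _ _)]
  | cons B Ks ih =>
    rw [ins, ins, h q (mem_sts_self M _ _), ih]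
    intro r hr
    exact h r (by rw [sts]; exact Finset.mem_insert_of_mem hr)

/-- multiplicities only at states with loops `z` -/
def Adm (D : LoopData M) (m : σ → ℕ) : Prop :=
  ∀ q, m q ≠ 0 → M.evalFrom q (D.z q) = q ∧ (D.z q).length = D.P

theorem sk_replicate {q : σ} {u : List α} (h : M.evalFrom q u = q) (n : ℕ) (X : List (List α)) :
    sk M q (List.replicate n u ++ X) = sk M q X := by
  induction n with
  | zero => rfl
  | succ n ih => rw [List.replicate_succ, List.cons_append, sk, if_pos h, ih]

theorem cnt_replicate {q : σ} {u : List α} (h : M.evalFrom q u = q) (n : ℕ) (X : List (List α)) :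
    cnt M q (List.replicate n u ++ X) = cnt M q X + Pi.single q n := by
  induction n with
  | zero => simp
  | succ n ih =>
    rw [List.replicate_succ, List.cons_append, cnt, if_pos h, ih, add_assoc, ← Pi.single_add]

theorem sk_replicate' {m : σ → ℕ} (hm : D.Adm m) {q : σ} (X : List (List α)) :
    sk M q (List.replicate (m q) (D.z q) ++ X) = sk M q X := by
  by_cases h : m q = 0
  · rw [h]; rfl
  · exact sk_replicate (hm q h).1 _ _

theorem cnt_replicate' {m : σ → ℕ} (hm : D.Adm m) {q : σ} (X : List (List α)) :
    cnt M q (List.replicate (m q) (D.z q) ++ X) = cnt M q X + Pi.single q (m q) := by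
  by_cases h : m q = 0
  · rw [h]; simp
  · exact cnt_replicate (hm q h).1 _ _

theorem evalFrom_replicate' {m : σ → ℕ} (hm : D.Adm m) (q : σ) :
    M.evalFrom q (List.replicate (m q) (D.z q)).flatten = q := by
  by_cases h : m q = 0
  · rw [h]; rfl
  · exact evalFrom_replicate M (hm q h).1 _

theorem sk_ins {m : σ → ℕ} (hm : D.Adm m) {q : σ} {Ks : List (List α)} (hK : Rd M q Ks) :
    sk M q (D.ins m q Ks) = Ks := by
  induction Ks generalizing q with
  | nil =>
    rw [ins]
    have := D.sk_replicate' hm (q := q) []
    rw [List.append_nil] at this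
    rw [this]
    rfl
  | cons B Ks ih =>
    rw [ins, D.sk_replicate' hm, sk, if_neg, ih hK.2]
    intro h
    apply hK.1
    have := mem_sts_self M (M.evalFrom q B) Ks
    rwa [h] at this ⊢

theorem cnt_ins {m : σ → ℕ} (hm : D.Adm m) {q : σ} {Ks : List (List α)} (hK : Rd M q Ks) :
    cnt M q (D.ins m q Ks) = fun r => if r ∈ sts M q Ks then m r else 0 := by
  induction Ks generalizing q with
  | nil =>
    rw [ins]
    have := D.cnt_replicate' hm (q := q) []
    rw [List.append_nil] at this
    rw [this]
    funext r
    by_cases hr : r = q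
    · subst hr
      simp [cnt, sts]
    · simp [cnt, sts, hr]
  | cons B Ks ih =>
    have hne : M.evalFrom q B ≠ q := by
      intro h
      apply hK.1
      have := mem_sts_self M (M.evalFrom q B) Ks
      rwa [h] at this ⊢
    rw [ins, D.cnt_replicate' hm, cnt, if_neg hne, ih hK.2]
    funext r
    by_cases hr : r = q
    · subst hr
      simp only [Pi.add_apply, Pi.single_eq_same, if_neg hK.1, zero_add]
      rw [if_pos (mem_sts_self M _ _)]
    · simp only [Pi.add_apply, Pi.single_eq_of_ne hr, add_zero]
      have : r ∈ sts M q (B :: Ks) ↔ r ∈ sts M (M.evalFrom q B) Ks := by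
        rw [sts, Finset.mem_insert]
        constructor
        · rintro (h | h)
          · exact absurd h hr
          · exact h
        · exact Or.inr
      simp only [this]

theorem evalFrom_ins {m : σ → ℕ} (hm : D.Adm m) (q : σ) (Ks : List (List α)) :
    M.evalFrom q (D.ins m q Ks).flatten = M.evalFrom q Ks.flatten := by
  induction Ks generalizing q with
  | nil =>
    rw [ins, D.evalFrom_replicate' hm]
    rfl
  | cons B Ks ih =>
    rw [ins, List.flatten_append, DFA.evalFrom_of_append, D.evalFrom_replicate' hm,
      List.flatten_cons, DFA.evalFrom_of_append, ih, List.flatten_cons, DFA.evalFrom_of_append]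

omit [DecidableEq σ] in
theorem ins_length_blocks {m : σ → ℕ} (hm : D.Adm m) {q : σ} {Ks : List (List α)}
    (h : ∀ B ∈ Ks, B.length = D.P) : ∀ B ∈ D.ins m q Ks, B.length = D.P := by
  induction Ks generalizing q with
  | nil =>
    intro B hB
    rw [ins, List.mem_replicate] at hB
    rw [hB.2]
    exact (hm q hB.1).2
  | cons K Ks ih =>
    intro B hB
    rw [ins, List.mem_append, List.mem_cons] at hB
    rcases hB with hB | rfl | hB
    · rw [List.mem_replicate] at hB
      rw [hB.2]
      exact (hm q hB.1).2
    · exact h B (by simp)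
    · exact ih (fun X hX => h X (by simp [hX])) B hB

/-- position of a state in the inserted word -/
theorem ins_split {m : σ → ℕ} (hm : D.Adm m) {q j : σ} {Ks : List (List α)} (hK : Rd M q Ks)
    (hj : j ∈ sts M q Ks) :
    ∃ B1 B3, M.evalFrom q B1.flatten = j ∧ ∀ c : ℕ,
      D.ins (m + Pi.single j c) q Ks = B1 ++ List.replicate (m j + c) (D.z j) ++ B3 := by
  induction Ks generalizing q with
  | nil =>
    rw [sts, Finset.mem_singleton] at hj
    subst hj
    refine ⟨[], [], rfl, fun c => ?_⟩
    rw [ins]
    simp
  | cons B Ks ih =>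
    by_cases hjq : j = q
    · subst hjq
      refine ⟨[], B :: D.ins m (M.evalFrom j B) Ks, rfl, fun c => ?_⟩
      rw [ins, List.nil_append, Pi.add_apply, Pi.single_eq_same]
      congr 2
      apply D.ins_congr
      intro r hr
      have : r ≠ j := by
        rintro rfl
        exact hK.1 hr
      rw [Pi.add_apply, Pi.single_eq_of_ne this, add_zero]
    · rw [sts, Finset.mem_insert] at hj
      have hj' := hj.resolve_left hjq
      obtain ⟨B1, B3, h1, h2⟩ := ih hK.2 hj'
      refine ⟨List.replicate (m q) (D.z q) ++ B :: B1, B3, ?_, fun c => ?_⟩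
      · rw [List.flatten_append, DFA.evalFrom_of_append, D.evalFrom_replicate' hm,
          List.flatten_cons, DFA.evalFrom_of_append, h1]
      · rw [ins, h2 c, Pi.add_apply, Pi.single_eq_of_ne (Ne.symm hjq), add_zero]
        simp

end LoopData

end Pool.Agent.Lib.MP_59c382_al
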