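import Pool.Agent.Lib.MP_59c382_al.Alg

/-!
# Case 1: an element acting without roots of unity
-/

set_option autoImplicit false

namespace Pool.Agent.Lib.MP_59c382_al

theorem adjoin_gen_eq_top {k₀ L : Type*} [Field k₀] [Field L] [Algebra k₀ L] (u : L) :
    IntermediateField.adjoin k₀ {IntermediateField.AdjoinSimple.gen k₀ u} = ⊤ := by
  apply IntermediateField.map_injective (IntermediateField.adjoin k₀ {u}).val
  rw [IntermediateField.adjoin_map, ← AlgHom.fieldRange_eq_map, IntermediateField.fieldRange_val,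
    Set.image_singleton]
  rfl

theorem exists_pow_eq_one_of_algebraic {k₀ L : Type*} [Field k₀] [Finite k₀] [Field L]
    [Algebra k₀ L] {u : L} (hu : IsAlgebraic k₀ u) (hu0 : u ≠ 0) : ∃ k : ℕ, 0 < k ∧ u ^ k = 1 := by
  have hfd : FiniteDimensional k₀ (IntermediateField.adjoin k₀ {u}) :=
    IntermediateField.adjoin.finiteDimensional hu.isIntegral
  have hfin : Finite (IntermediateField.adjoin k₀ {u}) :=
    Module.finite_of_finite k₀
  set t := IntermediateField.AdjoinSimple.gen k₀ u with ht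
  have ht0 : t ≠ 0 := by
    intro h
    apply hu0
    have := congrArg (algebraMap (IntermediateField.adjoin k₀ {u}) L) h
    rwa [IntermediateField.AdjoinSimple.algebraMap_gen, map_zero] at this
  have hfo := isOfFinOrder_of_finite (Units.mk0 t ht0)
  obtain ⟨k, hk, hpow⟩ := isOfFinOrder_iff_pow_eq_one.mp hfo
  refine ⟨k, hk, ?_⟩
  have h1 : t ^ k = 1 := by
    have := congrArg Units.val hpow
    simpa using this
  have h2 := congrArg (algebraMap (IntermediateField.adjoin k₀ {u}) L) h1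
  rwa [map_pow, IntermediateField.AdjoinSimple.algebraMap_gen, map_one] at h2

/-- the group theoretic data: a commutative normal subgroup which is a finite module over a
finitely generated commutative ring generated by the conjugations -/
structure ModData (G : Type*) [Group G] (R : Type*) [CommRing R] (M : Type*) [AddCommGroup M]
    [Module R M] where
  /-- the subgroup -/
  A : Subgroup G
  normal : A.Normal
  comm : ∀ a ∈ A, ∀ b ∈ A, a * b = b * a
  quot : ∀ g h : G, g * h * g⁻¹ * h⁻¹ ∈ A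
  /-- identification with the module -/
  μ : A → M
  μ_mul : ∀ a b, μ (a * b) = μ a + μ b
  μ_surj : Function.Surjective μ
  μ_inj : Function.Injective μ
  /-- the action -/
  π : G →* R
  act : ∀ (g : G) (a : A), π g • μ a = μ ⟨g * a * g⁻¹, normal.conj_mem a a.2 g⟩
  gen : Algebra.adjoin ℤ (Set.range π) = ⊤

namespace ModData

variable {G : Type*} [Group G] {R : Type*} [CommRing R] {M : Type*} [AddCommGroup M]
  [Module R M] (Δ : ModData G R M)

theorem μ_one : Δ.μ 1 = 0 := by
  have := Δ.μ_mul 1 1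
  rw [mul_one] at this
  simpa using this

theorem μ_inv (a : Δ.A) : Δ.μ a⁻¹ = - Δ.μ a := by
  have := Δ.μ_mul a⁻¹ a
  rw [inv_mul_cancel, Δ.μ_one] at this
  exact (neg_eq_of_add_eq_zero_left this.symm).symm

/-- a point gives a crossed homomorphism -/
theorem exists_CH [Module.Finite R M] {F : Type*} [Field F] (f : R →+* F)
    (hf : Module.annihilator R M ≤ RingHom.ker f) {q : G} (hq : f (Δ.π q) ≠ 1) :
    ∃ D : CH G F, (∀ g, D.χ g = f (Δ.π g)) ∧ ∃ b ∈ D.A, D.x b ≠ 0 := by
  obtain ⟨φ, hφ, m, hm⟩ := exists_functional (M := M) f hf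
  have hq' : f (Δ.π q) - 1 ≠ 0 := sub_ne_zero.mpr hq
  have hA1 : ∀ a ∈ Δ.A, f (Δ.π a) = 1 := by
    intro a ha
    have h1 : Δ.π a - 1 ∈ Module.annihilator R M := by
      rw [Module.mem_annihilator]
      intro m
      obtain ⟨b, rfl⟩ := Δ.μ_surj m
      rw [sub_smul, one_smul, Δ.act, sub_eq_zero]
      congr 1
      apply Subtype.ext
      show a * b * a⁻¹ = b
      rw [Δ.comm a ha b b.2, mul_inv_cancel_right]
    have h2 := hf h1
    rw [RingHom.mem_ker, map_sub, map_one, sub_eq_zero] at h2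
    exact h2
  set x : G → F := fun g =>
    φ (Δ.μ ⟨q * g * q⁻¹ * g⁻¹, Δ.quot q g⟩) / (f (Δ.π q) - 1) with hx
  have hxA : ∀ a (ha : a ∈ Δ.A), x a = φ (Δ.μ ⟨a, ha⟩) := by
    intro a ha
    have h1 : (⟨q * a * q⁻¹ * a⁻¹, Δ.quot q a⟩ : Δ.A) =
        ⟨q * a * q⁻¹, Δ.normal.conj_mem a ha q⟩ * (⟨a, ha⟩ : Δ.A)⁻¹ := rfl
    simp only [hx]
    rw [h1, Δ.μ_mul, Δ.μ_inv, ← Δ.act q ⟨a, ha⟩, map_add, map_neg, hφ]
    field_simp
    ring
  refine ⟨⟨Δ.A, Δ.normal, Δ.comm, f.toMonoidHom.comp Δ.π, x, ?_, ?_⟩, fun g => rfl, ?_⟩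
  · intro g h
    have h1 : (⟨q * (g * h) * q⁻¹ * (g * h)⁻¹, Δ.quot q (g * h)⟩ : Δ.A) =
        ⟨q * g * q⁻¹ * g⁻¹, Δ.quot q g⟩ *
          ⟨g * (q * h * q⁻¹ * h⁻¹) * g⁻¹, Δ.normal.conj_mem _ (Δ.quot q h) g⟩ := by
      apply Subtype.ext
      show q * (g * h) * q⁻¹ * (g * h)⁻¹ =
        (q * g * q⁻¹ * g⁻¹) * (g * (q * h * q⁻¹ * h⁻¹) * g⁻¹)
      group
    simp only [hx]
    rw [h1, Δ.μ_mul, ← Δ.act g ⟨q * h * q⁻¹ * h⁻¹, Δ.quot q h⟩, map_add, hφ]
    show _ = _ + f (Δ.π g) * _
    ring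
  · intro a ha
    exact hA1 a ha
  · obtain ⟨b, rfl⟩ := Δ.μ_surj m
    refine ⟨b, b.2, ?_⟩
    show x b ≠ 0
    rw [hxA b b.2]
    exact hm

/-- no transcendental element -/
theorem ffpoint [Algebra.FiniteType ℤ R] [Module.Finite R M] (C : Combing G) {S : Set G}
    (hS : S.Finite) (hgen : Subgroup.closure S = ⊤) {k₀ L : Type*} [Field k₀] [Field L]
    [Algebra k₀ L] (g : R →+* L) (hg : Module.annihilator R M ≤ RingHom.ker g) {q : G}
    (hq : Transcendental k₀ (g (Δ.π q))) : False := by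
  set u := g (Δ.π q) with hu
  obtain ⟨F, _, _, _, f, hker, hf1, -, -⟩ :=
    exists_point g (IntermediateField.adjoin k₀ {u})
  set t := IntermediateField.AdjoinSimple.gen k₀ u with ht
  have htu : algebraMap (IntermediateField.adjoin k₀ {u}) L t = u :=
    IntermediateField.AdjoinSimple.algebraMap_gen k₀ u
  have httr : Transcendental k₀ t := by
    have := (transcendental_algebraMap_iff (R := k₀) (a := t)
      (algebraMap (IntermediateField.adjoin k₀ {u}) L).injective).mp
    rw [htu] at this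
    exact this hq
  have hft : f (Δ.π q) = algebraMap (IntermediateField.adjoin k₀ {u}) F t :=
    hf1 t (Δ.π q) htu.symm
  let _ : Algebra k₀ F := ((algebraMap (IntermediateField.adjoin k₀ {u}) F).comp
    (algebraMap k₀ (IntermediateField.adjoin k₀ {u}))).toAlgebra
  have htower : IsScalarTower k₀ (IntermediateField.adjoin k₀ {u}) F :=
    IsScalarTower.of_algebraMap_eq (fun x => rfl)
  have hftr : Transcendental k₀ (f (Δ.π q)) := by
    rw [hft]
    exact (transcendental_algebraMap_iff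
      (algebraMap (IntermediateField.adjoin k₀ {u}) F).injective).mpr httr
  have hne1 : f (Δ.π q) ≠ 1 := by
    intro h
    rw [h] at hftr
    exact hftr isAlgebraic_one
  obtain ⟨D, hD, b, hb, hxb⟩ := Δ.exists_CH f (hg.trans hker) hne1
  exact typeFF' C hS hgen httr (adjoin_gen_eq_top u) D (q := q) (by rw [hD]; exact hftr) hb hxb

/-- no algebraic element of infinite order in characteristic zero -/
theorem nfpoint [Algebra.FiniteType ℤ R] [Module.Finite R M] (C : Combing G) {S : Set G}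
    (hS : S.Finite) (hgen : Subgroup.closure S = ⊤) {L : Type*} [Field L]
    [Algebra ℚ L] (g : R →+* L) (hg : Module.annihilator R M ≤ RingHom.ker g) {q : G}
    (hq : IsAlgebraic ℚ (g (Δ.π q))) (hq' : ∀ k : ℕ, 0 < k → g (Δ.π q) ^ k ≠ 1) : False := by
  obtain ⟨F, _, inst, hfd, f, hker, -, hf2, hf3⟩ := exists_point g ℚ
  have hchar : CharZero F := charZero_of_injective_algebraMap (algebraMap ℚ F).injective
  have hinst : inst = DivisionRing.toRatAlgebra := Subsingleton.elim _ _
  subst hinst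
  have hNF : NumberField F := { to_charZero := hchar, to_finiteDimensional := hfd }
  have hfq : ∀ k : ℕ, 0 < k → f (Δ.π q) ^ k ≠ 1 := by
    intro k hk h
    apply hf2 (Δ.π q ^ k - 1)
    · rw [map_sub, map_pow, map_one]
      exact (hq.pow k).sub isAlgebraic_one
    · rw [map_sub, map_pow, map_one]
      exact sub_ne_zero.mpr (hq' k hk)
    · rw [map_sub, map_pow, map_one, h, sub_self]
  obtain ⟨D, hD, b, hb, hxb⟩ := Δ.exists_CH f (hg.trans hker)
    (by simpa using hfq 1 one_pos)
  refine typeNF C hS hgen D ?_ (q := q) (by rw [hD]; exact hfq) hb hxb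
  rw [eq_top_iff, ← hf3]
  apply Algebra.adjoin_le
  rintro _ ⟨r, rfl⟩
  have hr : r ∈ Algebra.adjoin ℤ (Set.range Δ.π) := by rw [Δ.gen]; trivial
  induction hr using Algebra.adjoin_induction with
  | mem x hx =>
    obtain ⟨g, rfl⟩ := hx
    exact Algebra.subset_adjoin ⟨g, hD g⟩
  | algebraMap n =>
    rw [eq_intCast, map_intCast]
    exact intCast_mem _ n
  | add x y _ _ hx hy => rw [map_add]; exact Subalgebra.add_mem _ hx hy
  | mul x y _ _ hx hy => rw [map_mul]; exact Subalgebra.mul_mem _ hx hy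

/-- **Case 1.** Every element acts with eigenvalues roots of unity. -/
theorem case1 [Algebra.FiniteType ℤ R] [Module.Finite R M] (C : Combing G) {S : Set G}
    (hS : S.Finite) (hgen : Subgroup.closure S = ⊤) (q : G) :
    ∃ k : ℕ, 0 < k ∧ ∃ m : ℕ, ∀ y : M, (Δ.π q ^ k - 1) ^ m • y = 0 := by
  by_contra hcon
  have hnoeth : IsNoetherianRing R := Algebra.FiniteType.isNoetherianRing ℤ R
  have h1 : ∀ k : ℕ, 0 < k → Δ.π q ^ k - 1 ∉ (Module.annihilator R M).radical := by
    rintro k hk ⟨m, hm⟩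
    apply hcon
    refine ⟨k, hk, m, ?_⟩
    rwa [Module.mem_annihilator] at hm
  obtain ⟨P, hP, hIP, hPk⟩ := exists_prime (Module.annihilator R M) (Δ.π q) h1
  let g : R →+* FractionRing (R ⧸ P) := (algebraMap (R ⧸ P) (FractionRing (R ⧸ P))).comp
    (Ideal.Quotient.mk P)
  have hginj : ∀ r, g r = 0 ↔ r ∈ P := by
    intro r
    rw [RingHom.comp_apply, map_eq_zero_iff _ (IsFractionRing.injective (R ⧸ P) _),
      Ideal.Quotient.eq_zero_iff_mem]
  have hg : Module.annihilator R M ≤ RingHom.ker g := by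
    intro r hr
    rw [RingHom.mem_ker, hginj]
    exact hIP hr
  have hpow : ∀ k : ℕ, 0 < k → g (Δ.π q) ^ k ≠ 1 := by
    intro k hk h
    apply hPk k hk
    rw [← hginj, map_sub, map_pow, map_one, h, sub_self]
  have hne0 : g (Δ.π q) ≠ 0 := by
    intro h
    have h2 : g (Δ.π q) * g (Δ.π q⁻¹) = 1 := by
      rw [← map_mul, ← map_mul, mul_inv_cancel, map_one, map_one]
    rw [h, zero_mul] at h2
    exact zero_ne_one h2
  obtain ⟨p, hp⟩ := CharP.exists (FractionRing (R ⧸ P))
  rcases CharP.char_is_prime_or_zero (FractionRing (R ⧸ P)) p with hprime | hzero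
  · have : Fact p.Prime := ⟨hprime⟩
    let _ : Algebra (ZMod p) (FractionRing (R ⧸ P)) := ZMod.algebra _ p
    by_cases halg : IsAlgebraic (ZMod p) (g (Δ.π q))
    · obtain ⟨k, hk, h⟩ := exists_pow_eq_one_of_algebraic halg hne0
      exact hpow k hk h
    · exact Δ.ffpoint C hS hgen (k₀ := ZMod p) g hg (q := q) halg
  · subst hzero
    have : CharZero (FractionRing (R ⧸ P)) := CharP.charP_to_charZero _
    by_cases halg : IsAlgebraic ℚ (g (Δ.π q))
    · exact Δ.nfpoint C hS hgen g hg halg hpow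
    · exact Δ.ffpoint C hS hgen (k₀ := ℚ) g hg (q := q) halg

end ModData

end Pool.Agent.Lib.MP_59c382_al
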