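import Mathlib

/-!
# Chains on lists of group elements: boundary, prisms, cones, Koszul-type sums
-/

set_option autoImplicit false

namespace Pool.Agent.Lib.MP_59c382_al

open Finsupp

variable {G : Type*}

/-- chains: formal integral combinations of lists -/
abbrev Ch (G : Type*) := List G →₀ ℤ

/-- extend a function on simplices linearly -/
noncomputable abbrev ext (φ : List G → Ch G) : Ch G →ₗ[ℤ] Ch G := Finsupp.linearCombination ℤ φ

theorem ext_single (φ : List G → Ch G) (l : List G) : ext φ (single l 1) = φ l := by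
  simp [ext]

/-- push-forward of the vertices -/
noncomputable def vmap (α : G → G) : Ch G →ₗ[ℤ] Ch G := ext (fun l => single (l.map α) 1)

/-- join with a vertex -/
noncomputable def jn (g : G) : Ch G →ₗ[ℤ] Ch G := ext (fun l => single (g :: l) 1)

@[simp] theorem vmap_single (α : G → G) (l : List G) :
    vmap α (single l 1) = single (l.map α) 1 := ext_single _ _

@[simp] theorem jn_single (g : G) (l : List G) : jn g (single l 1) = single (g :: l) 1 :=
  ext_single _ _

/-- boundary of a simplex (augmented) -/
noncomputable def bdB : List G → Ch G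
  | [] => 0
  | g :: l => single l 1 - jn g (bdB l)

/-- boundary -/
noncomputable def bd : Ch G →ₗ[ℤ] Ch G := ext bdB

@[simp] theorem bd_single (l : List G) : bd (single l 1) = bdB l := ext_single _ _

theorem linext {f g : Ch G →ₗ[ℤ] Ch G} (h : ∀ l, f (single l 1) = g (single l 1)) : f = g := by
  apply Finsupp.lhom_ext'
  intro l
  apply LinearMap.ext_ring
  exact h l

theorem bd_jn (g : G) (z : Ch G) : bd (jn g z) = z - jn g (bd z) := by
  have : bd ∘ₗ jn g = LinearMap.id - jn g ∘ₗ bd := by
    apply linext
    intro l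
    simp [bdB]
  exact LinearMap.congr_fun this z

theorem bd_bdB (l : List G) : bd (bdB l) = 0 := by
  induction l with
  | nil => simp [bdB]
  | cons g l ih => rw [bdB, map_sub, bd_single, bd_jn, ih, map_zero]; simp

theorem bd_bd (z : Ch G) : bd (bd z) = 0 := by
  have : bd ∘ₗ bd = (0 : Ch G →ₗ[ℤ] Ch G) := by
    apply linext
    intro l
    simp [bd_bdB]
  exact LinearMap.congr_fun this z

theorem vmap_jn (α : G → G) (g : G) (z : Ch G) : vmap α (jn g z) = jn (α g) (vmap α z) := by
  have : vmap α ∘ₗ jn g = jn (α g) ∘ₗ vmap α := by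
    apply linext
    intro l
    simp
  exact LinearMap.congr_fun this z

theorem bd_vmap (α : G → G) (z : Ch G) : bd (vmap α z) = vmap α (bd z) := by
  have : bd ∘ₗ vmap α = vmap α ∘ₗ bd := by
    apply linext
    intro l
    simp only [LinearMap.comp_apply, vmap_single, bd_single]
    induction l with
    | nil => simp [bdB]
    | cons g l ih => simp [bdB, ih, vmap_jn]
  exact LinearMap.congr_fun this z

/-- prism between two vertex maps -/
noncomputable def prB (α β : G → G) : List G → Ch G
  | [] => 0
  | g :: l => single (α g :: β g :: l.map β) 1 - jn (α g) (prB α β l)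

/-- prism operator -/
noncomputable def pr (α β : G → G) : Ch G →ₗ[ℤ] Ch G := ext (prB α β)

@[simp] theorem pr_single (α β : G → G) (l : List G) : pr α β (single l 1) = prB α β l :=
  ext_single _ _

theorem pr_jn (α β : G → G) (g : G) (z : Ch G) :
    pr α β (jn g z) = jn (α g) (jn (β g) (vmap β z)) - jn (α g) (pr α β z) := by
  have : pr α β ∘ₗ jn g = jn (α g) ∘ₗ jn (β g) ∘ₗ vmap β - jn (α g) ∘ₗ pr α β := by
    apply linext
    intro l
    simp [prB]
  exact LinearMap.congr_fun this z

theorem bd_prB (α β : G → G) (l : List G) :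
    bd (prB α β l) = single (l.map β) 1 - single (l.map α) 1 - pr α β (bdB l) := by
  induction l with
  | nil => simp [prB, bdB]
  | cons g l ih =>
    have h1 : bdB (l.map β) = vmap β (bdB l) := by
      rw [← bd_single, ← vmap_single, bd_vmap, bd_single]
    rw [prB, map_sub, bd_single, bd_jn, ih]
    simp only [bdB, h1, map_sub, jn_single, List.map_cons, pr_single, pr_jn]
    abel

theorem bd_pr (α β : G → G) (z : Ch G) :
    bd (pr α β z) = vmap β z - vmap α z - pr α β (bd z) := by
  have : bd ∘ₗ pr α β = vmap β - vmap α - pr α β ∘ₗ bd := by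
    apply linext
    intro l
    simp [bd_prB]
  exact LinearMap.congr_fun this z

/-- the cone along a family of vertex maps -/
noncomputable def cone (α : ℕ → G → G) (T : ℕ) : Ch G →ₗ[ℤ] Ch G :=
  ∑ t ∈ Finset.range T, pr (α t) (α (t + 1))

theorem bd_cone (α : ℕ → G → G) (T : ℕ) (z : Ch G) :
    bd (cone α T z) = vmap (α T) z - vmap (α 0) z - cone α T (bd z) := by
  unfold cone
  induction T with
  | zero => simp
  | succ T ih =>
    rw [Finset.sum_range_succ, LinearMap.add_apply, map_add, ih, bd_pr, LinearMap.add_apply]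
    abel

/-! ### Koszul-type sums -/

section kos

variable {ι : Type*} {M : Type*} [AddCommGroup M]

/-- `∑ ± u_i (Ψ (L without i))` -/
def kos (u : ι → (M →+ M)) : (List ι → M) → List ι → M
  | _, [] => 0
  | Ψ, i :: L => u i (Ψ L) - kos u (fun L' => Ψ (i :: L')) L

theorem kos_congr (u : ι → (M →+ M)) {Ψ Ψ' : List ι → M} {L : List ι}
    (h : ∀ L', L'.Sublist L → L'.length + 1 = L.length → Ψ L' = Ψ' L') :
    kos u Ψ L = kos u Ψ' L := by
  induction L generalizing Ψ Ψ' with
  | nil => rfl
  | cons i L ih =>
    simp only [kos]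
    rw [h L (List.sublist_cons_self i L) (by simp), ih]
    intro L' hL' hlen
    exact h (i :: L') (hL'.cons_cons i) (by simp [hlen])

theorem kos_comp (u : ι → (M →+ M)) (Φ : M →+ M) (Ψ : List ι → M) (L : List ι)
    (h : ∀ i ∈ L, ∀ m, Φ (u i m) = u i (Φ m)) :
    Φ (kos u Ψ L) = kos u (fun L' => Φ (Ψ L')) L := by
  induction L generalizing Ψ with
  | nil => simp [kos]
  | cons i L ih =>
    simp only [kos]
    rw [map_sub, h i (by simp), ih _ (fun j hj => h j (by simp [hj]))]

theorem kos_sub (u : ι → (M →+ M)) (Ψ Ψ' : List ι → M) (L : List ι) :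
    kos u (fun L' => Ψ L' - Ψ' L') L = kos u Ψ L - kos u Ψ' L := by
  induction L generalizing Ψ Ψ' with
  | nil => simp [kos]
  | cons i L ih =>
    simp only [kos]
    rw [map_sub, ih]
    abel

theorem kos_kos (u : ι → (M →+ M)) (Ψ : List ι → M) (L : List ι)
    (hcomm : ∀ i ∈ L, ∀ j ∈ L, ∀ m, u i (u j m) = u j (u i m)) :
    kos u (kos u Ψ) L = 0 := by
  induction L generalizing Ψ with
  | nil => rfl
  | cons i L ih =>
    simp only [kos]
    rw [kos_sub, ih _ (fun a ha b hb => hcomm a (by simp [ha]) b (by simp [hb])), sub_zero,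
      kos_comp u (u i) Ψ L (fun j hj m => hcomm i (by simp) j (by simp [hj]) m), sub_self]

end kos

end Pool.Agent.Lib.MP_59c382_al
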