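import Mathlib

/-!
# Gordan's alternative for integer valued homomorphisms on a group
-/

set_option autoImplicit false

namespace Pool.Agent.Lib.MP_59c382_al

variable {G : Type*} [Group G] {J : Type*}

/-- additivity of a function on a group -/
def Addi {R : Type*} [Add R] (w : G → R) : Prop := ∀ a b, w (a * b) = w a + w b

theorem Addi.one {R : Type*} [AddGroup R] {w : G → R} (hw : Addi w) : w 1 = 0 := by
  have := hw 1 1
  rw [mul_one] at this
  simpa using this

theorem Addi.inv {R : Type*} [AddGroup R] {w : G → R} (hw : Addi w) (a : G) : w a⁻¹ = - w a := by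
  have := hw a⁻¹ a
  rw [inv_mul_cancel, hw.one] at this
  exact (neg_eq_of_add_eq_zero_left this.symm).symm

theorem Addi.pow {R : Type*} [Ring R] {w : G → R} (hw : Addi w) (a : G) (n : ℕ) :
    w (a ^ n) = n * w a := by
  induction n with
  | zero => simp [hw.one]
  | succ n ih => rw [pow_succ, hw, ih]; push_cast; rw [add_mul, one_mul]

theorem Addi.zpow {R : Type*} [Ring R] {w : G → R} (hw : Addi w) (a : G) (n : ℤ) :
    w (a ^ n) = n * w a := by
  cases n with
  | ofNat n => simp [hw.pow]
  | negSucc n => rw [zpow_negSucc, hw.inv, hw.pow]; push_cast; rw [neg_mul]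

open Classical in
/-- **Gordan's alternative.** -/
theorem gordan (s : Finset J) : ∀ w : J → G → ℤ, (∀ j, Addi (w j)) →
    (∃ γ, ∀ j ∈ s, 0 < w j γ) ∨
    ∃ c : J → ℤ, (∀ j ∈ s, 0 ≤ c j) ∧ (∃ j ∈ s, 0 < c j) ∧ ∀ γ, ∑ j ∈ s, c j * w j γ = 0 := by
  induction s using Finset.induction_on with
  | empty => exact fun w _ => Or.inl ⟨1, by simp⟩
  | insert m s hm ih =>
    intro w hw
    have hne : ∀ j ∈ s, j ≠ m := fun j hj h => hm (h ▸ hj)
    rcases ih w hw with ⟨γ₀, hγ₀⟩ | ⟨c, hc, ⟨j, hj, hcj⟩, hrel⟩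
    swap
    · right
      refine ⟨fun j => if j = m then 0 else c j, ?_, ⟨j, by simp [hj], ?_⟩, ?_⟩
      · intro i hi
        show 0 ≤ if i = m then 0 else c i
        split_ifs with h
        · exact le_rfl
        · exact hc i ((Finset.mem_insert.mp hi).resolve_left h)
      · show 0 < if j = m then 0 else c j
        rw [if_neg (hne j hj)]
        exact hcj
      · intro γ
        beta_reduce
        rw [Finset.sum_insert hm, if_pos rfl, zero_mul, zero_add, ← hrel γ]
        apply Finset.sum_congr rfl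
        intro i hi
        rw [if_neg (hne i hi)]
    rcases lt_trichotomy (w m γ₀) 0 with hneg | hzero | hpos
    · -- combine
      set w' : J → G → ℤ := fun i γ => - w m γ₀ * w i γ + w i γ₀ * w m γ with hw'
      have hw'add : ∀ j, Addi (w' j) := by
        intro j a b
        simp only [hw', hw j a b, hw m a b]
        ring
      rcases ih w' hw'add with ⟨γ, hγ⟩ | ⟨c, hc, ⟨j, hj, hcj⟩, hrel⟩
      · left
        set K : ℤ := 1 + ∑ i ∈ s, w i γ₀ with hK
        have hKi : ∀ i ∈ s, w i γ₀ < K := by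
          intro i hi
          have : w i γ₀ ≤ ∑ i ∈ s, w i γ₀ :=
            Finset.single_le_sum (f := fun i => w i γ₀) (fun j hj => (hγ₀ j hj).le) hi
          omega
        have hKpos : 0 < K := by
          have : 0 ≤ ∑ i ∈ s, w i γ₀ := Finset.sum_nonneg (fun j hj => (hγ₀ j hj).le)
          omega
        refine ⟨γ ^ (K * (- w m γ₀)) * γ₀ ^ (K * w m γ - 1), ?_⟩
        intro i hi
        rcases Finset.mem_insert.mp hi with rfl | hi
        · rw [hw, (hw i).zpow, (hw i).zpow]
          simp only [Int.cast_id]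
          nlinarith
        · rw [hw, (hw i).zpow, (hw i).zpow]
          simp only [Int.cast_id]
          have h1 := hγ i hi
          simp only [hw'] at h1
          have h2 := hKi i hi
          have h3 : K * (-w m γ₀) * w i γ + (K * w m γ - 1) * w i γ₀ =
            K * (-w m γ₀ * w i γ + w i γ₀ * w m γ) - w i γ₀ := by ring
          rw [h3]
          nlinarith
      · right
        refine ⟨fun j => if j = m then ∑ i ∈ s, c i * w i γ₀ else - w m γ₀ * c j, ?_,
          ⟨j, by simp [hj], ?_⟩, ?_⟩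
        · intro i hi
          show 0 ≤ if i = m then ∑ i ∈ s, c i * w i γ₀ else - w m γ₀ * c i
          split_ifs with h
          · exact Finset.sum_nonneg (fun j hj => mul_nonneg (hc j hj) (hγ₀ j hj).le)
          · exact mul_nonneg (by omega) (hc i ((Finset.mem_insert.mp hi).resolve_left h))
        · show 0 < if j = m then ∑ i ∈ s, c i * w i γ₀ else - w m γ₀ * c j
          rw [if_neg (hne j hj)]
          exact mul_pos (by omega) hcj
        · intro γ
          beta_reduce
          rw [Finset.sum_insert hm, if_pos rfl, ← hrel γ, Finset.sum_mul,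
            ← Finset.sum_add_distrib]
          apply Finset.sum_congr rfl
          intro i hi
          rw [if_neg (hne i hi)]
          simp only [hw']
          ring
    · by_cases hall : ∀ γ, w m γ = 0
      · right
        refine ⟨fun j => if j = m then 1 else 0, ?_, ⟨m, by simp, by simp⟩, ?_⟩
        · intro i _
          show 0 ≤ if i = m then (1 : ℤ) else 0
          split_ifs <;> simp
        · intro γ
          beta_reduce
          rw [Finset.sum_insert hm, hall γ, mul_zero, zero_add]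
          apply Finset.sum_eq_zero
          intro i hi
          rw [if_neg (hne i hi), zero_mul]
      · left
        push Not at hall
        obtain ⟨δ, hδ⟩ : ∃ δ, 0 < w m δ := by
          obtain ⟨δ, hδ⟩ := hall
          rcases lt_or_gt_of_ne hδ with h | h
          · exact ⟨δ⁻¹, by rw [(hw m).inv]; omega⟩
          · exact ⟨δ, h⟩
        set N : ℤ := 1 + ∑ i ∈ s, |w i δ| with hN
        refine ⟨γ₀ ^ N * δ, ?_⟩
        intro i hi
        rcases Finset.mem_insert.mp hi with rfl | hi
        · rw [hw, (hw i).zpow, hzero, mul_zero, zero_add]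
          exact hδ
        · rw [hw, (hw i).zpow]
          simp only [Int.cast_id]
          have h1 : |w i δ| ≤ ∑ i ∈ s, |w i δ| :=
            Finset.single_le_sum (f := fun i => |w i δ|) (fun j _ => abs_nonneg _) hi
          have h2 := neg_abs_le (w i δ)
          have h3 := hγ₀ i hi
          have h4 : 0 < N := by
            have := abs_nonneg (w i δ)
            omega
          nlinarith
    · left
      refine ⟨γ₀, ?_⟩
      intro i hi
      rcases Finset.mem_insert.mp hi with rfl | hi
      · exact hpos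
      · exact hγ₀ i hi

open Classical in
/-- minimal positive relation -/
theorem exists_minimal_relation (s₀ : Finset J) (w : J → G → ℤ) (hw : ∀ j, Addi (w j))
    (hne : ∀ j ∈ s₀, ∃ γ, w j γ ≠ 0) (hno : ¬ ∃ γ, ∀ j ∈ s₀, 0 < w j γ) :
    ∃ s ⊆ s₀, s.Nonempty ∧ ∃ c : J → ℤ, (∀ j ∈ s, 0 < c j) ∧ (∀ γ, ∑ j ∈ s, c j * w j γ = 0) ∧
      ∀ i ∈ s, ∃ γ, 0 < w i γ ∧ ∀ j ∈ s, j ≠ i → w j γ ≤ 0 := by
  -- choose a minimal bad subset
  obtain ⟨s, hs, hmin⟩ : ∃ s ⊆ s₀, (¬ ∃ γ, ∀ j ∈ s, 0 < w j γ) ∧
      ∀ i ∈ s, ∃ γ, ∀ j ∈ s.erase i, 0 < w j γ := by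
    have hex : ∃ n, ∃ s ⊆ s₀, (¬ ∃ γ, ∀ j ∈ s, 0 < w j γ) ∧ s.card = n :=
      ⟨s₀.card, s₀, Finset.Subset.refl _, hno, rfl⟩
    obtain ⟨s, hs, hbad, hcard⟩ := Nat.find_spec hex
    refine ⟨s, hs, hbad, ?_⟩
    intro i hi
    by_contra hcon
    have := Nat.find_min' hex ⟨s.erase i, (Finset.erase_subset _ _).trans hs, hcon, rfl⟩
    rw [Finset.card_erase_of_mem hi] at this
    have := Finset.card_pos.mpr ⟨i, hi⟩
    omega
  obtain ⟨hbad, hmin⟩ := hmin
  have hsne : s.Nonempty := by
    rw [Finset.nonempty_iff_ne_empty]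
    rintro rfl
    exact hbad ⟨1, by simp⟩
  obtain ⟨c, hc, ⟨j₀, hj₀, hcj₀⟩, hrel⟩ := (gordan s w hw).resolve_left hbad
  have hcpos : ∀ j ∈ s, 0 < c j := by
    intro i hi
    rcases (hc i hi).lt_or_eq with h | h
    · exact h
    · exfalso
      obtain ⟨γ, hγ⟩ := hmin i hi
      have h1 := hrel γ
      rw [← Finset.add_sum_erase s _ hi, ← h, zero_mul, zero_add] at h1
      have hj₀i : j₀ ≠ i := by
        rintro rfl
        omega
      have h2 : 0 < ∑ j ∈ s.erase i, c j * w j γ := by
        apply Finset.sum_pos'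
        · intro j hj
          exact mul_nonneg (hc j (Finset.mem_of_mem_erase hj)) (hγ j hj).le
        · have : j₀ ∈ s.erase i := Finset.mem_erase.mpr ⟨hj₀i, hj₀⟩
          exact ⟨j₀, this, mul_pos hcj₀ (hγ j₀ this)⟩
      omega
  refine ⟨s, hs, hsne, c, hcpos, hrel, ?_⟩
  intro i hi
  obtain ⟨γ, hγ⟩ := hmin i hi
  refine ⟨γ⁻¹, ?_, ?_⟩
  · rw [(hw i).inv]
    have h1 := hrel γ
    rw [← Finset.add_sum_erase s _ hi] at h1
    rcases (s.erase i).eq_empty_or_nonempty with hemp | hnemp
    · exfalso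
      obtain ⟨δ, hδ⟩ := hne i (hs hi)
      have h2 := hrel δ
      rw [← Finset.add_sum_erase s _ hi, hemp, Finset.sum_empty, add_zero] at h2
      rcases mul_eq_zero.mp h2 with h | h
      · have := hcpos i hi
        omega
      · exact hδ h
    · have h2 : 0 < ∑ j ∈ s.erase i, c j * w j γ :=
        Finset.sum_pos (fun j hj => mul_pos (hcpos j (Finset.mem_of_mem_erase hj)) (hγ j hj)) hnemp
      have h3 := hcpos i hi
      by_contra h4
      rw [not_lt] at h4
      have : 0 ≤ c i * w i γ := mul_nonneg h3.le (by omega)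
      omega
  · intro j hj hji
    rw [(hw j).inv]
    have := hγ j (Finset.mem_erase.mpr ⟨hji, hj⟩)
    omega

open Classical in
/-- minimal representation of a real valued homomorphism -/
theorem exists_minimal_rep (s₀ : Finset J) (w : J → G → ℤ) (hw : ∀ j, Addi (w j)) (w₀ : G → ℝ)
    (lam : J → ℝ) (hlam : ∀ j ∈ s₀, 0 ≤ lam j) (hrel₀ : ∀ γ, w₀ γ + ∑ j ∈ s₀, lam j * w j γ = 0) :
    ∃ s ⊆ s₀, ∃ c : J → ℝ, (∀ j ∈ s, 0 < c j) ∧ (∀ γ, w₀ γ + ∑ j ∈ s, c j * w j γ = 0) ∧
      ∀ i ∈ s, ∃ γ, 0 < w i γ ∧ ∀ j ∈ s, j ≠ i → w j γ ≤ 0 := by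
  obtain ⟨s, hs, c, hc, hrel, hmin⟩ : ∃ s ⊆ s₀, ∃ c : J → ℝ, (∀ j ∈ s, 0 ≤ c j) ∧
      (∀ γ, w₀ γ + ∑ j ∈ s, c j * w j γ = 0) ∧
      ∀ i ∈ s, ∀ c : J → ℝ, (∀ j ∈ s.erase i, 0 ≤ c j) →
        ¬ ∀ γ, w₀ γ + ∑ j ∈ s.erase i, c j * w j γ = 0 := by
    have hex : ∃ n, ∃ s ⊆ s₀, (∃ c : J → ℝ, (∀ j ∈ s, 0 ≤ c j) ∧
      (∀ γ, w₀ γ + ∑ j ∈ s, c j * w j γ = 0)) ∧ s.card = n :=
      ⟨s₀.card, s₀, Finset.Subset.refl _, ⟨lam, hlam, hrel₀⟩, rfl⟩
    obtain ⟨s, hs, ⟨c, hc, hrel⟩, hcard⟩ := Nat.find_spec hex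
    refine ⟨s, hs, c, hc, hrel, ?_⟩
    intro i hi c' hc' hrel'
    have := Nat.find_min' hex ⟨s.erase i, (Finset.erase_subset _ _).trans hs, ⟨c', hc', hrel'⟩, rfl⟩
    rw [Finset.card_erase_of_mem hi] at this
    have := Finset.card_pos.mpr ⟨i, hi⟩
    omega
  have hcpos : ∀ j ∈ s, 0 < c j := by
    intro i hi
    rcases (hc i hi).lt_or_eq with h | h
    · exact h
    · exfalso
      apply hmin i hi c (fun j hj => hc j (Finset.mem_of_mem_erase hj))
      intro γ
      rw [← hrel γ, ← Finset.add_sum_erase s _ hi, ← h, zero_mul, zero_add]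
  refine ⟨s, hs, c, hcpos, hrel, ?_⟩
  intro i hi
  -- apply Gordan to `w i` and the `- w j`
  rcases gordan s (fun j γ => if j = i then w i γ else - w j γ) (by
      intro j a b
      show (if j = i then w i (a * b) else - w j (a * b)) =
        (if j = i then w i a else - w j a) + (if j = i then w i b else - w j b)
      split_ifs
      · exact hw i a b
      · rw [hw j a b]; ring) with ⟨γ, hγ⟩ | ⟨d, hd, ⟨j₀, hj₀, hdj₀⟩, hdrel⟩
  · refine ⟨γ, ?_, ?_⟩
    · have := hγ i hi
      simpa using this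
    · intro j hj hji
      have := hγ j hj
      simp only [if_neg hji] at this
      omega
  · exfalso
    have hdrel' : ∀ γ, (d i : ℝ) * w i γ = ∑ j ∈ s.erase i, (d j : ℝ) * w j γ := by
      intro γ
      have h1 := hdrel γ
      rw [← Finset.add_sum_erase s _ hi] at h1
      simp only [if_true] at h1
      have h2 : ∑ j ∈ s.erase i, d j * (if j = i then w i γ else - w j γ) =
          - ∑ j ∈ s.erase i, d j * w j γ := by
        rw [← Finset.sum_neg_distrib]
        apply Finset.sum_congr rfl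
        intro j hj
        rw [if_neg (Finset.ne_of_mem_erase hj)]
        ring
      rw [h2] at h1
      have h3 : d i * w i γ = ∑ j ∈ s.erase i, d j * w j γ := by omega
      exact_mod_cast h3
    rcases (hd i hi).lt_or_eq with hpos | hzero
    · -- substitute
      apply hmin i hi (fun j => c j + c i * (d j : ℝ) / (d i : ℝ))
      · intro j hj
        have h1 := hc j (Finset.mem_of_mem_erase hj)
        have h2 : (0 : ℝ) ≤ d j := by exact_mod_cast hd j (Finset.mem_of_mem_erase hj)
        have h3 : (0 : ℝ) < d i := by exact_mod_cast hpos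
        have h4 := hc i hi
        positivity
      · intro γ
        have h3 : (d i : ℝ) ≠ 0 := by exact_mod_cast hpos.ne'
        rw [← hrel γ, ← Finset.add_sum_erase s _ hi]
        have h4 : c i * (w i γ : ℝ) = ∑ j ∈ s.erase i, c i * (d j : ℝ) / (d i : ℝ) * w j γ := by
          have h5 : (w i γ : ℝ) = (∑ j ∈ s.erase i, (d j : ℝ) * w j γ) / (d i : ℝ) := by
            rw [← hdrel' γ]
            field_simp
          rw [h5, Finset.sum_div, Finset.mul_sum]
          apply Finset.sum_congr rfl
          intro j _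
          ring
        rw [h4, ← Finset.sum_add_distrib]
        congr 1
        apply Finset.sum_congr rfl
        intro j _
        ring
    · -- a relation without `i`
      have hj₀i : j₀ ≠ i := by
        rintro rfl
        omega
      set P := (s.erase i).filter (fun j => 0 < d j) with hP
      have hPne : P.Nonempty :=
        ⟨j₀, Finset.mem_filter.mpr ⟨Finset.mem_erase.mpr ⟨hj₀i, hj₀⟩, hdj₀⟩⟩
      obtain ⟨j₁, hj₁, hj₁min⟩ := Finset.exists_min_image P (fun j => c j / (d j : ℝ)) hPne
      have hj₁' := Finset.mem_filter.mp hj₁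
      have hj₁s : j₁ ∈ s := Finset.mem_of_mem_erase hj₁'.1
      have hj₁i : j₁ ≠ i := Finset.ne_of_mem_erase hj₁'.1
      set t : ℝ := c j₁ / (d j₁ : ℝ) with ht
      have ht0 : 0 ≤ t := by
        have h1 : (0 : ℝ) < d j₁ := by exact_mod_cast hj₁'.2
        have h2 := hc j₁ hj₁s
        positivity
      apply hmin j₁ hj₁s (fun j => if j = i then c i else c j - t * (d j : ℝ))
      · intro j hj
        show 0 ≤ if j = i then c i else c j - t * (d j : ℝ)
        split_ifs with h
        · exact hc i hi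
        · rcases (hd j (Finset.mem_of_mem_erase hj)).lt_or_eq with hdj | hdj
          · have h1 := hj₁min j (Finset.mem_filter.mpr
              ⟨Finset.mem_erase.mpr ⟨h, Finset.mem_of_mem_erase hj⟩, hdj⟩)
            have h2 : (0 : ℝ) < d j := by exact_mod_cast hdj
            rw [le_div_iff₀ h2] at h1
            linarith
          · rw [← hdj]
            simpa using hc j (Finset.mem_of_mem_erase hj)
      · intro γ
        have hzero' : ∑ j ∈ s.erase i, (d j : ℝ) * w j γ = 0 := by
          rw [← hdrel' γ, ← hzero]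
          simp
        have h1 : ∑ j ∈ s, (if j = i then c i else c j - t * (d j : ℝ)) * (w j γ : ℝ) =
            ∑ j ∈ s, c j * (w j γ : ℝ) := by
          rw [← Finset.add_sum_erase s _ hi, ← Finset.add_sum_erase s _ hi, if_pos rfl]
          congr 1
          have h2 : ∑ j ∈ s.erase i, (if j = i then c i else c j - t * (d j : ℝ)) * (w j γ : ℝ) =
              ∑ j ∈ s.erase i, (c j * (w j γ : ℝ) - t * ((d j : ℝ) * (w j γ : ℝ))) := by
            apply Finset.sum_congr rfl
            intro j hj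
            rw [if_neg (Finset.ne_of_mem_erase hj)]
            ring
          rw [h2, Finset.sum_sub_distrib, ← Finset.mul_sum, hzero', mul_zero, sub_zero]
        rw [← hrel γ, ← h1, ← Finset.add_sum_erase s _ hj₁s, if_neg hj₁i]
        have h3 : c j₁ - t * (d j₁ : ℝ) = 0 := by
          have h4 : (d j₁ : ℝ) ≠ 0 := by exact_mod_cast hj₁'.2.ne'
          rw [ht]
          field_simp
          ring
        rw [h3, zero_mul, zero_add]

end Pool.Agent.Lib.MP_59c382_al
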