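import Pool.Agent.Lib.MP_59c382_al.Growth
import Pool.Agent.Lib.MP_59c382_al.Gordan

/-!
# Contradictions from crossed homomorphisms
-/

set_option autoImplicit false

namespace Pool.Agent.Lib.MP_59c382_al

variable {G : Type*} [Group G] {F : Type*} [Field F]

/-- a crossed homomorphism which is additive on a commutative normal subgroup -/
structure CH (G : Type*) [Group G] (F : Type*) [Field F] where
  /-- a commutative normal subgroup -/
  A : Subgroup G
  normal : A.Normal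
  comm : ∀ a ∈ A, ∀ b ∈ A, a * b = b * a
  /-- the character -/
  χ : G →* F
  /-- the crossed homomorphism -/
  x : G → F
  x_mul : ∀ g h, x (g * h) = x g + χ g * x h
  χ_A : ∀ a ∈ A, χ a = 1

/-- non-archimedean places with integral exponents -/
structure Places (D : CH G F) (J : Type*) where
  /-- absolute values -/
  v : J → AbsoluteValue F ℝ
  ultra : ∀ j a b, v j (a + b) ≤ max (v j a) (v j b)
  /-- bases -/
  θ : J → ℝ
  one_lt : ∀ j, 1 < θ j
  /-- exponents -/
  w : J → G → ℤ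
  v_eq : ∀ j g, v j (D.χ g) = θ j ^ (w j g)

namespace Places

variable {D : CH G F} {J : Type*} (P : Places D J)

theorem addi (j : J) : Addi (P.w j) := by
  intro a b
  have h1 := P.v_eq j (a * b)
  have h0 : P.θ j ≠ 0 := by linarith [P.one_lt j]
  rw [map_mul, (P.v j).map_mul, P.v_eq, P.v_eq, ← zpow_add₀ h0] at h1
  exact ((zpow_right_strictMono₀ (P.one_lt j)).injective h1).symm

theorem one_lt_v {j : J} {g : G} (h : 0 < P.w j g) : 1 < P.v j (D.χ g) := by
  rw [P.v_eq]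
  exact one_lt_zpow₀ (P.one_lt j) h

theorem v_le_one {j : J} {g : G} (h : P.w j g ≤ 0) : P.v j (D.χ g) ≤ 1 := by
  rw [P.v_eq]
  exact zpow_le_one_of_nonpos₀ (P.one_lt j).le h

theorem log_pos (j : J) : 0 < Real.log (P.θ j) := Real.log_pos (P.one_lt j)

theorem v_rpow (j : J) (g : G) (c : ℝ) :
    (P.v j (D.χ g)) ^ (c / Real.log (P.θ j)) = Real.exp (c * P.w j g) := by
  have h0 : 0 < P.θ j := by linarith [P.one_lt j]
  rw [P.v_eq, Real.rpow_def_of_pos (zpow_pos h0 _), Real.log_zpow]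
  congr 1
  have := (P.log_pos j).ne'
  field_simp

/-- the datum attached to a relation -/
noncomputable def datum (s : Finset J) (c : J → ℝ) (hc : ∀ j ∈ s, 0 < c j) {r : ℕ}
    (e : Fin r → F →+* ℂ)
    (hrel : ∀ γ, ∑ k, Real.log ‖e k (D.χ γ)‖ + ∑ j ∈ s, c j * P.w j γ = 0) : Datum G F s r where
  A := D.A
  normal := D.normal
  comm := D.comm
  χ := D.χ
  x := D.x
  x_mul := D.x_mul
  χ_A := D.χ_A
  v := fun j => P.v j
  ultra := fun j => P.ultra j
  e := e
  lam := fun j => c j / Real.log (P.θ j)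
  lam_pos := fun j => div_pos (hc j j.2) (P.log_pos j)
  rel := by
    intro g
    have hχ : D.χ g ≠ 0 := by
      intro h
      have h1 : D.χ g * D.χ g⁻¹ = 1 := by rw [← map_mul, mul_inv_cancel, map_one]
      rw [h, zero_mul] at h1
      exact zero_ne_one h1
    have h1 : ∏ k, ‖e k (D.χ g)‖ = Real.exp (∑ k, Real.log ‖e k (D.χ g)‖) := by
      rw [Real.exp_sum]
      apply Finset.prod_congr rfl
      intro k _
      rw [Real.exp_log]
      exact norm_pos_iff.mpr (fun h => hχ ((map_eq_zero (e k)).mp h))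
    have h2 : ∏ j : s, (P.v j (D.χ g)) ^ (c j / Real.log (P.θ j)) =
        Real.exp (∑ j ∈ s, c j * P.w j g) := by
      rw [Real.exp_sum, ← Finset.prod_coe_sort s (fun j => Real.exp (c j * P.w j g))]
      apply Finset.prod_congr rfl
      intro j _
      exact P.v_rpow j g _
    rw [h1, h2, ← Real.exp_add, hrel, Real.exp_zero]

/-- **Purely non-archimedean contradiction.** -/
theorem typeN (C : Combing G) (s₀ : Finset J) (hne : ∀ j ∈ s₀, ∃ γ, P.w j γ ≠ 0)
    (hno : ¬ ∃ γ, ∀ j ∈ s₀, 0 < P.w j γ) {b : G} (hb : b ∈ D.A) (hxb : D.x b ≠ 0) : False := by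
  classical
  obtain ⟨s, -, hs, c, hc, hrel, hu⟩ := exists_minimal_relation s₀ P.w P.addi hne hno
  choose! u hu1 hu2 using hu
  set E := P.datum s (fun j => c j) (fun j hj => by exact_mod_cast hc j hj)
    (r := 0) Fin.elim0 (by
      intro γ
      simp only [Finset.univ_eq_empty, Finset.sum_empty, zero_add]
      exact_mod_cast hrel γ) with hE
  refine E.growth C (b := b) hb hxb (u := fun i => u i) ?_ ?_ (R := fun _ => 2) (fun _ => one_le_two)
    (a := fun i => P.v i (D.x b) + 1) (fun i => lt_add_one _) (bk := fun _ => Fin.elim0) (c1 := 1)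
    (fun _ _ k => k.elim0) (c := 1) (δ := 1) one_pos ?_ ?_
  · intro i
    exact P.one_lt_v (hu1 i i.2)
  · intro i i' hii'
    exact P.v_le_one (hu2 i i.2 i' i'.2 (fun h => hii' (Subtype.ext h)))
  · apply Filter.Eventually.of_forall
    intro n
    rw [Matrix.det_isEmpty]
    simp
  · rw [one_mul]
    obtain ⟨j₀, hj₀⟩ := hs
    have h1 : ∀ i : s, (1 : ℝ) < 2 ^ (E.lam i) :=
      fun i => Real.one_lt_rpow one_lt_two (E.lam_pos i)
    calc (1 : ℝ) < 2 ^ (E.lam ⟨j₀, hj₀⟩) := h1 _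
      _ ≤ ∏ i, (2 : ℝ) ^ (E.lam i) := by
          rw [← Finset.mul_prod_erase _ _ (Finset.mem_univ (⟨j₀, hj₀⟩ : s))]
          apply le_mul_of_one_le_right (by linarith [h1 ⟨j₀, hj₀⟩])
          calc (1 : ℝ) = ∏ _i ∈ Finset.univ.erase (⟨j₀, hj₀⟩ : s), 1 := by simp
            _ ≤ _ := Finset.prod_le_prod (fun _ _ => zero_le_one) (fun i _ => (h1 i).le)

/-- **Archimedean contradiction.** -/
theorem typeA (C : Combing G) (s₀ : Finset J) {lam : J → ℝ} (hlam : ∀ j ∈ s₀, 0 ≤ lam j) {r : ℕ}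
    (e : Fin r → F →+* ℂ)
    (hrel : ∀ γ, ∑ k, Real.log ‖e k (D.χ γ)‖ + ∑ j ∈ s₀, lam j * P.w j γ = 0)
    {k₀ : Fin r} {γ : G} (hγ : 1 < ‖e k₀ (D.χ γ)‖) {b : G} (hb : b ∈ D.A) (hxb : D.x b ≠ 0)
    {β : Fin r → G} (hβ : ∀ k, β k ∈ D.A)
    (hdet : Matrix.det (Matrix.of fun k k' => e k (D.x (β k'))) ≠ 0) : False := by
  classical
  obtain ⟨s, -, c, hc, hrel', hu⟩ := exists_minimal_rep s₀ P.w P.addi
    (fun γ => ∑ k, Real.log ‖e k (D.χ γ)‖) lam hlam hrel
  choose! u hu1 hu2 using hu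
  set E := P.datum s c hc e hrel' with hE
  have hx1 : ∀ n k, D.x (β k * β k * (γ ^ n * β k * (γ ^ n)⁻¹)) =
      (2 + D.χ γ ^ n) * D.x (β k) := by
    intro n k
    have h1 : D.x (γ ^ n * β k * (γ ^ n)⁻¹) = D.χ (γ ^ n) * D.x (β k) := E.x_conj (hβ k) _
    have h2 : D.x (β k * β k) = D.x (β k) + D.x (β k) := E.x_mul_A (hβ k) _
    have h3 : D.x (β k * β k * (γ ^ n * β k * (γ ^ n)⁻¹)) =
      D.x (β k * β k) + D.x (γ ^ n * β k * (γ ^ n)⁻¹) := E.x_mul_A (D.A.mul_mem (hβ k) (hβ k)) _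
    rw [h3, h2, h1, map_pow]
    ring
  set M : ℕ := ∑ k, (3 * C.len (β k)) + 2 * C.len γ with hM
  have hv2 : ∀ i, P.v i 2 ≤ 1 := by
    intro i
    have h1 := P.ultra i 1 1
    rw [one_add_one_eq_two, map_one, max_self] at h1
    exact h1
  refine E.growth C (b := b) hb hxb (u := fun i => u i) ?_ ?_
    (R := fun i => max 1 (P.v i (D.χ γ))) (fun i => le_max_left _ _)
    (a := fun i => 1 + P.v i (D.x b) + ∑ k, P.v i (D.x (β k))) ?_
    (bk := fun n k => β k * β k * (γ ^ n * β k * (γ ^ n)⁻¹)) (c1 := M) ?_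
    (c := (1 / 2) ^ r * ‖Matrix.det (Matrix.of fun k k' => e k (D.x (β k')))‖)
    (δ := ∏ k, max 1 ‖e k (D.χ γ)‖) ?_ ?_ ?_
  · intro i
    exact P.one_lt_v (hu1 i i.2)
  · intro i i' hii'
    exact P.v_le_one (hu2 i i.2 i' i'.2 (fun h => hii' (Subtype.ext h)))
  · intro i
    have : 0 ≤ ∑ k, P.v i (D.x (β k)) := Finset.sum_nonneg (fun k _ => (P.v i).nonneg _)
    show P.v i (D.x b) < _
    linarith
  · intro n hn k
    refine ⟨D.A.mul_mem (D.A.mul_mem (hβ k) (hβ k)) (D.normal.conj_mem _ (hβ k) _), ?_, ?_⟩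
    · have h1 := C.len_mul (β k * β k) (γ ^ n * β k * (γ ^ n)⁻¹)
      have h2 := C.len_mul (β k) (β k)
      have h3 := C.len_conj (γ ^ n) (β k)
      have h4 := C.len_pow γ n
      have h5 : 3 * C.len (β k) ≤ ∑ k, (3 * C.len (β k)) :=
        Finset.single_le_sum (f := fun k => 3 * C.len (β k)) (fun _ _ => Nat.zero_le _)
          (Finset.mem_univ k)
      have h6 : 3 * C.len (β k) + 2 * (n * C.len γ) ≤ M * n := by
        calc 3 * C.len (β k) + 2 * (n * C.len γ) ≤ (∑ k, (3 * C.len (β k))) * n +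
              2 * C.len γ * n := by nlinarith
          _ = M * n := by rw [hM]; ring
      omega
    · intro i
      show P.v i (D.x (β k * β k * (γ ^ n * β k * (γ ^ n)⁻¹))) < _
      rw [hx1, (P.v i).map_mul]
      have h1 : P.v i (2 + D.χ γ ^ n) ≤ max 1 (P.v i (D.χ γ)) ^ n := by
        refine (P.ultra i _ _).trans (max_le ?_ ?_)
        · exact (hv2 i).trans (one_le_pow₀ (le_max_left _ _))
        · rw [map_pow]
          exact pow_le_pow_left₀ ((P.v i).nonneg _) (le_max_right _ _) n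
      have h2 : P.v i (D.x (β k)) < 1 + P.v i (D.x b) + ∑ k, P.v i (D.x (β k)) := by
        have h3 : P.v i (D.x (β k)) ≤ ∑ k, P.v i (D.x (β k)) :=
          Finset.single_le_sum (f := fun k => P.v i (D.x (β k))) (fun _ _ => (P.v i).nonneg _)
            (Finset.mem_univ k)
        have h4 := (P.v i).nonneg (D.x b)
        linarith
      have h5 : 0 < max 1 (P.v i (D.χ γ)) ^ n :=
        pow_pos (lt_of_lt_of_le one_pos (le_max_left _ _)) n
      calc P.v i (2 + D.χ γ ^ n) * P.v i (D.x (β k))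
          ≤ max 1 (P.v i (D.χ γ)) ^ n * P.v i (D.x (β k)) :=
            mul_le_mul_of_nonneg_right h1 ((P.v i).nonneg _)
        _ < max 1 (P.v i (D.χ γ)) ^ n * (1 + P.v i (D.x b) + ∑ k, P.v i (D.x (β k))) :=
            mul_lt_mul_of_pos_left h2 h5
        _ = _ := mul_comm _ _
  · exact mul_pos (by positivity) (norm_pos_iff.mpr hdet)
  · -- the determinant
    have hev : ∀ k, ∀ᶠ n : ℕ in Filter.atTop,
        max 1 ‖e k (D.χ γ)‖ ^ n / 2 ≤ ‖e k (2 + D.χ γ ^ n)‖ := by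
      intro k
      rw [show (fun n : ℕ => max 1 ‖e k (D.χ γ)‖ ^ n / 2 ≤ ‖e k (2 + D.χ γ ^ n)‖) =
        fun n : ℕ => max 1 ‖e k (D.χ γ)‖ ^ n / 2 ≤ ‖(2 : ℂ) + (e k (D.χ γ)) ^ n‖ by
          funext n; rw [map_add, map_pow, map_ofNat]]
      rcases le_or_gt ‖e k (D.χ γ)‖ 1 with h | h
      · apply Filter.Eventually.of_forall
        intro n
        rw [max_eq_left h, one_pow]
        have h1 : ‖(e k (D.χ γ)) ^ n‖ ≤ 1 := by
          rw [norm_pow]
          exact pow_le_one₀ (norm_nonneg _) h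
        have h2 : ‖(2 : ℂ)‖ - ‖-(e k (D.χ γ)) ^ n‖ ≤ ‖(2 : ℂ) - -(e k (D.χ γ)) ^ n‖ :=
          norm_sub_norm_le _ _
        rw [norm_neg, sub_neg_eq_add] at h2
        have h3 : ‖(2 : ℂ)‖ = 2 := by simp
        rw [h3] at h2
        linarith
      · have h1 : ∀ᶠ n : ℕ in Filter.atTop, 4 ≤ ‖e k (D.χ γ)‖ ^ n :=
          (tendsto_pow_atTop_atTop_of_one_lt h).eventually_ge_atTop 4
        filter_upwards [h1] with n hn
        rw [max_eq_right h.le]
        have h2 : ‖(e k (D.χ γ)) ^ n‖ - ‖-(2 : ℂ)‖ ≤ ‖(e k (D.χ γ)) ^ n - -(2 : ℂ)‖ :=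
          norm_sub_norm_le _ _
        rw [norm_neg, sub_neg_eq_add, norm_pow, add_comm] at h2
        have h3 : ‖(2 : ℂ)‖ = 2 := by simp
        rw [h3] at h2
        linarith
    have hev' : ∀ᶠ n : ℕ in Filter.atTop, ∀ k,
        max 1 ‖e k (D.χ γ)‖ ^ n / 2 ≤ ‖e k (2 + D.χ γ ^ n)‖ := Filter.eventually_all.mpr hev
    filter_upwards [hev'] with n hn
    have h1 : (Matrix.of fun k k' => E.e k (E.x (β k' * β k' * (γ ^ n * β k' * (γ ^ n)⁻¹)))) =
        Matrix.of fun k k' => e k (2 + D.χ γ ^ n) *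
          (Matrix.of fun k k' => e k (D.x (β k'))) k k' := by
      ext k k'
      simp only [Matrix.of_apply]
      rw [← map_mul, ← hx1]
      rfl
    rw [h1, Matrix.det_mul_column, norm_mul, norm_prod]
    have h2 : (1 / 2 : ℝ) ^ r * (∏ k, max 1 ‖e k (D.χ γ)‖) ^ n =
        ∏ k, (max 1 ‖e k (D.χ γ)‖ ^ n / 2) := by
      rw [Finset.prod_div_distrib, Finset.prod_pow, Finset.prod_const, Finset.card_univ,
        Fintype.card_fin, one_div, inv_pow]
      ring
    calc (1 / 2 : ℝ) ^ r * ‖Matrix.det (Matrix.of fun k k' => e k (D.x (β k')))‖ *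
          (∏ k, max 1 ‖e k (D.χ γ)‖) ^ n
        = ((1 / 2 : ℝ) ^ r * (∏ k, max 1 ‖e k (D.χ γ)‖) ^ n) *
          ‖Matrix.det (Matrix.of fun k k' => e k (D.x (β k')))‖ := by ring
      _ = (∏ k, (max 1 ‖e k (D.χ γ)‖ ^ n / 2)) *
          ‖Matrix.det (Matrix.of fun k k' => e k (D.x (β k')))‖ := by rw [h2]
      _ ≤ _ := by
          apply mul_le_mul_of_nonneg_right _ (norm_nonneg _)
          apply Finset.prod_le_prod
          · intro k _
            have : 0 < max 1 ‖e k (D.χ γ)‖ := lt_of_lt_of_le one_pos (le_max_left _ _)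
            positivity
          · intro k _
            exact hn k
  · have h1 : 1 ≤ ∏ i : s, (max 1 (P.v i (D.χ γ))) ^ (E.lam i) := by
      calc (1 : ℝ) = ∏ _i : s, 1 := by simp
        _ ≤ _ := by
          apply Finset.prod_le_prod (fun _ _ => zero_le_one)
          intro i _
          exact Real.one_le_rpow (le_max_left _ _) (E.lam_pos i).le
    have h2 : 1 < ∏ k, max 1 ‖e k (D.χ γ)‖ := by
      calc (1 : ℝ) < max 1 ‖e k₀ (D.χ γ)‖ := lt_of_lt_of_le hγ (le_max_right _ _)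
        _ ≤ ∏ k, max 1 ‖e k (D.χ γ)‖ := by
          rw [← Finset.mul_prod_erase _ _ (Finset.mem_univ k₀)]
          apply le_mul_of_one_le_right (le_trans zero_le_one (le_max_left _ _))
          calc (1 : ℝ) = ∏ _i ∈ Finset.univ.erase k₀, 1 := by simp
            _ ≤ _ := Finset.prod_le_prod (fun _ _ => zero_le_one) (fun i _ => le_max_left _ _)
    calc (1 : ℝ) < ∏ k, max 1 ‖e k (D.χ γ)‖ := h2
      _ ≤ _ := le_mul_of_one_le_right (by linarith) h1

end Places

end Pool.Agent.Lib.MP_59c382_al
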