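import Pool.Agent.Lib.MP_59c382_al.Det

/-!
# Polynomial bounds and the simultaneous choice
-/

set_option autoImplicit false

namespace Pool.Agent.Lib.MP_59c382_al

open Finsupp

variable {G : Type*} [Group G] {ι : Type*}

theorem th_congr (α : ℕ → G → G) (T : ℕ) {a a' : ι → G} (n : ℕ) (L : List ι)
    (h : ∀ i ∈ L, a i = a' i) : th α T a n L = th α T a' n L := by
  induction n generalizing L with
  | zero => rfl
  | succ n ih =>
    rw [th, th]
    congr 1
    have := kos_hom (fun i => trm (a i)) (fun i => trm (a' i)) (AddMonoidHom.id (Ch G))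
      (th α T a n) (th α T a' n) L ?_
    · exact this
    · intro pre i post hL
      have hi : a i = a' i := h i (by rw [hL]; simp)
      have h2 : th α T a n (pre ++ post) = th α T a' n (pre ++ post) := by
        apply ih
        intro j hj
        apply h j
        rw [hL]
        rcases List.mem_append.mp hj with hj | hj
        · exact List.mem_append.mpr (Or.inl hj)
        · exact List.mem_append.mpr (Or.inr (List.mem_cons_of_mem _ hj))
      simp only [AddMonoidHom.id_apply]
      rw [hi, h2]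

namespace Combing

variable (C : Combing G)

/-- the number of steps used in the fillings -/
def TT (m ℓ : ℕ) : ℕ := ∑ k ∈ Finset.range (m + 1), C.c * (C.rr ℓ k + ℓ + 1)

theorem le_TT (m ℓ : ℕ) : ∀ k ≤ m, C.c * (C.rr ℓ k + ℓ + 1) ≤ C.TT m ℓ := by
  intro k hk
  rw [TT]
  exact Finset.single_le_sum (f := fun k => C.c * (C.rr ℓ k + ℓ + 1)) (fun _ _ => Nat.zero_le _)
    (Finset.mem_range.mpr (Nat.lt_succ_of_le hk))

theorem rr_le (n : ℕ) : ∃ E : ℕ, ∀ ℓ : ℕ, 1 ≤ ℓ → C.rr ℓ n ≤ E * ℓ := by
  induction n with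
  | zero => exact ⟨0, fun ℓ _ => by simp [rr]⟩
  | succ n ih =>
    obtain ⟨E, hE⟩ := ih
    refine ⟨C.c * (E + 2), fun ℓ hℓ => ?_⟩
    rw [rr, mul_assoc]
    apply Nat.mul_le_mul_left
    have := hE ℓ hℓ
    nlinarith

theorem TT_le (m : ℕ) : ∃ E : ℕ, ∀ ℓ : ℕ, 1 ≤ ℓ → C.TT m ℓ ≤ E * ℓ := by
  choose E hE using C.rr_le
  refine ⟨∑ k ∈ Finset.range (m + 1), C.c * (E k + 2), fun ℓ hℓ => ?_⟩
  rw [TT, Finset.sum_mul]
  apply Finset.sum_le_sum
  intro k _
  rw [mul_assoc]
  apply Nat.mul_le_mul_left
  have := hE k ℓ hℓ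
  nlinarith

theorem mm_le (m : ℕ) :
    ∃ B : ℕ, 1 ≤ B ∧ ∀ ℓ : ℕ, 1 ≤ ℓ → ∀ n ≤ m, mm (C.TT m ℓ) n ≤ B * ℓ ^ m := by
  obtain ⟨E, hE⟩ := C.TT_le m
  have key : ∀ n, ∃ B : ℕ, ∀ ℓ : ℕ, 1 ≤ ℓ → mm (C.TT m ℓ) n ≤ B * ℓ ^ n := by
    intro n
    induction n with
    | zero => exact ⟨1, fun ℓ _ => by simp [mm]⟩
    | succ n ih =>
      obtain ⟨B, hB⟩ := ih
      refine ⟨E * ((n + 1) * ((n + 1) * (2 * B))), fun ℓ hℓ => ?_⟩
      rw [mm]
      calc C.TT m ℓ * ((n + 1) * ((n + 1) * (2 * mm (C.TT m ℓ) n)))
          ≤ (E * ℓ) * ((n + 1) * ((n + 1) * (2 * (B * ℓ ^ n)))) := by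
            apply Nat.mul_le_mul (hE ℓ hℓ)
            apply Nat.mul_le_mul_left
            apply Nat.mul_le_mul_left
            apply Nat.mul_le_mul_left
            exact hB ℓ hℓ
        _ = E * ((n + 1) * ((n + 1) * (2 * B))) * ℓ ^ (n + 1) := by ring
  choose B hB using key
  refine ⟨∑ n ∈ Finset.range (m + 1), B n + 1, by omega, fun ℓ hℓ n hn => ?_⟩
  refine (hB n ℓ hℓ).trans (Nat.mul_le_mul ?_ (Nat.pow_le_pow_right hℓ hn))
  refine le_trans ?_ (Nat.le_succ _)
  exact Finset.single_le_sum (f := B) (fun _ _ => Nat.zero_le _)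
    (Finset.mem_range.mpr (Nat.lt_succ_of_le hn))

end Combing

omit [Group G] in
/-- number of vertices of a chain -/
theorem card_vertices_le [DecidableEq G] {z : Ch G} {k : ℕ}
    (hz : z ∈ On (fun l => l.length = k)) :
    (z.support.biUnion (fun l => l.toFinset)).card ≤ k * mass z := by
  refine Finset.card_biUnion_le.trans ?_
  rw [mass, Finsupp.sum, Finset.mul_sum]
  apply Finset.sum_le_sum
  intro l hl
  have h1 : l.toFinset.card ≤ k := by
    rw [← mem_On.mp hz l hl]
    exact List.toFinset_card_le l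
  have h2 : 1 ≤ (z l).natAbs := by
    have : z l ≠ 0 := Finsupp.mem_support_iff.mp hl
    exact Nat.one_le_iff_ne_zero.mpr (Int.natAbs_ne_zero.mpr this)
  calc l.toFinset.card ≤ k * 1 := by omega
    _ ≤ k * (z l).natAbs := Nat.mul_le_mul_left _ h2

/-- simultaneous choice by counting -/
theorem exists_choice {I : Type*} [Fintype I] [DecidableEq I] {X : Type*} [DecidableEq X]
    (S : I → Finset X) (P : I → (I → X) → Prop) (β : ℕ)
    (hP : ∀ i, ∀ a : I → X, (∀ j, a j ∈ S j) →
      Set.ncard {s | s ∈ S i ∧ P i (Function.update a i s)} ≤ β)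
    (hβ : ∀ i, Fintype.card I * β < (S i).card) :
    ∃ a : I → X, (∀ i, a i ∈ S i) ∧ ∀ i, ¬ P i a := by
  classical
  by_contra hcon
  push Not at hcon
  set Ω := Fintype.piFinset S with hΩ
  have hΩne : Ω.Nonempty := by
    rw [hΩ, Fintype.piFinset_nonempty]
    intro i
    rw [← Finset.card_pos]
    exact lt_of_le_of_lt (Nat.zero_le _) (hβ i)
  have hcov : Ω ⊆ Finset.univ.biUnion (fun i => Ω.filter (P i)) := by
    intro a ha
    obtain ⟨i, hi⟩ := hcon a (Fintype.mem_piFinset.mp ha)
    exact Finset.mem_biUnion.mpr ⟨i, Finset.mem_univ i, Finset.mem_filter.mpr ⟨ha, hi⟩⟩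
  have hcard : Ω.card ≤ ∑ i, (Ω.filter (P i)).card :=
    (Finset.card_le_card hcov).trans Finset.card_biUnion_le
  -- each bad set is small
  have hbad : ∀ i, (Ω.filter (P i)).card * (S i).card ≤ Ω.card * β := by
    intro i
    have h1 : (Ω.filter (P i)).card * (S i).card = ((Ω.filter (P i)) ×ˢ (S i)).card := by
      rw [Finset.card_product]
    have h2 : ((Ω.filter (P i)) ×ˢ (S i)).card ≤
        (Ω.sigma (fun a => (S i).filter (fun s => P i (Function.update a i s)))).card := by
      apply Finset.card_le_card_of_injOn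
        (fun p => (⟨Function.update p.1 i p.2, p.1 i⟩ : Σ _ : (I → X), X))
      · rintro ⟨a, s⟩ hp
        rw [Finset.mem_coe, Finset.mem_product, Finset.mem_filter] at hp
        obtain ⟨⟨ha, hPa⟩, hs⟩ := hp
        rw [Finset.mem_coe, Finset.mem_sigma]
        refine ⟨?_, ?_⟩
        · rw [hΩ, Fintype.mem_piFinset] at ha ⊢
          intro j
          show Function.update a i s j ∈ S j
          by_cases hj : j = i
          · subst hj
            simpa using hs
          · rw [Function.update_of_ne hj]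
            exact ha j
        · rw [Finset.mem_filter]
          refine ⟨Fintype.mem_piFinset.mp ha i, ?_⟩
          simpa using hPa
      · rintro ⟨a, s⟩ _ ⟨a', s'⟩ _ h
        simp only [Sigma.mk.injEq, heq_eq_eq] at h
        obtain ⟨h1, h2⟩ := h
        have h3 : a = a' := by
          have h4 := congrArg (fun f => Function.update f i (a i)) h1
          simp only [Function.update_idem, Function.update_eq_self] at h4
          rw [h2, Function.update_eq_self] at h4
          exact h4
        have h5 : s = s' := by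
          have := congrFun h1 i
          simpa using this
        rw [h3, h5]
    rw [h1]
    refine h2.trans ?_
    rw [Finset.card_sigma]
    calc ∑ a ∈ Ω, ((S i).filter (fun s => P i (Function.update a i s))).card
        ≤ ∑ _a ∈ Ω, β := by
          apply Finset.sum_le_sum
          intro a ha
          have := hP i a (Fintype.mem_piFinset.mp ha)
          rw [← Set.ncard_coe_finset, Finset.coe_filter]
          exact this
      _ = Ω.card * β := by rw [Finset.sum_const, smul_eq_mul]
  have hΩpos : 0 < Ω.card := Finset.card_pos.mpr hΩne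
  have hlt : ∀ i, Fintype.card I * (Ω.filter (P i)).card < Ω.card := by
    intro i
    have hSpos : 0 < (S i).card := lt_of_le_of_lt (Nat.zero_le _) (hβ i)
    have h1 : Fintype.card I * (Ω.filter (P i)).card * (S i).card < Ω.card * (S i).card := by
      calc Fintype.card I * (Ω.filter (P i)).card * (S i).card
          = Fintype.card I * ((Ω.filter (P i)).card * (S i).card) := by ring
        _ ≤ Fintype.card I * (Ω.card * β) := Nat.mul_le_mul_left _ (hbad i)
        _ = Ω.card * (Fintype.card I * β) := by ring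
        _ < Ω.card * (S i).card := Nat.mul_lt_mul_of_pos_left (hβ i) hΩpos
    exact Nat.lt_of_mul_lt_mul_right h1
  rcases isEmpty_or_nonempty I with hI | hI
  · rw [Finset.univ_eq_empty, Finset.sum_empty] at hcard
    omega
  · have h1 : Fintype.card I * Ω.card ≤ ∑ i, Fintype.card I * (Ω.filter (P i)).card := by
      rw [← Finset.mul_sum]
      exact Nat.mul_le_mul_left _ hcard
    have h2 : ∑ i : I, Fintype.card I * (Ω.filter (P i)).card < ∑ _i : I, Ω.card :=
      Finset.sum_lt_sum_of_nonempty Finset.univ_nonempty (fun i _ => hlt i)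
    rw [Finset.sum_const, Finset.card_univ, smul_eq_mul] at h2
    omega

end Pool.Agent.Lib.MP_59c382_al
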