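import Pool.Agent.Lib.MP_59c382_al.Mass

/-!
# Cup products of coboundaries of functions, evaluated on chains
-/

set_option autoImplicit false

namespace Pool.Agent.Lib.MP_59c382_al

open Finsupp

variable {G : Type*}

/-- evaluation of a cochain -/
noncomputable def pair (φ : List G → ℂ) : Ch G →ₗ[ℤ] ℂ := Finsupp.linearCombination ℤ φ

@[simp] theorem pair_single (φ : List G → ℂ) (l : List G) : pair φ (single l 1) = φ l := by
  simp [pair]

theorem pair_apply (φ : List G → ℂ) (z : Ch G) : pair φ z = ∑ l ∈ z.support, z l • φ l := by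
  rw [pair, Finsupp.linearCombination_apply, Finsupp.sum]

theorem pair_ext (φ : List G → ℂ) (ψ : List G → Ch G) (z : Ch G) :
    pair φ (ext ψ z) = pair (fun l => pair φ (ψ l)) z := by
  rw [ext_apply, map_sum, pair_apply]
  apply Finset.sum_congr rfl
  intro l _
  rw [map_smul]

theorem pair_congr {φ ψ : List G → ℂ} {z : Ch G} (h : ∀ l ∈ z.support, φ l = ψ l) :
    pair φ z = pair ψ z := by
  rw [pair_apply, pair_apply]
  exact Finset.sum_congr rfl (fun l hl => by rw [h l hl])

theorem pair_mul (c : ℂ) (φ : List G → ℂ) (z : Ch G) :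
    pair (fun l => c * φ l) z = c * pair φ z := by
  rw [pair_apply, pair_apply, Finset.mul_sum]
  apply Finset.sum_congr rfl
  intro l _
  rw [mul_smul_comm]

theorem norm_pair_le {φ : List G → ℂ} {z : Ch G} {B : ℝ} (h : ∀ l ∈ z.support, ‖φ l‖ ≤ B) :
    ‖pair φ z‖ ≤ mass z * B := by
  rw [pair_apply]
  refine (norm_sum_le _ _).trans ?_
  rw [mass, Finsupp.sum, Nat.cast_sum, Finset.sum_mul]
  apply Finset.sum_le_sum
  intro l hl
  rw [zsmul_eq_mul, norm_mul]
  have h1 : ‖((z l : ℤ) : ℂ)‖ = ((z l).natAbs : ℝ) := by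
    rw [Complex.norm_intCast, Nat.cast_natAbs, Int.cast_abs]
  rw [h1]
  exact mul_le_mul_of_nonneg_left (h l hl) (Nat.cast_nonneg _)

/-- `df_1 ∪ ⋯ ∪ df_k` -/
noncomputable def cup : List (G → ℂ) → List G → ℂ
  | [], [_] => 1
  | f :: fs, g₀ :: g₁ :: l => (f g₁ - f g₀) * cup fs (g₁ :: l)
  | _, _ => 0

/-- `f ∪ df_1 ∪ ⋯ ∪ df_k` -/
noncomputable def cup0 (f : G → ℂ) (fs : List (G → ℂ)) : List G → ℂ
  | [] => 0
  | g :: l => f g * cup fs (g :: l)

theorem bdB_mem_On (l : List G) : bdB l ∈ On (fun l' => l'.length + 1 = l.length) := by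
  induction l with
  | nil => exact Submodule.zero_mem _
  | cons g l ih =>
    rw [bdB]
    apply Submodule.sub_mem
    · exact single_mem_On (by simp) 1
    · exact jn_mem_On (fun l' hl' => by simp [← hl']) ih

theorem bd_mem_On {k : ℕ} {z : Ch G} (hz : z ∈ On (fun l => l.length = k + 1)) :
    bd z ∈ On (fun l => l.length = k) := by
  apply ext_mem_On _ hz
  intro l hl
  apply On_mono _ (bdB_mem_On l)
  intro l' hl'
  omega

theorem pair_cup0_jn (f : G → ℂ) (fs : List (G → ℂ)) (g : G) (z : Ch G) :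
    pair (cup0 f fs) (jn g z) = f g * pair (cup fs) (jn g z) := by
  rw [jn, pair_ext, pair_ext, ← pair_mul]
  apply pair_congr
  intro l _
  rw [pair_single, pair_single, cup0]

theorem stokes_of_closed {fs : List (G → ℂ)}
    (hcl : ∀ l : List G, l.length = fs.length + 2 → pair (cup fs) (bdB l) = 0) (f : G → ℂ)
    {z : Ch G} (hz : z ∈ On (fun l => l.length = fs.length + 2)) :
    pair (cup (f :: fs)) z = pair (cup0 f fs) (bd z) := by
  rw [bd, pair_ext]
  apply pair_congr
  intro l hl
  have hlen := mem_On.mp hz l hl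
  match l, hlen with
  | g₀ :: g₁ :: l, hlen =>
    have h1 := hcl (g₀ :: g₁ :: l) hlen
    rw [bdB, map_sub, pair_single, sub_eq_zero] at h1
    rw [bdB, map_sub, pair_single, pair_cup0_jn, ← h1, cup0, cup]
    ring

theorem cup_closed (fs : List (G → ℂ)) :
    ∀ l : List G, l.length = fs.length + 2 → pair (cup fs) (bdB l) = 0 := by
  induction fs with
  | nil =>
    intro l hl
    match l, hl with
    | [g₀, g₁], _ => simp [bdB, cup]
  | cons f fs ih =>
    intro l hl
    have h1 : (bdB l) ∈ On (fun l' => l'.length = fs.length + 2) := by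
      apply On_mono _ (bdB_mem_On l)
      intro l' hl'
      simp only [List.length_cons] at hl
      omega
    rw [stokes_of_closed ih f h1, bd_bdB, map_zero]

/-- **Stokes formula.** -/
theorem stokes (f : G → ℂ) (fs : List (G → ℂ)) {z : Ch G}
    (hz : z ∈ On (fun l => l.length = fs.length + 2)) :
    pair (cup (f :: fs)) z = pair (cup0 f fs) (bd z) :=
  stokes_of_closed (cup_closed fs) f hz

variable [Group G]

theorem cup_translate {V : Set G} {a : G} (fs : List (G → ℂ))
    (hfs : ∀ f ∈ fs, ∃ c : ℂ, ∀ g ∈ V, f (a * g) = f g + c) (l : List G) (hl : ∀ x ∈ l, x ∈ V) :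
    cup fs (l.map (fun g => a * g)) = cup fs l := by
  induction fs generalizing l with
  | nil =>
    match l with
    | [] => rfl
    | [_] => rfl
    | _ :: _ :: _ => rfl
  | cons f fs ih =>
    match l with
    | [] => rfl
    | [_] => rfl
    | g₀ :: g₁ :: l =>
      obtain ⟨c, hc⟩ := hfs f (by simp)
      have h1 := ih (fun f' hf' => hfs f' (by simp [hf'])) (g₁ :: l)
        (fun x hx => hl x (by simp only [List.mem_cons] at hx ⊢; tauto))
      rw [List.map_cons] at h1
      rw [List.map_cons, List.map_cons, cup, cup, h1, hc g₀ (hl g₀ (by simp)),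
        hc g₁ (hl g₁ (by simp))]
      ring

/-- Effect of a translation on the pairing with `f ∪ df_1 ∪ ⋯`. -/
theorem pair_translate {V : Set G} {a : G} {f : G → ℂ} {c₀ : ℂ} (fs : List (G → ℂ))
    (hf : ∀ g ∈ V, f (a * g) = f g + c₀)
    (hfs : ∀ f ∈ fs, ∃ c : ℂ, ∀ g ∈ V, f (a * g) = f g + c) {z : Ch G}
    (hz : z ∈ On (fun l => l.length = fs.length + 1 ∧ ∀ x ∈ l, x ∈ V)) :
    pair (cup0 f fs) (vmap (fun g => a * g) z - z) = c₀ * pair (cup fs) z := by
  rw [map_sub, vmap, pair_ext, ← pair_mul]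
  rw [pair_apply, pair_apply, pair_apply, ← Finset.sum_sub_distrib]
  apply Finset.sum_congr rfl
  intro l hl
  obtain ⟨hlen, hV⟩ := mem_On.mp hz l hl
  rw [pair_single, ← smul_sub]
  congr 1
  match l, hlen with
  | g :: l, _ =>
    have h1 := cup_translate fs hfs (g :: l) hV
    rw [List.map_cons] at h1
    rw [List.map_cons, cup0, cup0, h1, hf g (hV g (by simp))]
    ring

end Pool.Agent.Lib.MP_59c382_al
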