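import Pool.Agent.Lib.MP_59c382_al.Contra

/-!
# Places of Dedekind domains
-/

set_option autoImplicit false

namespace Pool.Agent.Lib.MP_59c382_al

open IsDedekindDomain NNReal

variable {G : Type*} [Group G] {F : Type*} [Field F]

theorem CH.χ_ne (D : CH G F) (g : G) : D.χ g ≠ 0 := by
  intro h
  have h1 : D.χ g * D.χ g⁻¹ = 1 := by rw [← map_mul, mul_inv_cancel, map_one]
  rw [h, zero_mul] at h1
  exact zero_ne_one h1

section

variable (O : Type*) [CommRing O] [IsDedekindDomain O] [Algebra O F] [IsFractionRing O F]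

theorem finite_valuation_ne_one {y : F} (hy : y ≠ 0) :
    {v : HeightOneSpectrum O | v.valuation F y ≠ 1}.Finite := by
  obtain ⟨a, b, hb, rfl⟩ := IsFractionRing.div_surjective O y
  have hb0 : b ≠ 0 := nonZeroDivisors.ne_zero hb
  have ha0 : a ≠ 0 := by
    rintro rfl
    simp at hy
  have h1 : ∀ c : O, c ≠ 0 → {v : HeightOneSpectrum O | v.valuation F (algebraMap O F c) ≠ 1}.Finite := by
    intro c hc
    have hI : Ideal.span {c} ≠ (0 : Ideal O) := by
      simpa using hc
    apply (Ideal.finite_factors hI).subset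
    intro v hv
    rw [Set.mem_ofPred_eq] at hv ⊢
    rw [Ideal.dvd_span_singleton]
    by_contra hcon
    exact hv (v.valuation_eq_one_iff_notMem.mpr hcon)
  apply ((h1 a ha0).union (h1 b hb0)).subset
  intro v hv
  by_contra hcon
  rw [Set.mem_union, not_or] at hcon
  obtain ⟨h2, h3⟩ := hcon
  rw [Set.mem_ofPred_eq, not_not] at h2 h3
  apply hv
  rw [map_div₀, h2, h3, div_one]

/-- the places of a Dedekind domain -/
noncomputable def dplaces (D : CH G F) (b : HeightOneSpectrum O → ℝ≥0) (hb : ∀ v, 1 < b v) :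
    Places D (HeightOneSpectrum O) where
  v := fun P => P.adicAbv (hb P)
  ultra := fun P => P.isNonarchimedean_adicAbv (hb P)
  θ := fun P => b P
  one_lt := fun P => by exact_mod_cast hb P
  w := fun P g => WithZero.log (P.valuation F (D.χ g))
  v_eq := by
    intro P g
    have h0 : P.valuation F (D.χ g) ≠ 0 := by
      rw [Ne, Valuation.zero_iff]
      exact D.χ_ne g
    show ((WithZeroMulInt.toNNReal (ne_zero_of_lt (hb P)) (P.valuation F (D.χ g)) : ℝ≥0) : ℝ) = _
    rw [WithZeroMulInt.toNNReal_neg_apply _ h0, WithZero.toAdd_unzero_eq_log]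
    push_cast
    rfl

variable {O}

theorem dplaces_w_nonpos {D : CH G F} {b : HeightOneSpectrum O → ℝ≥0} {hb : ∀ v, 1 < b v}
    {P : HeightOneSpectrum O} {g : G} :
    (dplaces O D b hb).w P g ≤ 0 ↔ P.valuation F (D.χ g) ≤ 1 := by
  have h0 : P.valuation F (D.χ g) ≠ 0 := by
    rw [Ne, Valuation.zero_iff]
    exact D.χ_ne g
  show WithZero.log (P.valuation F (D.χ g)) ≤ 0 ↔ _
  rw [WithZero.log_le_iff_le_exp h0, WithZero.exp_zero]

theorem dplaces_w_eq_zero {D : CH G F} {b : HeightOneSpectrum O → ℝ≥0} {hb : ∀ v, 1 < b v}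
    {P : HeightOneSpectrum O} {g : G} (h : P.valuation F (D.χ g) = 1) :
    (dplaces O D b hb).w P g = 0 := by
  show WithZero.log (P.valuation F (D.χ g)) = 0
  rw [h, WithZero.log_one]

/-- finitely many places are non-trivial on a finitely generated group -/
theorem dplaces_finite (D : CH G F) (b : HeightOneSpectrum O → ℝ≥0) (hb : ∀ v, 1 < b v)
    {S : Set G} (hS : S.Finite) (hgen : Subgroup.closure S = ⊤) :
    {P | ∃ g, (dplaces O D b hb).w P g ≠ 0}.Finite := by
  apply (hS.biUnion (fun s _ => finite_valuation_ne_one O (D.χ_ne s))).subset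
  rintro P ⟨g, hg⟩
  by_contra hcon
  apply hg
  simp only [Set.mem_iUnion, Set.mem_ofPred_eq, not_exists, not_not] at hcon
  have hadd := (dplaces O D b hb).addi P
  have hgS : g ∈ Subgroup.closure S := by rw [hgen]; trivial
  induction hgS using Subgroup.closure_induction with
  | mem s hs => exact dplaces_w_eq_zero (hcon s hs)
  | one => exact hadd.one
  | mul a a' _ _ ha ha' =>
    rw [hadd a a']
    by_cases h1 : (dplaces O D b hb).w P a = 0
    · by_cases h2 : (dplaces O D b hb).w P a' = 0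
      · rw [h1, h2, add_zero]
      · exact absurd (ha' h2) h2
    · exact absurd (ha h1) h1
  | inv a _ ha =>
    rw [hadd.inv]
    by_cases h1 : (dplaces O D b hb).w P a = 0
    · rw [h1, neg_zero]
    · exact absurd (ha h1) h1

theorem mem_range_of_nonpos {D : CH G F} (b : HeightOneSpectrum O → ℝ≥0) (hb : ∀ v, 1 < b v)
    {g : G} (h : ∀ P, (dplaces O D b hb).w P g ≤ 0) : D.χ g ∈ (algebraMap O F).range :=
  HeightOneSpectrum.mem_integers_of_valuation_le_one F _ (fun P => dplaces_w_nonpos.mp (h P))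

theorem nonpos_of_mem_range {D : CH G F} (b : HeightOneSpectrum O → ℝ≥0) (hb : ∀ v, 1 < b v)
    {g : G} (h : D.χ g ∈ (algebraMap O F).range) (P : HeightOneSpectrum O) :
    (dplaces O D b hb).w P g ≤ 0 := by
  rw [dplaces_w_nonpos]
  obtain ⟨a, ha⟩ := h
  rw [← ha]
  exact P.valuation_le_one a

end

/-- union of two systems of places -/
def Places.sum {D : CH G F} {J J' : Type*} (P : Places D J) (Q : Places D J') :
    Places D (J ⊕ J') where
  v := Sum.elim P.v Q.v
  ultra := by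
    rintro (j | j)
    · exact P.ultra j
    · exact Q.ultra j
  θ := Sum.elim P.θ Q.θ
  one_lt := by
    rintro (j | j)
    · exact P.one_lt j
    · exact Q.one_lt j
  w := Sum.elim P.w Q.w
  v_eq := by
    rintro (j | j)
    · exact P.v_eq j
    · exact Q.v_eq j

/-- **Contradiction in the function field case.** -/
theorem typeT (C : Combing G) {S : Set G} (hS : S.Finite) (hgen : Subgroup.closure S = ⊤)
    (D : CH G F) (O₁ O₂ : Type*) [CommRing O₁] [IsDedekindDomain O₁] [Algebra O₁ F]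
    [IsFractionRing O₁ F] [CommRing O₂] [IsDedekindDomain O₂] [Algebra O₂ F]
    [IsFractionRing O₂ F]
    (hconst : ∀ y : F, y ∈ (algebraMap O₁ F).range → y ∈ (algebraMap O₂ F).range →
      y⁻¹ ∈ (algebraMap O₁ F).range ∧ y⁻¹ ∈ (algebraMap O₂ F).range)
    {q : G} (hq : ¬ (D.χ q ∈ (algebraMap O₁ F).range ∧ D.χ q ∈ (algebraMap O₂ F).range))
    {b : G} (hb : b ∈ D.A) (hxb : D.x b ≠ 0) : False := by
  have h2 : ∀ v : HeightOneSpectrum O₁, (1 : ℝ≥0) < (fun _ => 2) v := fun _ => one_lt_two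
  have h2' : ∀ v : HeightOneSpectrum O₂, (1 : ℝ≥0) < (fun _ => 2) v := fun _ => one_lt_two
  set P₁ := dplaces O₁ D _ h2 with hP₁
  set P₂ := dplaces O₂ D _ h2' with hP₂
  have hfin : {j | ∃ g, (P₁.sum P₂).w j g ≠ 0}.Finite := by
    have f1 := (dplaces_finite D _ h2 hS hgen).image (Sum.inl : _ → HeightOneSpectrum O₁ ⊕ HeightOneSpectrum O₂)
    have f2 := (dplaces_finite D _ h2' hS hgen).image (Sum.inr : _ → HeightOneSpectrum O₁ ⊕ HeightOneSpectrum O₂)
    apply (f1.union f2).subset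
    rintro (j | j) ⟨g, hg⟩
    · exact Or.inl ⟨j, ⟨g, hg⟩, rfl⟩
    · exact Or.inr ⟨j, ⟨g, hg⟩, rfl⟩
  have key : ∀ g, (∀ j, (P₁.sum P₂).w j g ≤ 0) → (∀ j, (P₁.sum P₂).w j g⁻¹ ≤ 0) := by
    intro g hg
    have hm1 : D.χ g ∈ (algebraMap O₁ F).range := mem_range_of_nonpos _ h2 (fun P => hg (Sum.inl P))
    have hm2 : D.χ g ∈ (algebraMap O₂ F).range := mem_range_of_nonpos _ h2' (fun P => hg (Sum.inr P))
    obtain ⟨h3, h4⟩ := hconst _ hm1 hm2
    have hinv : (D.χ g)⁻¹ = D.χ g⁻¹ := by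
      apply inv_eq_of_mul_eq_one_right
      rw [← map_mul, mul_inv_cancel, map_one]
    rw [hinv] at h3 h4
    rintro (P | P)
    · exact nonpos_of_mem_range _ h2 h3 P
    · exact nonpos_of_mem_range _ h2' h4 P
  refine (P₁.sum P₂).typeN C hfin.toFinset (fun j hj => (Set.Finite.mem_toFinset hfin).mp hj) ?_
    hb hxb
  rintro ⟨γ, hγ⟩
  have hne : hfin.toFinset.Nonempty := by
    rw [Finset.nonempty_iff_ne_empty]
    intro hemp
    have h0 : ∀ j g, (P₁.sum P₂).w j g = 0 := by
      intro j g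
      by_contra hcon
      have : j ∈ hfin.toFinset := (Set.Finite.mem_toFinset hfin).mpr ⟨g, hcon⟩
      rw [hemp] at this
      simp at this
    apply hq
    exact ⟨mem_range_of_nonpos _ h2 (fun P => (h0 (Sum.inl P) q).le),
      mem_range_of_nonpos _ h2' (fun P => (h0 (Sum.inr P) q).le)⟩
  obtain ⟨j₀, hj₀⟩ := hne
  have h5 : ∀ j, (P₁.sum P₂).w j γ⁻¹ ≤ 0 := by
    intro j
    rw [((P₁.sum P₂).addi j).inv]
    by_cases hj : j ∈ hfin.toFinset
    · have := hγ j hj
      omega
    · have : (P₁.sum P₂).w j γ = 0 := by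
        by_contra hcon
        exact hj ((Set.Finite.mem_toFinset hfin).mpr ⟨γ, hcon⟩)
      omega
  have h6 := key γ⁻¹ h5 j₀
  rw [inv_inv] at h6
  have := hγ j₀ hj₀
  omega

end Pool.Agent.Lib.MP_59c382_al
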