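import Pool.Agent.Lib.MP_59c382_al.Theta

/-!
# The cup product of quasi-invariant functions on the fillings is a determinant
-/

set_option autoImplicit false

namespace Pool.Agent.Lib.MP_59c382_al

open Finsupp

section general

variable {ι κ : Type*} {M N : Type*} [AddCommGroup M] [AddCommGroup N]

theorem kos_hom (u : ι → (M →+ M)) (u' : ι → (N →+ N)) (Φ' : M →+ N) (Φ : List ι → M)
    (Φ₂ : List ι → N) (L : List ι)
    (h : ∀ pre i post, L = pre ++ i :: post →
      Φ' (u i (Φ (pre ++ post))) = u' i (Φ₂ (pre ++ post))) :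
    Φ' (kos u Φ L) = kos u' Φ₂ L := by
  induction L generalizing Φ Φ₂ with
  | nil => simp [kos]
  | cons i L ih =>
    simp only [kos]
    rw [map_sub, ih (fun L' => Φ (i :: L')) (fun L' => Φ₂ (i :: L'))]
    · congr 1
      exact h [] i L rfl
    · intro pre j post hL
      have := h (i :: pre) j post (by rw [hL]; rfl)
      simpa using this

theorem kos_zero (u : ι → (M →+ M)) (Φ : List ι → M) (L : List ι)
    (h : ∀ i ∈ L, ∀ m, u i m = 0) : kos u Φ L = 0 := by
  induction L generalizing Φ with
  | nil => rfl
  | cons i L ih =>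
    simp only [kos]
    rw [h i (by simp), ih _ (fun j hj => h j (by simp [hj])), sub_zero]

/-- Laplace expansion along the first row -/
noncomputable def ldet (c : κ → ι → ℂ) : List κ → List ι → ℂ
  | [], _ => 1
  | j :: rows, L => kos (fun i => AddMonoidHom.mulLeft (c j i)) (ldet c rows) L

theorem ldet_cons_of_zero (c : κ → ι → ℂ) (j : κ) (rows : List κ) (i : ι) (L : List ι)
    (h : ∀ i' ∈ L, c j i' = 0) : ldet c (j :: rows) (i :: L) = c j i * ldet c rows L := by
  rw [ldet, kos, kos_zero _ _ L (fun i' hi' m => by simp [h i' hi']), sub_zero]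
  rfl

theorem kos_ofFn {n : ℕ} (u : ι → (M →+ M)) (Φ : List ι → M) (col : Fin (n + 1) → ι) :
    kos u Φ (List.ofFn col) =
      ∑ j : Fin (n + 1), (-1 : ℤ) ^ (j : ℕ) •
        u (col j) (Φ (List.ofFn (fun k => col (j.succAbove k)))) := by
  induction n generalizing Φ with
  | zero => simp [kos]
  | succ n ih =>
    rw [List.ofFn_succ, kos, ih (fun L' => Φ (col 0 :: L'))]
    conv_rhs => rw [Fin.sum_univ_succ]
    simp only [Fin.val_zero, pow_zero, one_smul, Fin.succAbove_zero, sub_eq_add_neg]
    congr 1
    rw [← Finset.sum_neg_distrib]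
    apply Finset.sum_congr rfl
    intro j _
    rw [Fin.val_succ, pow_succ, mul_neg_one, neg_smul]
    congr 4
    rw [List.ofFn_succ]
    simp

theorem ldet_ofFn {n : ℕ} (c : κ → ι → ℂ) (row : Fin n → κ) (col : Fin n → ι) :
    ldet c (List.ofFn row) (List.ofFn col) = Matrix.det (Matrix.of fun i j => c (row i) (col j)) := by
  induction n with
  | zero => simp [ldet]
  | succ n ih =>
    rw [Matrix.det_succ_row_zero, List.ofFn_succ (f := row), ldet, kos_ofFn]
    apply Finset.sum_congr rfl
    intro j _
    rw [ih]
    simp only [AddMonoidHom.coe_mulLeft, Matrix.of_apply, zsmul_eq_mul, Int.cast_pow, Int.cast_neg,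
      Int.cast_one, mul_assoc]
    rfl

end general

variable {G : Type*} [Group G] {ι : Type*}

omit [Group G] in
theorem mem_On_of_all {P : List G → Prop} {z : Ch G} (h : ∀ l ∈ z.support, P l) : z ∈ On P :=
  mem_On.mpr h

/-- the value of the cup product on the filling -/
theorem pair_cup_th (C : Combing G) {ℓ T : ℕ} {a : ι → G} {κ : Type*} (F : κ → G → ℂ)
    (c : κ → ι → ℂ) (L : List ι) (hT : ∀ k ≤ L.length, C.c * (C.rr ℓ k + ℓ + 1) ≤ T)
    (hL : L.Nodup) (ha : ∀ i ∈ L, C.len (a i) ≤ ℓ)
    (hcomm : ∀ i ∈ L, ∀ j ∈ L, a i * a j = a j * a i) (rows₀ : List κ)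
    (hF : ∀ f ∈ rows₀, ∀ i ∈ L, ∀ L' : List ι, L'.Sublist L → i ∉ L' →
      ∀ l ∈ (th C.α T a L'.length L').support, ∀ g ∈ l, F f (a i * g) = F f g + c f i) :
    ∀ (rows : List κ), (∀ f ∈ rows, f ∈ rows₀) → ∀ L' : List ι, L'.Sublist L →
      rows.length = L'.length →
      pair (cup (rows.map F)) (th C.α T a L'.length L') = ldet c rows L' := by
  intro rows
  induction rows with
  | nil =>
    intro _ L' _ hlen
    match L', hlen with
    | [], _ => simp [th, cup, ldet]
  | cons j rows ih =>
    intro hrows L' hsub hlen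
    obtain ⟨n, hn⟩ : ∃ n, L'.length = n + 1 := ⟨rows.length, by rw [← hlen]; rfl⟩
    have hrn : rows.length = n := by
      rw [List.length_cons] at hlen
      omega
    have haL' : ∀ i ∈ L', C.len (a i) ≤ ℓ := fun i hi => ha i (hsub.subset hi)
    have hz : th C.α T a (n + 1) L' ∈ On (fun l => l.length = (rows.map F).length + 2) := by
      apply On_mono _ (C.th_Sz (T := T) (n + 1) L' haL')
      rintro l ⟨h, _⟩
      rw [List.length_map, hrn, h]
    have hle : L'.length ≤ L.length := hsub.length_le
    rw [hn, List.map_cons, stokes (F j) (rows.map F) hz, C.bd_th n (fun k hk => hT k (by omega)) L'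
      hn haL' (fun i hi i' hi' => hcomm i (hsub.subset hi) i' (hsub.subset hi')), ldet]
    have := kos_hom (fun i => trm (a i)) (fun i => AddMonoidHom.mulLeft (c j i))
      (pair (cup0 (F j) (rows.map F))).toAddMonoidHom (th C.α T a n) (ldet c rows) L' ?_
    · exact this
    · intro pre i post hL'
      have hiL' : i ∈ L' := by rw [hL']; simp
      have hnd : (pre ++ i :: post).Nodup := by rw [← hL']; exact hL.sublist hsub
      have hi : i ∉ pre ++ post := by
        have := (List.nodup_middle.mp hnd)
        exact (List.nodup_cons.mp this).1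
      have hsub' : (pre ++ post).Sublist L' := by
        rw [hL']
        exact (List.Sublist.refl pre).append (List.sublist_cons_self i post)
      have hlen' : (pre ++ post).length = n := by
        have h1 := congrArg List.length hL'
        simp only [List.length_append, List.length_cons] at h1 ⊢
        omega
      have hval := ih (fun f hf => hrows f (by simp [hf])) (pre ++ post) (hsub'.trans hsub)
        (by rw [hlen', hrn])
      rw [hlen'] at hval
      have hV : ∀ f ∈ rows₀, ∀ g ∈ {g | ∃ l ∈ (th C.α T a n (pre ++ post)).support, g ∈ l},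
          F f (a i * g) = F f g + c f i := by
        intro f hf g hg
        obtain ⟨l, hl, hgl⟩ := hg
        refine hF f hf i (hsub.subset hiL') (pre ++ post) (hsub'.trans hsub) hi l ?_ g hgl
        rw [hlen']
        exact hl
      have hz' : th C.α T a n (pre ++ post) ∈ On (fun l => l.length = (rows.map F).length + 1 ∧
          ∀ x ∈ l, x ∈ {g | ∃ l ∈ (th C.α T a n (pre ++ post)).support, g ∈ l}) := by
        apply mem_On_of_all
        intro l hl
        refine ⟨?_, fun x hx => ⟨l, hl, hx⟩⟩
        have := mem_On.mp (C.th_Sz (T := T) n (pre ++ post)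
          (fun i hi => haL' i (hsub'.subset hi))) l hl
        rw [List.length_map, hrn]
        exact this.1
      have key := pair_translate (f := F j) (c₀ := c j i) (rows.map F) (hV j (hrows j (by simp)))
        (by
          intro f hf
          obtain ⟨f', hf', rfl⟩ := List.mem_map.mp hf
          exact ⟨c f' i, hV f' (hrows f' (by simp [hf']))⟩) hz'
      show pair (cup0 (F j) (rows.map F)) (trm (a i) (th C.α T a n (pre ++ post))) =
        c j i * ldet c rows (pre ++ post)
      rw [trm_apply, key, hval]

/-! ### Bounds for the values of a cup product -/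

omit [Group G] in
theorem norm_cup_map_le {κ : Type*} (F : κ → G → ℂ) (β : κ → ℝ) (L : List κ) (l : List G)
    (h : ∀ j ∈ L, 0 ≤ β j ∧ ∀ g ∈ l, ∀ g' ∈ l, ‖F j g' - F j g‖ ≤ β j) :
    ‖cup (L.map F) l‖ ≤ (L.map β).prod := by
  induction L generalizing l with
  | nil =>
    match l with
    | [] => simp [cup]
    | [_] => simp [cup]
    | _ :: _ :: _ => simp [cup]
  | cons j L ih =>
    have hnn : 0 ≤ (L.map β).prod := by
      apply List.prod_nonneg
      intro b hb
      obtain ⟨j', hj', rfl⟩ := List.mem_map.mp hb
      exact (h j' (by simp [hj'])).1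
    rw [List.map_cons, List.map_cons, List.prod_cons]
    match l with
    | [] => simpa [cup] using mul_nonneg (h j (by simp)).1 hnn
    | [_] => simpa [cup] using mul_nonneg (h j (by simp)).1 hnn
    | g₀ :: g₁ :: l =>
      rw [cup, norm_mul]
      apply mul_le_mul
      · exact (h j (by simp)).2 g₀ (by simp) g₁ (by simp)
      · apply ih
        intro j' hj'
        refine ⟨(h j' (by simp [hj'])).1, ?_⟩
        intro g hg g' hg'
        exact (h j' (by simp [hj'])).2 g (List.mem_cons_of_mem _ hg) g' (List.mem_cons_of_mem _ hg')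
      · exact norm_nonneg _
      · exact (h j (by simp)).1

omit [Group G] in
theorem exists_ne_of_cup_ne_zero {κ : Type*} (F : κ → G → ℂ) (L : List κ) (l : List G)
    (h : cup (L.map F) l ≠ 0) : ∀ j ∈ L, ∃ g ∈ l, ∃ g' ∈ l, F j g' ≠ F j g := by
  induction L generalizing l with
  | nil => intro j hj; simp at hj
  | cons j L ih =>
    match l with
    | [] => exact absurd rfl h
    | [_] => exact absurd rfl h
    | g₀ :: g₁ :: l =>
      rw [List.map_cons, cup] at h
      intro j' hj'
      rcases List.mem_cons.mp hj' with rfl | hj'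
      · exact ⟨g₀, by simp, g₁, by simp, fun he => h (by rw [he, sub_self, zero_mul])⟩
      · obtain ⟨g, hg, g', hg', hne⟩ := ih (g₁ :: l) (right_ne_zero_of_mul h) j' hj'
        exact ⟨g, List.mem_cons_of_mem _ hg, g', List.mem_cons_of_mem _ hg', hne⟩

end Pool.Agent.Lib.MP_59c382_al
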