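import Pool.Agent.Lib.MP_59c382_al.NFCase

/-!
# The function field case
-/

set_option autoImplicit false

namespace Pool.Agent.Lib.MP_59c382_al

open Polynomial

variable {G : Type*} [Group G]

section field

variable {k₀ K : Type*} [Field k₀] [Field K] [Algebra k₀ K]

theorem pid_adjoin {t : K} (ht : Transcendental k₀ t) :
    IsPrincipalIdealRing (Algebra.adjoin k₀ {t}) :=
  IsPrincipalIdealRing.of_surjective
    (Polynomial.algEquivOfTranscendental k₀ t ht).toRingEquiv.toRingHom
    (Polynomial.algEquivOfTranscendental k₀ t ht).surjective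

theorem fraction_adjoin {t : K} (htop : IntermediateField.adjoin k₀ {t} = ⊤) :
    IsFractionRing (Algebra.adjoin k₀ {t}) K := by
  apply IsFractionRing.of_field
  intro z
  have hz : z ∈ IntermediateField.adjoin k₀ {t} := by rw [htop]; trivial
  obtain ⟨x, hx, y, hy, h⟩ := IntermediateField.mem_adjoin_iff_div.mp hz
  exact ⟨⟨x, hx⟩, ⟨y, hy⟩, h⟩

theorem adjoin_inv {t : K} (htop : IntermediateField.adjoin k₀ {t} = ⊤) :
    IntermediateField.adjoin k₀ {t⁻¹} = ⊤ := by
  rw [eq_top_iff, ← htop, IntermediateField.adjoin_le_iff]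
  intro y hy
  rw [Set.mem_singleton_iff] at hy
  rw [hy]
  have := IntermediateField.inv_mem _ (IntermediateField.mem_adjoin_simple_self k₀ t⁻¹)
  rwa [inv_inv] at this

theorem transcendental_inv {t : K} (ht : Transcendental k₀ t) : Transcendental k₀ t⁻¹ := by
  intro h
  exact ht (by simpa using h.inv)

/-- constants -/
theorem mem_range_of_mem_adjoin {t : K} (ht : Transcendental k₀ t) {z : K}
    (h1 : z ∈ Algebra.adjoin k₀ {t}) (h2 : z ∈ Algebra.adjoin k₀ {t⁻¹}) :
    z ∈ (algebraMap k₀ K).range := by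
  have ht0 : t ≠ 0 := fun h => ht (by rw [h]; exact isAlgebraic_zero)
  obtain ⟨f, rfl⟩ := Algebra.adjoin_mem_exists_aeval _ _ h1
  obtain ⟨g, hg⟩ := Algebra.adjoin_mem_exists_aeval _ _ h2
  by_cases hf : f = 0
  · rw [hf, map_zero]; exact Subring.zero_mem _
  let _ : Invertible t⁻¹ := invertibleOfNonzero (inv_ne_zero ht0)
  have h3 := eval₂_reverse_mul_pow (algebraMap k₀ K) t⁻¹ g
  have h4 : (⅟(t⁻¹) : K) = t := by
    rw [invOf_eq_inv, inv_inv]
  rw [h4, ← aeval_def, ← aeval_def, hg] at h3
  have h5 : aeval t (X ^ g.natDegree * f - reverse g) = 0 := by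
    rw [map_sub, map_mul, map_pow, aeval_X, ← h3, inv_pow]
    have : t ^ g.natDegree ≠ 0 := pow_ne_zero _ ht0
    field_simp
    ring
  have h6 : X ^ g.natDegree * f - reverse g = 0 := by
    by_contra hne
    exact ht ⟨_, hne, h5⟩
  have h7 : g.natDegree + f.natDegree ≤ g.natDegree := by
    have h8 := reverse_natDegree_le g
    rw [← sub_eq_zero.mp h6, natDegree_X_pow_mul _ hf] at h8
    omega
  have h8 : f.natDegree = 0 := by omega
  rw [natDegree_eq_zero] at h8
  obtain ⟨c, rfl⟩ := h8
  exact ⟨c, by rw [aeval_C]⟩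

variable {F : Type*} [Field F] [Algebra K F] [Algebra k₀ F] [IsScalarTower k₀ K F]

theorem isAlgebraic_of_integral {t : K} (ht : Transcendental k₀ t)
    (htop : IntermediateField.adjoin k₀ {t} = ⊤) {y : F}
    (h1 : IsIntegral (Algebra.adjoin k₀ {t}) y) (h2 : IsIntegral (Algebra.adjoin k₀ {t⁻¹}) y) :
    IsAlgebraic k₀ y := by
  have := pid_adjoin ht
  have := pid_adjoin (transcendental_inv ht)
  have := fraction_adjoin htop
  have := fraction_adjoin (adjoin_inv htop)
  have e1 := minpoly.isIntegrallyClosed_eq_field_fractions' K h1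
  have e2 := minpoly.isIntegrallyClosed_eq_field_fractions' K h2
  have hlift : minpoly K y ∈ Polynomial.lifts (algebraMap k₀ K) := by
    rw [Polynomial.lifts_iff_coeff_lifts]
    intro n
    have h3 : (minpoly K y).coeff n ∈ Algebra.adjoin k₀ {t} := by
      rw [e1, coeff_map]
      exact ((minpoly (Algebra.adjoin k₀ {t}) y).coeff n).2
    have h4 : (minpoly K y).coeff n ∈ Algebra.adjoin k₀ {t⁻¹} := by
      rw [e2, coeff_map]
      exact ((minpoly (Algebra.adjoin k₀ {t⁻¹}) y).coeff n).2
    obtain ⟨c, hc⟩ := mem_range_of_mem_adjoin ht h3 h4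
    exact ⟨c, hc⟩
  obtain ⟨p, hp⟩ := (Polynomial.mem_lifts _).mp hlift
  have hint : IsIntegral K y := h1.tower_top
  refine ⟨p, ?_, ?_⟩
  · rintro rfl
    rw [Polynomial.map_zero] at hp
    exact minpoly.ne_zero hint hp.symm
  · have h5 := minpoly.aeval K y
    rw [← hp, aeval_map_algebraMap] at h5
    exact h5

/-- **Contradiction in the separable function field case.** -/
theorem typeFF (C : Combing G) {S : Set G} (hS : S.Finite) (hgen : Subgroup.closure S = ⊤)
    [FiniteDimensional K F] [Algebra.IsSeparable K F] {t : K} (ht : Transcendental k₀ t)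
    (htop : IntermediateField.adjoin k₀ {t} = ⊤) (D : CH G F) {q : G}
    (hq : Transcendental k₀ (D.χ q)) {b : G} (hb : b ∈ D.A) (hxb : D.x b ≠ 0) : False := by
  have := pid_adjoin ht
  have := pid_adjoin (transcendental_inv ht)
  have := fraction_adjoin htop
  have := fraction_adjoin (adjoin_inv htop)
  have := integralClosure.isDedekindDomain (Algebra.adjoin k₀ {t}) K (L := F)
  have := integralClosure.isDedekindDomain (Algebra.adjoin k₀ {t⁻¹}) K (L := F)
  have := integralClosure.isFractionRing_of_finite_extension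
    (A := Algebra.adjoin k₀ {t}) K F
  have := integralClosure.isFractionRing_of_finite_extension
    (A := Algebra.adjoin k₀ {t⁻¹}) K F
  have hrange1 : ∀ y : F, y ∈ (algebraMap (integralClosure (Algebra.adjoin k₀ {t}) F) F).range ↔
      IsIntegral (Algebra.adjoin k₀ {t}) y := by
    intro y
    constructor
    · rintro ⟨z, rfl⟩; exact z.2
    · intro h; exact ⟨⟨y, h⟩, rfl⟩
  have hrange2 : ∀ y : F, y ∈ (algebraMap (integralClosure (Algebra.adjoin k₀ {t⁻¹}) F) F).range ↔
      IsIntegral (Algebra.adjoin k₀ {t⁻¹}) y := by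
    intro y
    constructor
    · rintro ⟨z, rfl⟩; exact z.2
    · intro h; exact ⟨⟨y, h⟩, rfl⟩
  refine typeT C hS hgen D (integralClosure (Algebra.adjoin k₀ {t}) F)
    (integralClosure (Algebra.adjoin k₀ {t⁻¹}) F) ?_ (q := q) ?_ hb hxb
  · intro y hy1 hy2
    rw [hrange1] at hy1
    rw [hrange2] at hy2
    have halg := (isAlgebraic_of_integral ht htop hy1 hy2).inv
    have hint : IsIntegral k₀ y⁻¹ := halg.isIntegral
    rw [hrange1, hrange2]
    exact ⟨hint.tower_top, hint.tower_top⟩
  · rintro ⟨hy1, hy2⟩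
    rw [hrange1] at hy1
    rw [hrange2] at hy2
    exact hq (isAlgebraic_of_integral ht htop hy1 hy2)

/-- push-forward of a crossed homomorphism -/
def CH.map {E : Type*} [Field E] (D : CH G F) (Φ : F →+* E) : CH G E where
  A := D.A
  normal := D.normal
  comm := D.comm
  χ := Φ.toMonoidHom.comp D.χ
  x := fun g => Φ (D.x g)
  x_mul := fun g h => by
    rw [D.x_mul, map_add, map_mul]
    rfl
  χ_A := fun a ha => by
    show Φ (D.χ a) = 1
    rw [D.χ_A a ha, map_one]

/-- **Contradiction in the function field case.** -/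
theorem typeFF' (C : Combing G) {S : Set G} (hS : S.Finite) (hgen : Subgroup.closure S = ⊤)
    [FiniteDimensional K F] {t : K} (ht : Transcendental k₀ t)
    (htop : IntermediateField.adjoin k₀ {t} = ⊤) (D : CH G F) {q : G}
    (hq : Transcendental k₀ (D.χ q)) {b : G} (hb : b ∈ D.A) (hxb : D.x b ≠ 0) : False := by
  set E := separableClosure K F with hE
  set Φ : F →+* E := IsPurelyInseparable.iterateFrobenius E F (ringExpChar E)
    (n := IsPurelyInseparable.exponent E F) le_rfl with hΦ
  have hΦ' : ∀ y, algebraMap E F (Φ y) = y ^ (ringExpChar E) ^ (IsPurelyInseparable.exponent E F) :=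
    fun y => IsPurelyInseparable.algebraMap_iterateFrobenius E _ le_rfl y
  have htower : IsScalarTower k₀ E F := IsScalarTower.of_algebraMap_eq (fun x => by
    rw [IsScalarTower.algebraMap_apply k₀ K F, IsScalarTower.algebraMap_apply k₀ K E]
    rfl)
  refine typeFF (F := E) C hS hgen ht htop (D.map Φ) (q := q) ?_ hb (b := b) ?_
  · intro halg
    have h1 : IsAlgebraic k₀ (algebraMap E F (Φ (D.χ q))) := halg.algebraMap
    rw [hΦ'] at h1
    exact hq (h1.of_pow (expChar_pow_pos E _ _))
  · exact fun h => hxb ((map_eq_zero Φ).mp h)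

end field

end Pool.Agent.Lib.MP_59c382_al
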