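import Pool.Agent.Lib.MP_59c382_al.Auto

/-!
# Automatic structures over arbitrary finite alphabets; passage to subgroups of finite index
-/

set_option autoImplicit false

namespace Pool.Agent.Lib.MP_59c382_al

universe u v w

/-- products of at most `r` elements of `T` and inverses of such -/
def BlS {G : Type u} [Group G] (T : Set G) (r : ℕ) (g : G) : Prop :=
  ∃ l : List G, l.length ≤ r ∧ (∀ x ∈ l, x ∈ T ∨ x⁻¹ ∈ T) ∧ l.prod = g

section BlS

variable {G : Type u} [Group G] {T : Set G}

theorem BlS_one (r : ℕ) : BlS T r 1 := ⟨[], by simp, by simp, by simp⟩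

theorem BlS_mono {r r' : ℕ} (h : r ≤ r') {g : G} (hg : BlS T r g) : BlS T r' g := by
  obtain ⟨l, h1, h2, h3⟩ := hg
  exact ⟨l, h1.trans h, h2, h3⟩

theorem BlS_inv {r : ℕ} {g : G} (hg : BlS T r g) : BlS T r g⁻¹ := by
  obtain ⟨l, h1, h2, h3⟩ := hg
  refine ⟨(l.map (fun x => x⁻¹)).reverse, by simpa using h1, ?_, ?_⟩
  · intro x hx
    rw [List.mem_reverse] at hx
    obtain ⟨y, hy, rfl⟩ := List.mem_map.mp hx
    rw [inv_inv]
    exact (h2 y hy).symm
  · rw [← h3, List.prod_inv_reverse]

theorem BlS_mul {r r' : ℕ} {g h : G} (hg : BlS T r g) (hh : BlS T r' h) :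
    BlS T (r + r') (g * h) := by
  obtain ⟨l, h1, h2, h3⟩ := hg
  obtain ⟨l', h1', h2', h3'⟩ := hh
  refine ⟨l ++ l', by simp; omega, ?_, by simp [h3, h3']⟩
  intro x hx
  rcases List.mem_append.mp hx with h | h
  · exact h2 x h
  · exact h2' x h

theorem BlS_gen {x : G} (hx : x ∈ T) : BlS T 1 x := ⟨[x], by simp, by simp [hx], by simp⟩

theorem finite_BlS (hT : T.Finite) (r : ℕ) : {g | BlS T r g}.Finite := by
  induction r with
  | zero =>
    apply (Set.finite_singleton (1 : G)).subset
    rintro g ⟨l, h1, -, h3⟩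
    have : l = [] := List.length_eq_zero_iff.mp (Nat.le_zero.mp h1)
    rw [this] at h3
    exact h3.symm
  | succ r ih =>
    have hT' : (T ∪ T⁻¹).Finite := hT.union hT.inv
    apply ((hT'.mul ih).union (Set.finite_singleton (1 : G))).subset
    rintro g ⟨l, h1, h2, h3⟩
    cases l with
    | nil => right; exact h3.symm
    | cons x l =>
      left
      rw [List.prod_cons] at h3
      rw [← h3]
      apply Set.mul_mem_mul
      · exact h2 x (by simp)
      · exact ⟨l, by simpa using h1, fun y hy => h2 y (by simp [hy]), rfl⟩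

end BlS

set_option linter.checkUnivs false in
/-- automatic structure over an arbitrary finite alphabet -/
structure AutG (G : Type u) [Group G] where
  /-- alphabet -/
  α : Type v
  finα : Finite α
  /-- value of the letters -/
  s : α → G
  /-- states -/
  σ : Type w
  finσ : Finite σ
  /-- the automaton -/
  M : DFA α σ
  /-- fellow traveller constant -/
  k : ℕ
  surj : ∀ g : G, ∃ w ∈ M.accepts, (w.map s).prod = g
  fellow : ∀ u ∈ M.accepts, ∀ v ∈ M.accepts, ∀ a : G, (a = 1 ∨ a ∈ Set.range s) →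
        (u.map s).prod * a = (v.map s).prod →
        ∀ t : ℕ, BlS (Set.range s) k (((u.take t).map s).prod⁻¹ * ((v.take t).map s).prod)

namespace AutG

/-- reindexing the alphabet and the states -/
theorem toAut {G : Type u} [Group G] (S : AutG.{u, v, w} G) : Nonempty (Aut G) := by
  have := S.finα
  have := S.finσ
  obtain ⟨n, ⟨e⟩⟩ := Finite.exists_equiv_fin S.α
  obtain ⟨m, ⟨f⟩⟩ := Finite.exists_equiv_fin S.σ
  have hmem : ∀ w : List (Fin n), w ∈ ((DFA.reindex f S.M).comap e.symm).accepts ↔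
      w.map e.symm ∈ S.M.accepts := by
    intro w
    rw [DFA.accepts_comap, DFA.accepts_reindex]
    rfl
  refine ⟨{
    n := n
    s := fun i => S.s (e.symm i)
    σ := Fin m
    fin := inferInstance
    M := (DFA.reindex f S.M).comap e.symm
    k := S.k
    surj := ?_
    fellow := ?_ }⟩
  · intro g
    obtain ⟨w, hw, hg⟩ := S.surj g
    refine ⟨w.map e, ?_, ?_⟩
    · rw [hmem, List.map_map]
      simpa using hw
    · rw [List.map_map, ← hg]
      congr 1
      apply List.map_congr_left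
      intro x _
      simp
  · intro u hu v hv a ha hev t
    rw [hmem] at hu hv
    have hr : Set.range (fun i => S.s (e.symm i)) = Set.range S.s := by
      ext x
      constructor
      · rintro ⟨i, rfl⟩
        exact ⟨_, rfl⟩
      · rintro ⟨i, rfl⟩
        exact ⟨e i, by simp⟩
    rw [hr] at ha ⊢
    have hmap : ∀ w : List (Fin n), (w.map fun i => S.s (e.symm i)) =
        (w.map e.symm).map S.s := by
      intro w
      rw [List.map_map]
      rfl
    obtain ⟨l, h1, h2, h3⟩ := S.fellow _ hu _ hv a ha (by rw [← hmap, ← hmap]; exact hev) t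
    refine ⟨l, h1, h2, ?_⟩
    rw [h3, hmap (u.take t), hmap (v.take t), List.map_take (f := e.symm) (l := u),
      List.map_take (f := e.symm) (l := v), mul_inv_cancel_left]

variable {G : Type u} [Group G] (S : AutG.{u, v, w} G)

/-- evaluation -/
def ev (w : List S.α) : G := (w.map S.s).prod

theorem ev_append (u v : List S.α) : S.ev (u ++ v) = S.ev u * S.ev v := by
  simp [ev]

theorem exists_BlS (g : G) : ∃ r, BlS (Set.range S.s) r g := by
  obtain ⟨w, _, hw⟩ := S.surj g
  refine ⟨w.length, w.map S.s, by simp, ?_, hw⟩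
  intro x hx
  obtain ⟨i, _, rfl⟩ := List.mem_map.mp hx
  exact Or.inl ⟨i, rfl⟩

/-- bound on a finite set of elements -/
theorem exists_bound {T : Set G} (hT : T.Finite) : ∃ r, ∀ g ∈ T, BlS (Set.range S.s) r g := by
  choose f hf using S.exists_BlS
  obtain ⟨r, hr⟩ := (hT.image f).bddAbove
  exact ⟨r, fun g hg => BlS_mono (hr ⟨g, hg, rfl⟩) (hf g)⟩

/-- fellow travelling for words of the language whose values differ by a product of generators -/
theorem fellow_list (l : List G) (hl : ∀ x ∈ l, x ∈ Set.range S.s ∨ x⁻¹ ∈ Set.range S.s) :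
    ∀ u ∈ S.M.accepts, ∀ v ∈ S.M.accepts, S.ev u * l.prod = S.ev v → ∀ t : ℕ,
      BlS (Set.range S.s) (S.k * (l.length + 1)) ((S.ev (u.take t))⁻¹ * S.ev (v.take t)) := by
  induction l with
  | nil =>
    intro u hu v hv h t
    rw [List.length_nil, Nat.zero_add, Nat.mul_one]
    exact S.fellow u hu v hv 1 (Or.inl rfl) h t
  | cons x l ih =>
    intro u hu v hv h t
    obtain ⟨w, hw, hwx⟩ := S.surj (S.ev u * x)
    have h1 := ih (fun y hy => hl y (by simp [hy])) w hw v hv (by
      change (w.map S.s).prod * l.prod = S.ev v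
      rw [hwx, ← h, List.prod_cons, mul_assoc]) t
    have h2 : BlS (Set.range S.s) S.k ((S.ev (u.take t))⁻¹ * S.ev (w.take t)) := by
      rcases hl x (by simp) with hx | hx
      · exact S.fellow u hu w hw x (Or.inr hx) hwx.symm t
      · have h3 := S.fellow w hw u hu x⁻¹ (Or.inr hx) (by
          rw [hwx, mul_inv_cancel_right]; rfl) t
        have h4 := BlS_inv h3
        rw [mul_inv_rev, inv_inv] at h4
        exact h4
    have h3 := BlS_mul h2 h1
    have e1 : (S.ev (u.take t))⁻¹ * S.ev (w.take t) * ((S.ev (w.take t))⁻¹ * S.ev (v.take t)) =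
        (S.ev (u.take t))⁻¹ * S.ev (v.take t) := by group
    rw [e1] at h3
    apply BlS_mono _ h3
    rw [List.length_cons]
    nlinarith

section sub

variable (H : Subgroup G)

/-- coset representatives: `QuotientGroup.mk (τ c)⁻¹ = c` -/
noncomputable def tau (c : G ⧸ H) : G := (Quotient.out c)⁻¹

theorem mk_tau (c : G ⧸ H) : (QuotientGroup.mk (tau H c)⁻¹ : G ⧸ H) = c := by
  rw [tau, inv_inv]
  exact QuotientGroup.out_eq' c

/-- letters of the subgroup -/
theorem gen_mem (g : G) (c : G ⧸ H) : tau H c * g * (tau H (g⁻¹ • c))⁻¹ ∈ H := by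
  have h1 : (QuotientGroup.mk (tau H c * g)⁻¹ : G ⧸ H) =
      QuotientGroup.mk (tau H (g⁻¹ • c))⁻¹ := by
    rw [mk_tau, mul_inv_rev]
    conv_rhs => rw [← mk_tau H c]
    rfl
  have h2 := QuotientGroup.eq.mp h1
  rwa [inv_inv] at h2

/-- letters of the subgroup -/
noncomputable def sg (p : S.α × (G ⧸ H)) : H :=
  ⟨tau H p.2 * S.s p.1 * (tau H ((S.s p.1)⁻¹ • p.2))⁻¹, gen_mem H _ _⟩

open Classical in
/-- the automaton of the subgroup -/
noncomputable def MH : DFA (S.α × (G ⧸ H)) (Option (S.σ × (G ⧸ H))) where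
  step q p := match q with
    | none => none
    | some q => if p.2 = q.2 then some (S.M.step q.1 p.1, (S.s p.1)⁻¹ • p.2) else none
  start := some (S.M.start, QuotientGroup.mk 1)
  accept := {q | ∃ q', q = some (q', QuotientGroup.mk 1) ∧ q' ∈ S.M.accept}

/-- lift of a word -/
def lift (c : G ⧸ H) : List S.α → List (S.α × (G ⧸ H))
  | [] => []
  | i :: w => (i, c) :: lift ((S.s i)⁻¹ • c) w

theorem evalFrom_lift (w : List S.α) (q : S.σ) (c : G ⧸ H) :
    (S.MH H).evalFrom (some (q, c)) (S.lift H c w) =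
      some (S.M.evalFrom q w, (S.ev w)⁻¹ • c) := by
  induction w generalizing q c with
  | nil => simp [lift, ev]
  | cons i w ih =>
    rw [lift, DFA.evalFrom_cons, DFA.evalFrom_cons]
    have h1 : (S.MH H).step (some (q, c)) (i, c) = some (S.M.step q i, (S.s i)⁻¹ • c) := by
      simp [MH]
    rw [h1, ih]
    congr 2
    rw [smul_smul]
    congr 1
    simp [ev]

theorem evalFrom_none (w : List (S.α × (G ⧸ H))) : (S.MH H).evalFrom none w = none := by
  induction w with
  | nil => rfl
  | cons p w ih => rw [DFA.evalFrom_cons]; exact ih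

theorem eq_lift (w : List (S.α × (G ⧸ H))) (q : S.σ) (c : G ⧸ H) (x : S.σ × (G ⧸ H))
    (h : (S.MH H).evalFrom (some (q, c)) w = some x) : w = S.lift H c (w.map Prod.fst) := by
  induction w generalizing q c with
  | nil => rfl
  | cons p w ih =>
    rw [DFA.evalFrom_cons] at h
    by_cases hp : p.2 = c
    · have h1 : (S.MH H).step (some (q, c)) p = some (S.M.step q p.1, (S.s p.1)⁻¹ • c) := by
        simp [MH, hp]
      rw [h1] at h
      rw [List.map_cons, lift, ← ih _ _ h, ← hp]
    · have h1 : (S.MH H).step (some (q, c)) p = none := by simp [MH, hp]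
      rw [h1, evalFrom_none] at h
      exact absurd h (by simp)

theorem map_fst_lift (w : List S.α) (c : G ⧸ H) : (S.lift H c w).map Prod.fst = w := by
  induction w generalizing c with
  | nil => rfl
  | cons i w ih => rw [lift, List.map_cons, ih]

theorem take_lift (w : List S.α) (c : G ⧸ H) (t : ℕ) :
    (S.lift H c w).take t = S.lift H c (w.take t) := by
  induction w generalizing c t with
  | nil => simp [lift]
  | cons i w ih =>
    cases t with
    | zero => simp [lift]
    | succ t => rw [lift, List.take_succ_cons, List.take_succ_cons, ih, lift]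

theorem prod_lift (w : List S.α) (c : G ⧸ H) :
    (((S.lift H c w).map (S.sg H)).prod : G) = tau H c * S.ev w * (tau H ((S.ev w)⁻¹ • c))⁻¹ := by
  induction w generalizing c with
  | nil => simp [lift, ev]
  | cons i w ih =>
    rw [lift, List.map_cons, List.prod_cons, Subgroup.coe_mul, ih]
    have h1 : S.ev (i :: w) = S.s i * S.ev w := by simp [ev]
    rw [h1, mul_inv_rev, smul_smul]
    simp only [sg]
    group

theorem mem_accepts_MH (w : List (S.α × (G ⧸ H))) : w ∈ (S.MH H).accepts ↔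
    ∃ v ∈ S.M.accepts, S.ev v ∈ H ∧ w = S.lift H (QuotientGroup.mk 1) v := by
  have hsm : ∀ g : G, (g⁻¹ • (QuotientGroup.mk 1 : G ⧸ H) = QuotientGroup.mk 1) ↔ g ∈ H := by
    intro g
    have h1 : g⁻¹ • (QuotientGroup.mk 1 : G ⧸ H) = QuotientGroup.mk (g⁻¹ * 1) := rfl
    rw [h1, QuotientGroup.eq]
    simp
  constructor
  · intro h
    obtain ⟨q', h1, h2⟩ : ∃ q', (S.MH H).evalFrom (some (S.M.start, QuotientGroup.mk 1)) w =
      some (q', QuotientGroup.mk 1) ∧ q' ∈ S.M.accept := h
    have h3 := S.eq_lift H w _ _ _ h1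
    rw [h3, evalFrom_lift] at h1
    have h4 := Option.some.inj h1
    have h5 := congrArg Prod.fst h4
    have h6 := congrArg Prod.snd h4
    simp only at h5 h6
    refine ⟨w.map Prod.fst, ?_, (hsm _).mp h6, h3⟩
    rw [DFA.mem_accepts, DFA.eval, h5]
    exact h2
  · rintro ⟨v, hv, hvH, rfl⟩
    refine ⟨S.M.evalFrom S.M.start v, ?_, hv⟩
    change (S.MH H).evalFrom (some (S.M.start, QuotientGroup.mk 1)) _ = _
    rw [evalFrom_lift, (hsm _).mpr hvH]

include S in
/-- a subgroup of finite index of an automatic group is automatic -/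
theorem exists_sub [hH : H.FiniteIndex] : Nonempty (AutG.{u, max v u, max w u} H) := by
  have := S.finα
  have := S.finσ
  set c₀ : G ⧸ H := QuotientGroup.mk 1 with hc₀
  have hτ₀ : tau H c₀ ∈ H := by
    have h1 := mk_tau H c₀
    rw [hc₀, QuotientGroup.eq] at h1
    simpa using h1
  have hback : ∀ v, S.ev v ∈ H → (((S.lift H c₀ v).map (S.sg H)).prod : G) =
      tau H c₀ * S.ev v * (tau H c₀)⁻¹ := by
    intro v hv
    rw [prod_lift]
    congr 3
    have h1 : (S.ev v)⁻¹ • c₀ = QuotientGroup.mk ((S.ev v)⁻¹ * 1) := rfl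
    rw [h1, hc₀, QuotientGroup.eq]
    simpa using hv
  have hsurj : ∀ h : H, ∃ w ∈ (S.MH H).accepts, (w.map (S.sg H)).prod = h := by
    intro h
    obtain ⟨v, hv, hvh⟩ := S.surj ((tau H c₀)⁻¹ * h * tau H c₀)
    have hvH : S.ev v ∈ H := by
      change (v.map S.s).prod ∈ H
      rw [hvh]
      exact H.mul_mem (H.mul_mem (H.inv_mem hτ₀) h.2) hτ₀
    refine ⟨S.lift H c₀ v, (S.mem_accepts_MH H _).mpr ⟨v, hv, hvH, rfl⟩, ?_⟩
    apply Subtype.ext
    rw [hback v hvH]
    change _ * (v.map S.s).prod * _ = _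
    rw [hvh]
    group
  -- bounds
  obtain ⟨r₁, hr₁⟩ := S.exists_bound (Set.finite_range (tau H))
  have hA : ({x : G | ∃ a : H, (a = 1 ∨ a ∈ Set.range (S.sg H)) ∧
      x = (tau H c₀)⁻¹ * a * tau H c₀}).Finite := by
    apply (((Set.finite_singleton (1 : H)).union (Set.finite_range (S.sg H))).image
      (fun a : H => (tau H c₀)⁻¹ * (a : G) * tau H c₀)).subset
    rintro x ⟨a, ha, rfl⟩
    exact ⟨a, ha, rfl⟩
  obtain ⟨r₂, hr₂⟩ := S.exists_bound hA
  set R := r₁ + (S.k * (r₂ + 1)) + r₁ with hR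
  have hfin : ({h : H | BlS (Set.range S.s) R (h : G)}).Finite := by
    apply Set.Finite.of_finite_image (f := ((↑) : H → G)) _ (Subtype.val_injective.injOn)
    apply (finite_BlS (Set.finite_range S.s) R).subset
    rintro _ ⟨h, hh, rfl⟩
    exact hh
  have hex : ∀ h : H, ∃ r, BlS (Set.range (S.sg H)) r h := by
    intro h
    obtain ⟨w, -, hw⟩ := hsurj h
    refine ⟨w.length, w.map (S.sg H), by simp, ?_, hw⟩
    intro x hx
    obtain ⟨i, _, rfl⟩ := List.mem_map.mp hx
    exact Or.inl ⟨i, rfl⟩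
  choose f hf using hex
  obtain ⟨K, hK⟩ := (hfin.image f).bddAbove
  refine ⟨{
    α := S.α × (G ⧸ H)
    finα := inferInstance
    s := S.sg H
    σ := Option (S.σ × (G ⧸ H))
    finσ := inferInstance
    M := S.MH H
    k := K
    surj := hsurj
    fellow := ?_ }⟩
  intro u' hu' v' hv' a ha hev t
  obtain ⟨u, hu, huH, rfl⟩ := (S.mem_accepts_MH H _).mp hu'
  obtain ⟨v, hv, hvH, rfl⟩ := (S.mem_accepts_MH H _).mp hv'
  apply BlS_mono _ (hf _)
  apply hK
  refine ⟨_, ?_, rfl⟩
  change BlS (Set.range S.s) R _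
  obtain ⟨l, hl1, hl2, hl3⟩ := hr₂ _ ⟨a, ha, rfl⟩
  have h1 : S.ev u * l.prod = S.ev v := by
    have h2 := congrArg (Subtype.val) hev
    rw [Subgroup.coe_mul] at h2
    change ((((S.lift H c₀ u).map (S.sg H)).prod : H) : G) * a =
      (((S.lift H c₀ v).map (S.sg H)).prod : H) at h2
    rw [hback u huH, hback v hvH] at h2
    rw [hl3]
    have h3 : S.ev v = (tau H c₀)⁻¹ * (tau H c₀ * S.ev v * (tau H c₀)⁻¹) * tau H c₀ := by group
    rw [h3, ← h2]
    group
  have h2 := S.fellow_list l hl2 u hu v hv h1 t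
  rw [Subgroup.coe_mul, Subgroup.coe_inv, take_lift, take_lift, prod_lift, prod_lift]
  have e1 : (tau H (QuotientGroup.mk 1) * S.ev (u.take t) *
        (tau H ((S.ev (u.take t))⁻¹ • (QuotientGroup.mk 1 : G ⧸ H)))⁻¹)⁻¹ *
      (tau H (QuotientGroup.mk 1) * S.ev (v.take t) *
        (tau H ((S.ev (v.take t))⁻¹ • (QuotientGroup.mk 1 : G ⧸ H)))⁻¹) =
      tau H ((S.ev (u.take t))⁻¹ • (QuotientGroup.mk 1 : G ⧸ H)) *
        ((S.ev (u.take t))⁻¹ * S.ev (v.take t)) *
        (tau H ((S.ev (v.take t))⁻¹ • (QuotientGroup.mk 1 : G ⧸ H)))⁻¹ := by group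
  rw [e1]
  refine BlS_mul (BlS_mul (hr₁ _ ⟨_, rfl⟩) (BlS_mono ?_ h2)) (BlS_inv (hr₁ _ ⟨_, rfl⟩))
  exact Nat.mul_le_mul_left _ (by omega)

end sub

end AutG

end Pool.Agent.Lib.MP_59c382_al
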