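import Pool.Agent.Lib.MP_59c382_al.Obstruction

/-!
# Exponential families contradict the obstruction inequality
-/

set_option autoImplicit false

namespace Pool.Agent.Lib.MP_59c382_al

variable {G : Type*} [Group G] {F : Type*} [Field F]

/-- Horner words -/
def hw (u b : G) : List Bool → G
  | [] => 1
  | ε :: l => (if ε then b else 1) * (u * hw u b l * u⁻¹)

namespace Combing

variable (C : Combing G)

theorem len_pow (g : G) (n : ℕ) : C.len (g ^ n) ≤ n * C.len g := by
  induction n with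
  | zero => simp [C.len_one]
  | succ n ih =>
    rw [pow_succ, Nat.succ_mul]
    exact (C.len_mul _ _).trans (Nat.add_le_add_right ih _)

theorem len_conj (g h : G) : C.len (g * h * g⁻¹) ≤ C.len h + 2 * C.len g := by
  have h1 := C.len_mul (g * h) g⁻¹
  have h2 := C.len_mul g h
  rw [C.len_inv] at h1
  omega

theorem len_hw (u b : G) (l : List Bool) :
    C.len (hw u b l) ≤ l.length * (C.len b + 2 * C.len u) := by
  induction l with
  | nil => simp [hw, C.len_one]
  | cons ε l ih =>
    rw [hw, List.length_cons, Nat.succ_mul]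
    have h1 := C.len_mul (if ε then b else 1) (u * hw u b l * u⁻¹)
    have h2 := C.len_conj u (hw u b l)
    have h3 : C.len (if ε then b else 1) ≤ C.len b := by
      split_ifs
      · exact le_rfl
      · rw [C.len_one]; exact Nat.zero_le _
    omega

end Combing

namespace Datum

variable {I : Type*} [Fintype I] {r : ℕ} (D : Datum G F I r)

theorem x_one : D.x 1 = 0 := by
  have := D.x_mul 1 1
  simpa using this

theorem x_conj {a : G} (ha : a ∈ D.A) (g : G) : D.x (g * a * g⁻¹) = D.χ g * D.x a := by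
  have h1 : D.x g + D.χ g * D.x g⁻¹ = 0 := by
    rw [← D.x_mul, mul_inv_cancel, D.x_one]
  rw [D.x_mul, D.x_mul, map_mul, D.χ_A a ha, mul_one]
  linear_combination h1

theorem hw_mem {u b : G} (hb : b ∈ D.A) (l : List Bool) : hw u b l ∈ D.A := by
  induction l with
  | nil => exact D.A.one_mem
  | cons ε l ih =>
    rw [hw]
    apply D.A.mul_mem
    · split_ifs
      · exact hb
      · exact D.A.one_mem
    · exact D.normal.conj_mem _ ih u

theorem x_hw {u b : G} (hb : b ∈ D.A) (ε : Bool) (l : List Bool) :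
    D.x (hw u b (ε :: l)) = (if ε then 1 else 0) * D.x b + D.χ u * D.x (hw u b l) := by
  rw [hw, D.x_mul_A, D.x_conj (D.hw_mem hb l)]
  · cases ε <;> simp [D.x_one]
  · split_ifs
    · exact hb
    · exact D.A.one_mem

theorem v_bool (i : I) (c : F) (ε : Bool) : D.v i ((if ε then 1 else 0) * c) ≤ D.v i c := by
  cases ε <;> simp

theorem v_x_hw_le {u b : G} (hb : b ∈ D.A) {i : I} (hu : D.v i (D.χ u) ≤ 1) (l : List Bool) :
    D.v i (D.x (hw u b l)) ≤ D.v i (D.x b) := by
  induction l with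
  | nil => rw [hw, D.x_one, (D.v i).map_zero]; exact (D.v i).nonneg _
  | cons ε l ih =>
    rw [D.x_hw hb]
    refine (D.ultra i _ _).trans (max_le (D.v_bool i _ ε) ?_)
    rw [(D.v i).map_mul]
    calc D.v i (D.χ u) * D.v i (D.x (hw u b l)) ≤ 1 * D.v i (D.x b) :=
          mul_le_mul hu ih ((D.v i).nonneg _) zero_le_one
      _ = D.v i (D.x b) := one_mul _

theorem v_x_hw_sub {u b : G} (hb : b ∈ D.A) {i : I} (hu : 1 < D.v i (D.χ u))
    (l l' : List Bool) (hlen : l.length = l'.length) (hne : l ≠ l') :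
    D.v i (D.x b) ≤ D.v i (D.x (hw u b l) - D.x (hw u b l')) := by
  induction l generalizing l' with
  | nil =>
    match l', hlen with
    | [], _ => exact absurd rfl hne
  | cons ε l ih =>
    match l', hlen with
    | ε' :: l', hlen =>
      rw [D.x_hw hb, D.x_hw hb]
      set y := D.x (hw u b l) - D.x (hw u b l') with hy
      have e1 : (if ε then 1 else 0) * D.x b + D.χ u * D.x (hw u b l) -
          ((if ε' then 1 else 0) * D.x b + D.χ u * D.x (hw u b l')) =
          ((if ε then (1 : F) else 0) - (if ε' then 1 else 0)) * D.x b + D.χ u * y := by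
        rw [hy]; ring
      rw [e1]
      by_cases hl : l = l'
      · have hε : ε ≠ ε' := fun h => hne (by rw [h, hl])
        have hy0 : y = 0 := by rw [hy, hl, sub_self]
        rw [hy0, mul_zero, add_zero, (D.v i).map_mul]
        have : D.v i ((if ε then (1 : F) else 0) - (if ε' then 1 else 0)) = 1 := by
          cases ε <;> cases ε' <;> simp_all
        rw [this, one_mul]
      · have hlen' : l.length = l'.length := by simpa using hlen
        have ih' := ih l' hlen' hl
        rw [← hy] at ih'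
        have hc : D.v i (((if ε then (1 : F) else 0) - (if ε' then 1 else 0)) * D.x b) ≤
            D.v i (D.x b) := by
          rw [(D.v i).map_mul]
          have : D.v i ((if ε then (1 : F) else 0) - (if ε' then 1 else 0)) ≤ 1 := by
            cases ε <;> cases ε' <;> simp
          calc _ ≤ 1 * D.v i (D.x b) := mul_le_mul_of_nonneg_right this ((D.v i).nonneg _)
            _ = _ := one_mul _
        by_cases hxb : D.v i (D.x b) = 0
        · rw [hxb]; exact (D.v i).nonneg _
        have hxb' : 0 < D.v i (D.x b) := lt_of_le_of_ne ((D.v i).nonneg _) (Ne.symm hxb)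
        by_contra hlt
        rw [not_le] at hlt
        have h1 : D.v i (D.χ u * y) < D.v i (D.χ u) * D.v i y := by
          have e2 : D.χ u * y = (((if ε then (1 : F) else 0) - (if ε' then 1 else 0)) * D.x b +
            D.χ u * y) - ((if ε then (1 : F) else 0) - (if ε' then 1 else 0)) * D.x b := by ring
          rw [e2]
          refine (D.ultra_sub i _ _).trans_lt (max_lt ?_ ?_)
          · refine hlt.trans (ih'.trans_lt ?_)
            nlinarith
          · refine hc.trans_lt (ih'.trans_lt ?_)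
            nlinarith
        rw [(D.v i).map_mul] at h1
        exact lt_irrefl _ h1

/-- the exponential families -/
noncomputable def fam (u b : G) (s n : ℕ) : Finset G :=
  open Classical in
  (Finset.univ : Finset (Fin n → Bool)).image (fun ε => u ^ s * hw u b (List.ofFn ε) * (u ^ s)⁻¹)

theorem mem_fam {u b : G} {s n : ℕ} {g : G} :
    g ∈ fam u b s n ↔ ∃ ε : Fin n → Bool, u ^ s * hw u b (List.ofFn ε) * (u ^ s)⁻¹ = g := by
  classical
  rw [fam, Finset.mem_image]
  simp

theorem fam_sep {u b : G} (hb : b ∈ D.A) {i : I} (hu : 1 < D.v i (D.χ u)) {s n : ℕ}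
    {ε ε' : Fin n → Bool} (hne : ε ≠ ε') :
    D.v i (D.χ u) ^ s * D.v i (D.x b) ≤ D.v i (D.x (u ^ s * hw u b (List.ofFn ε) * (u ^ s)⁻¹) -
      D.x (u ^ s * hw u b (List.ofFn ε') * (u ^ s)⁻¹)) := by
  rw [D.x_conj (D.hw_mem hb _), D.x_conj (D.hw_mem hb _), ← mul_sub, (D.v i).map_mul, map_pow,
    map_pow]
  apply mul_le_mul_of_nonneg_left _ (pow_nonneg ((D.v i).nonneg _) _)
  apply D.v_x_hw_sub hb hu
  · simp
  · exact fun h => hne (List.ofFn_injective h)

theorem card_fam {u b : G} (hb : b ∈ D.A) (hxb : D.x b ≠ 0) {i : I} (hu : 1 < D.v i (D.χ u))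
    (s n : ℕ) : (fam u b s n).card = 2 ^ n := by
  classical
  rw [fam, Finset.card_image_of_injective]
  · simp
  · intro ε ε' h
    by_contra hne
    have h1 := D.fam_sep hb hu (s := s) hne
    simp only at h
    rw [h, sub_self, (D.v i).map_zero] at h1
    have h2 : 0 < D.v i (D.χ u) ^ s * D.v i (D.x b) :=
      mul_pos (pow_pos (by linarith) _) ((D.v i).pos hxb)
    linarith

theorem growth [DecidableEq I] (C : Combing G) {b : G} (hb : b ∈ D.A) (hxb : D.x b ≠ 0)
    {u : I → G} (hu : ∀ i, 1 < D.v i (D.χ (u i)))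
    (hu' : ∀ i i', i' ≠ i → D.v i' (D.χ (u i)) ≤ 1)
    {R : I → ℝ} (hR : ∀ i, 1 ≤ R i) {a : I → ℝ} (ha : ∀ i, D.v i (D.x b) < a i)
    {bk : ℕ → Fin r → G} {c1 : ℕ} (hbk : ∀ n, 1 ≤ n → ∀ k, bk n k ∈ D.A ∧
      C.len (bk n k) ≤ c1 * n ∧ ∀ i, D.v i (D.x (bk n k)) < a i * R i ^ n)
    {c δ : ℝ} (hc : 0 < c)
    (hdet : ∀ᶠ n : ℕ in Filter.atTop, c * δ ^ n ≤
      ‖Matrix.det (Matrix.of fun k k' => D.e k (D.x (bk n k')))‖)
    (hgrow : 1 < δ * ∏ i, R i ^ D.lam i) : False := by
  obtain ⟨B, N, hB, hobs⟩ := D.obstruction C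
  have hvb : ∀ i, 0 < D.v i (D.x b) := fun i => (D.v i).pos hxb
  have ha0 : ∀ i, 0 < a i := fun i => (hvb i).trans (ha i)
  have hR0 : ∀ i, 0 < R i := fun i => by linarith [hR i]
  -- scale
  have hK : ∃ K : ℕ, 1 ≤ K ∧ ∀ i, ∀ n, 1 ≤ n →
      a i * R i ^ n ≤ D.v i (D.χ (u i)) ^ (K * n) * D.v i (D.x b) := by
    have h1 : ∀ i, ∃ K : ℕ, R i * (a i / D.v i (D.x b)) ≤ D.v i (D.χ (u i)) ^ K := by
      intro i
      obtain ⟨K, hK⟩ := pow_unbounded_of_one_lt (R i * (a i / D.v i (D.x b))) (hu i)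
      exact ⟨K, hK.le⟩
    choose K hK using h1
    refine ⟨∑ i, K i + 1, by omega, ?_⟩
    intro i n hn
    have h2 : K i ≤ ∑ i, K i + 1 := by
      have := Finset.single_le_sum (f := K) (fun _ _ => Nat.zero_le _) (Finset.mem_univ i)
      omega
    have h3 : R i * (a i / D.v i (D.x b)) ≤ D.v i (D.χ (u i)) ^ (∑ i, K i + 1) :=
      (hK i).trans (pow_le_pow_right₀ (hu i).le h2)
    have h4 : 1 ≤ a i / D.v i (D.x b) := by
      rw [le_div_iff₀ (hvb i), one_mul]
      exact (ha i).le
    have h5 : (R i * (a i / D.v i (D.x b))) ^ n ≤ (D.v i (D.χ (u i)) ^ (∑ i, K i + 1)) ^ n :=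
      pow_le_pow_left₀ (mul_nonneg (hR0 i).le (div_nonneg (ha0 i).le (hvb i).le)) h3 n
    rw [← pow_mul] at h5
    calc a i * R i ^ n = R i ^ n * (a i / D.v i (D.x b)) * D.v i (D.x b) := by
          have := (hvb i).ne'
          field_simp
      _ ≤ R i ^ n * (a i / D.v i (D.x b)) ^ n * D.v i (D.x b) := by
          apply mul_le_mul_of_nonneg_right _ (hvb i).le
          apply mul_le_mul_of_nonneg_left _ (pow_nonneg (hR0 i).le _)
          exact le_self_pow₀ h4 (by omega)
      _ = (R i * (a i / D.v i (D.x b))) ^ n * D.v i (D.x b) := by rw [mul_pow]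
      _ ≤ _ := mul_le_mul_of_nonneg_right h5 (hvb i).le
  obtain ⟨K, hK1, hK⟩ := hK
  -- lengths
  set c2 : ℕ := c1 + ∑ i, (C.len b + 2 * C.len (u i) + 2 * (K * C.len (u i))) + 1 with hc2
  set Λ : ℝ := δ * ∏ i, R i ^ D.lam i with hΛ
  set a' : ℝ := c * ∏ i, (a i) ^ (D.lam i) with ha'
  have ha'pos : 0 < a' := mul_pos hc (Finset.prod_pos (fun i _ => Real.rpow_pos_of_pos (ha0 i) _))
  have hc2pos : (0 : ℝ) < c2 := by rw [hc2]; positivity
  -- for all n
  have hmain : ∀ n : ℕ, 1 ≤ n → B * ((c2 * n : ℕ) : ℝ) ^ N < 2 ^ n →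
      c * δ ^ n ≤ ‖Matrix.det (Matrix.of fun k k' => D.e k (D.x (bk n k')))‖ →
      a' * Λ ^ n ≤ B * ((c2 * n : ℕ) : ℝ) ^ N := by
    intro n hn hbig hdetn
    have hρpos : ∀ i, 0 < a i * R i ^ n := fun i => mul_pos (ha0 i) (pow_pos (hR0 i) _)
    have h1 := hobs (c2 * n) (Nat.mul_pos (by omega) (by omega)) (fun i => a i * R i ^ n) hρpos (bk n)
      (fun k => ⟨(hbk n hn k).1, (hbk n hn k).2.1.trans
        (Nat.mul_le_mul_right _ (by omega)), (hbk n hn k).2.2⟩)
      (fun i => fam (u i) b (K * n) n) ?_ ?_ ?_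
    · refine le_trans ?_ h1
      have h2 : ∏ i, (a i * R i ^ n) ^ (D.lam i) =
          (∏ i, (a i) ^ (D.lam i)) * (∏ i, R i ^ D.lam i) ^ n := by
        rw [← Finset.prod_pow, ← Finset.prod_mul_distrib]
        apply Finset.prod_congr rfl
        intro i _
        rw [Real.mul_rpow (ha0 i).le (pow_nonneg (hR0 i).le _), ← Real.rpow_natCast,
          ← Real.rpow_natCast, ← Real.rpow_mul (hR0 i).le, ← Real.rpow_mul (hR0 i).le,
          mul_comm (n : ℝ)]
      rw [h2]
      have h3 : 0 < (∏ i, (a i) ^ (D.lam i)) * (∏ i, R i ^ D.lam i) ^ n := by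
        apply mul_pos (Finset.prod_pos (fun i _ => Real.rpow_pos_of_pos (ha0 i) _))
        exact pow_pos (Finset.prod_pos (fun i _ => Real.rpow_pos_of_pos (hR0 i) _)) _
      calc a' * Λ ^ n = c * δ ^ n * ((∏ i, (a i) ^ (D.lam i)) * (∏ i, R i ^ D.lam i) ^ n) := by
            rw [ha', hΛ, mul_pow]; ring
        _ ≤ _ := mul_le_mul_of_nonneg_right hdetn h3.le
    · intro i g hg
      obtain ⟨ε, rfl⟩ := mem_fam.mp hg
      refine ⟨D.normal.conj_mem _ (D.hw_mem hb _) _, ?_, ?_⟩
      · have h2 := C.len_conj (u i ^ (K * n)) (hw (u i) b (List.ofFn ε))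
        have h3 := C.len_hw (u i) b (List.ofFn ε)
        have h4 := C.len_pow (u i) (K * n)
        rw [List.length_ofFn] at h3
        have h5 : (C.len b + 2 * C.len (u i) + 2 * (K * C.len (u i))) ≤
            ∑ i, (C.len b + 2 * C.len (u i) + 2 * (K * C.len (u i))) :=
          Finset.single_le_sum (f := fun i => C.len b + 2 * C.len (u i) + 2 * (K * C.len (u i)))
            (fun _ _ => Nat.zero_le _) (Finset.mem_univ i)
        have h6 : n * (C.len b + 2 * C.len (u i)) + 2 * (K * n * C.len (u i)) ≤ c2 * n := by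
          calc n * (C.len b + 2 * C.len (u i)) + 2 * (K * n * C.len (u i))
              = (C.len b + 2 * C.len (u i) + 2 * (K * C.len (u i))) * n := by ring
            _ ≤ c2 * n := Nat.mul_le_mul_right _ (by omega)
        omega
      · intro i' hi'
        rw [D.x_conj (D.hw_mem hb _), map_pow, (D.v i').map_mul, map_pow]
        calc D.v i' (D.χ (u i)) ^ (K * n) * D.v i' (D.x (hw (u i) b (List.ofFn ε)))
            ≤ 1 * D.v i' (D.x b) := by
              apply mul_le_mul _ (D.v_x_hw_le hb (hu' i i' hi') _) ((D.v i').nonneg _) zero_le_one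
              exact pow_le_one₀ ((D.v i').nonneg _) (hu' i i' hi')
          _ = D.v i' (D.x b) := one_mul _
          _ < a i' := ha i'
          _ ≤ a i' * R i' ^ n := le_mul_of_one_le_right (ha0 i').le (one_le_pow₀ (hR i'))
    · intro i g hg g' hg' hne
      obtain ⟨ε, rfl⟩ := mem_fam.mp hg
      obtain ⟨ε', rfl⟩ := mem_fam.mp hg'
      have hε : ε ≠ ε' := by
        rintro rfl
        exact hne rfl
      exact (hK i n hn).trans (D.fam_sep hb (hu i) hε)
    · intro i
      rw [D.card_fam hb hxb (hu i)]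
      push_cast at hbig ⊢
      exact hbig
  -- asymptotics
  have hΛ1 : 1 < Λ := hgrow
  have hlim : ∀ ρ : ℝ, 1 < ρ → ∀ ε : ℝ, 0 < ε →
      ∀ᶠ n : ℕ in Filter.atTop, B * ((c2 * n : ℕ) : ℝ) ^ N < ε * ρ ^ n := by
    intro ρ hρ ε hε
    have h1 := tendsto_pow_const_div_const_pow_of_one_lt N hρ
    have h2 : ∀ᶠ n : ℕ in Filter.atTop, (n : ℝ) ^ N / ρ ^ n < ε / (B * (c2 : ℝ) ^ N) :=
      h1.eventually (gt_mem_nhds (by positivity))
    filter_upwards [h2] with n hn
    have hρn : 0 < ρ ^ n := by positivity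
    rw [div_lt_div_iff₀ hρn (by positivity)] at hn
    push_cast
    rw [mul_pow]
    linarith
  obtain ⟨n, hn1, hn2, hn3, hn4⟩ := ((hlim 2 one_lt_two 1 one_pos).and
    ((hlim Λ hΛ1 a' ha'pos).and ((Filter.eventually_ge_atTop 1).and hdet))).exists
  rw [one_mul] at hn1
  have := hmain n hn3 hn1 hn4
  linarith

end Datum

end Pool.Agent.Lib.MP_59c382_al
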