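import Pool.Agent.Lib.MP_59c382_al.PartD

/-!
# Main theorem of part D
-/

set_option autoImplicit false
set_option linter.unusedSectionVars false

namespace Pool.Agent.Lib.MP_59c382_al

namespace Aut

variable {G : Type*} [Group G] (S : Aut G)

section family

variable {σ' : Type*} [Fintype σ'] [DecidableEq σ'] {M : DFA (Fin S.n) σ'} (D : LoopData M)

/-- cyclic states on a skeleton -/
noncomputable def visK (M : DFA (Fin S.n) σ') (Ks : List (List (Fin S.n))) : Finset σ' :=
  open Classical in (sts M M.start Ks).filter (fun q => Cyc M q)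

theorem mem_visK {Ks : List (List (Fin S.n))} {q : σ'} :
    q ∈ S.visK M Ks ↔ q ∈ sts M M.start Ks ∧ Cyc M q := by
  classical
  rw [visK, Finset.mem_filter]

/-- extension of the exponents by zero -/
noncomputable def extm {s : Finset σ'} (m : s → ℕ) (q : σ') : ℕ :=
  if h : q ∈ s then m ⟨q, h⟩ else 0

theorem extm_mem {s : Finset σ'} (m : s → ℕ) (j : s) : extm m j.1 = m j := by
  rw [extm, dif_pos j.2]

theorem extm_add_single {s : Finset σ'} (m : s → ℕ) (j : s) (c : ℕ) :
    extm (m + Pi.single j c) = extm m + Pi.single j.1 c := by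
  funext q
  by_cases hq : q ∈ s
  · by_cases hqj : (⟨q, hq⟩ : s) = j
    · subst hqj
      rw [extm, dif_pos hq, Pi.add_apply, Pi.add_apply, Pi.single_eq_same, Pi.single_eq_same,
        extm, dif_pos hq]
    · have : q ≠ j.1 := fun h => hqj (Subtype.ext h)
      rw [extm, dif_pos hq, Pi.add_apply, Pi.add_apply, Pi.single_eq_of_ne hqj,
        Pi.single_eq_of_ne this, extm, dif_pos hq]
  · have : q ≠ j.1 := fun h => hq (h ▸ j.2)
    rw [extm, dif_neg hq, Pi.add_apply, Pi.single_eq_of_ne this, extm, dif_neg hq, add_zero]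

/-- a reduced accepted skeleton -/
structure Skel (D : LoopData M) where
  /-- blocks -/
  Ks : List (List (Fin S.n))
  /-- tail -/
  t : List (Fin S.n)
  rd : LoopData.Rd M M.start Ks
  len : ∀ B ∈ Ks, B.length = D.P
  tlen : t.length < D.P
  acc : M.evalFrom M.start (Ks.flatten ++ t) ∈ M.accept

variable {D}
variable (κ : S.Skel D)

theorem Skel.gd : Gd M D.P M.start κ.Ks := ⟨⟨[], rfl⟩, ⟨κ.t, κ.acc⟩, κ.len⟩

theorem Skel.live {q : σ'} (hq : q ∈ sts M M.start κ.Ks) : Live M q := by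
  obtain ⟨B1, B2, h1, h2⟩ := exists_split_of_mem_sts M hq
  have hgd := κ.gd
  rw [h1] at hgd
  have := D.gd_split hgd
  rw [h2] at this
  exact D.gd_live this

theorem Skel.adm (m : S.visK M κ.Ks → ℕ) : D.Adm (extm m) := by
  intro q hq
  have hmem : q ∈ S.visK M κ.Ks := by
    by_contra hcon
    exact hq (by rw [extm, dif_neg hcon])
  rw [S.mem_visK] at hmem
  have hlive := κ.live S hmem.1
  exact ⟨D.z_loop q hlive hmem.2, D.z_len q hlive hmem.2⟩

/-- the word of the family -/
noncomputable def Skel.wd (m : S.visK M κ.Ks → ℕ) : List (List (Fin S.n)) :=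
  D.ins (extm m) M.start κ.Ks

/-- the family -/
noncomputable def Skel.γ (m : S.visK M κ.Ks → ℕ) : G := S.ev ((κ.wd S m).flatten ++ κ.t)

theorem Skel.mem (hM : M.accepts = S.NF) (m : S.visK M κ.Ks → ℕ) :
    (κ.wd S m).flatten ++ κ.t ∈ S.NF := by
  rw [S.mem_NF_iff hM, DFA.evalFrom_of_append, wd, D.evalFrom_ins (κ.adm S m),
    ← DFA.evalFrom_of_append]
  exact κ.acc

theorem Skel.bl_tl (hM : M.accepts = S.NF) (m : S.visK M κ.Ks → ℕ) :
    S.bl D (κ.γ S m) = κ.wd S m ∧ S.tl D (κ.γ S m) = κ.t :=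
  S.bl_tl_of D (κ.mem S hM m) rfl (D.ins_length_blocks (κ.adm S m) κ.len) κ.tlen

theorem Skel.nf_γ (hM : M.accepts = S.NF) (m : S.visK M κ.Ks → ℕ) :
    S.nf (κ.γ S m) = (κ.wd S m).flatten ++ κ.t := S.nf_ev (κ.mem S hM m)

theorem Skel.cnt_γ (hM : M.accepts = S.NF) (m : S.visK M κ.Ks → ℕ) (j : S.visK M κ.Ks) :
    cnt M M.start (S.bl D (κ.γ S m)) j.1 = m j := by
  rw [(κ.bl_tl S hM m).1, wd, D.cnt_ins (κ.adm S m) κ.rd]
  have hj := (S.mem_visK.mp j.2).1
  simp only [if_pos hj]
  exact extm_mem m j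

theorem Skel.γ_inj (hM : M.accepts = S.NF) : Function.Injective (κ.γ S) := by
  intro m m' h
  funext j
  rw [← κ.cnt_γ S hM m j, ← κ.cnt_γ S hM m' j, h]

/-- the form of the words of the family along one direction -/
theorem Skel.split (m : S.visK M κ.Ks → ℕ) (j : S.visK M κ.Ks) :
    ∃ B1 B3 : List (List (Fin S.n)), M.evalFrom M.start B1.flatten = j.1 ∧
      (∀ B ∈ B1, B.length = D.P) ∧
      ∀ c : ℕ, κ.wd S (m + Pi.single j c) =
        B1 ++ List.replicate (m j + c) (D.z j.1) ++ B3 := by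
  obtain ⟨B1, B3, h1, h2⟩ := D.ins_split (κ.adm S m) κ.rd (S.mem_visK.mp j.2).1
  refine ⟨B1, B3, h1, ?_, ?_⟩
  · intro B hB
    have h3 := D.ins_length_blocks (κ.adm S (m + Pi.single j 0)) (q := M.start) κ.len
    rw [extm_add_single, h2 0] at h3
    exact h3 B (by simp [hB])
  · intro c
    rw [wd, extm_add_single, h2 c, extm_mem]

theorem take_flatten {P : ℕ} {Bs : List (List (Fin S.n))} (hB : ∀ B ∈ Bs, B.length = P)
    (t : List (Fin S.n)) {T : ℕ} (hT : T ≤ Bs.length) :
    (Bs.flatten ++ t).take (T * P) = (Bs.take T).flatten := by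
  have h1 : Bs.flatten ++ t = (Bs.take T).flatten ++ ((Bs.drop T).flatten ++ t) := by
    rw [← List.append_assoc, ← List.flatten_append, List.take_append_drop]
  have h2 : (Bs.take T).flatten.length = T * P := by
    rw [length_flatten_of (P := P) (fun B hB' => hB B (List.mem_of_mem_take hB')),
      List.length_take, min_eq_left hT]
  rw [h1, List.take_left' h2]

/-- **The insertion step.** -/
theorem Skel.step (hM : M.accepts = S.NF) {e : ℕ} (he : 0 < e)
    (hRP : ∀ x y : G, ∀ c : ℕ, 0 < c → x ^ c = y ^ c → x ^ e = y ^ e)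
    (hz : ∀ q, Live M q → Cyc M q → ∃ y : G, S.ev (D.z q) = y ^ e) (δ : G) :
    ∃ m₀ : ℕ, ∀ m : S.visK M κ.Ks → ℕ, (∀ j, m₀ ≤ m j) → ∀ j,
      ∃ (T : ℕ) (q : σ'), T ≤ (S.bl D (κ.γ S m * δ)).length ∧
        M.evalFrom M.start ((S.bl D (κ.γ S m * δ)).take T).flatten = q ∧ Cyc M q ∧ Live M q ∧
        S.bl D (κ.γ S (m + Pi.single j 1) * δ) =
          (S.bl D (κ.γ S m * δ)).take T ++ D.z q :: (S.bl D (κ.γ S m * δ)).drop T ∧
        S.tl D (κ.γ S (m + Pi.single j 1) * δ) = S.tl D (κ.γ S m * δ) := by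
  classical
  obtain ⟨R, hR⟩ := S.nf_fellow δ
  have hfin : Finite {g | Bl S.s R g} := finite_Bl R
  refine ⟨Nat.card (σ' × Bool × {g | Bl S.s R g}), ?_⟩
  intro m hm j
  set v := S.nf (κ.γ S m * δ) with hv
  set Bs := S.bl D (κ.γ S m * δ) with hBs
  set t := S.tl D (κ.γ S m * δ) with ht
  have hveq : v = Bs.flatten ++ t := S.nf_eq D _
  have hBlen : ∀ B ∈ Bs, B.length = D.P := S.bl_length D _
  have htlen : t.length < D.P := S.tl_length D _
  obtain ⟨B1, B3, hB1, hB1len, hsplit⟩ := κ.split S m j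
  set a₀ := B1.length with ha₀
  set ζ := S.ev (D.z j.1) with hζ
  have hjvis := S.mem_visK.mp j.2
  have hjlive := κ.live S hjvis.1
  have hzlen : (D.z j.1).length = D.P := D.z_len _ hjlive hjvis.2
  -- the word of `γ m`
  have hw : S.nf (κ.γ S m) = (B1 ++ List.replicate (m j) (D.z j.1) ++ B3).flatten ++ κ.t := by
    have h1 := hsplit 0
    rw [Pi.single_zero, add_zero, add_zero] at h1
    rw [κ.nf_γ S hM, h1]
  have hwlen : ∀ B ∈ B1 ++ List.replicate (m j) (D.z j.1) ++ B3, B.length = D.P := by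
    have h1 := hsplit 0
    rw [Pi.single_zero, add_zero, add_zero] at h1
    rw [← h1, ← (κ.bl_tl S hM m).1]
    exact S.bl_length D _
  have hγc : ∀ c : ℕ, κ.γ S (m + Pi.single j c) =
      S.ev B1.flatten * ζ ^ (m j + c) * S.ev (B3.flatten ++ κ.t) := by
    intro c
    rw [Skel.γ, hsplit c, List.flatten_append, List.flatten_append, List.append_assoc,
      List.append_assoc, ev_append, ev_append, S.ev_replicate, mul_assoc]
  have htake : ∀ i ≤ m j, S.ev ((S.nf (κ.γ S m)).take ((a₀ + i) * D.P)) =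
      S.ev B1.flatten * ζ ^ i := by
    intro i hi
    rw [hw, S.take_flatten hwlen _ (by simp; omega)]
    have h1 : (B1 ++ List.replicate (m j) (D.z j.1) ++ B3).take (a₀ + i) =
        B1 ++ List.replicate i (D.z j.1) := by
      rw [List.append_assoc, List.take_append, List.take_of_length_le (by omega)]
      congr 1
      rw [show a₀ + i - B1.length = i by omega, List.take_append_of_le_length (by simpa using hi),
        List.take_replicate, min_eq_left hi]
    rw [h1, List.flatten_append, ev_append, S.ev_replicate]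
  -- pigeonhole
  let φ : Fin (m j + 1) → σ' × Bool × {g | Bl S.s R g} := fun i =>
    (M.evalFrom M.start (v.take ((a₀ + i) * D.P)), decide ((a₀ + i) * D.P ≤ v.length),
      ⟨_, hR (κ.γ S m) ((a₀ + i) * D.P)⟩)
  obtain ⟨i₁, i₂, hlt, heq⟩ : ∃ i₁ i₂ : Fin (m j + 1), i₁ < i₂ ∧ φ i₁ = φ i₂ := by
    have hnot : ¬ Function.Injective φ := by
      intro hinj
      have h1 := Nat.card_le_card_of_injective φ hinj
      rw [Nat.card_eq_fintype_card (α := Fin (m j + 1)), Fintype.card_fin] at h1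
      have := hm j
      omega
    rw [Function.not_injective_iff] at hnot
    obtain ⟨a, b, hab, hne⟩ := hnot
    rcases lt_or_gt_of_ne hne with h | h
    · exact ⟨a, b, h, hab⟩
    · exact ⟨b, a, h, hab.symm⟩
  have hst : M.evalFrom M.start (v.take ((a₀ + i₁) * D.P)) =
      M.evalFrom M.start (v.take ((a₀ + i₂) * D.P)) := congrArg Prod.fst heq
  have hfl : decide ((a₀ + (i₁ : ℕ)) * D.P ≤ v.length) =
      decide ((a₀ + (i₂ : ℕ)) * D.P ≤ v.length) := congrArg (fun p => p.2.1) heq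
  have hdd : (S.ev ((S.nf (κ.γ S m)).take ((a₀ + i₁) * D.P)))⁻¹ * S.ev (v.take ((a₀ + i₁) * D.P)) =
      (S.ev ((S.nf (κ.γ S m)).take ((a₀ + i₂) * D.P)))⁻¹ * S.ev (v.take ((a₀ + i₂) * D.P)) :=
    congrArg (fun p => (p.2.2 : G)) heq
  have hi₁ : (i₁ : ℕ) ≤ m j := by have := i₁.2; omega
  have hi₂ : (i₂ : ℕ) ≤ m j := by have := i₂.2; omega
  have hlt' : (i₁ : ℕ) < i₂ := hlt
  obtain ⟨c, hc⟩ : ∃ c, (i₂ : ℕ) = i₁ + c := ⟨i₂ - i₁, by omega⟩
  have hcpos : 0 < c := by omega
  rw [htake _ hi₁, htake _ hi₂] at hdd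
  set e₁ := S.ev B1.flatten with he₁
  by_cases hflag : (a₀ + (i₂ : ℕ)) * D.P ≤ v.length
  · -- both words are running
    have hT₂ : a₀ + (i₂ : ℕ) ≤ Bs.length := by
      by_contra hcon
      rw [not_le] at hcon
      have h1 : v.length = Bs.length * D.P + t.length := by
        rw [hveq, List.length_append, length_flatten_of hBlen]
      have h2 : (Bs.length + 1) * D.P ≤ (a₀ + (i₂ : ℕ)) * D.P := Nat.mul_le_mul_right _ hcon
      rw [Nat.succ_mul] at h2
      omega
    have hT₁ : a₀ + (i₁ : ℕ) ≤ Bs.length := by omega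
    set X := Bs.take (a₀ + i₁) with hX
    set Y := (Bs.drop (a₀ + i₁)).take c with hY
    have hXY : Bs.take (a₀ + i₂) = X ++ Y := by
      rw [hX, hY, hc, ← add_assoc, List.take_add]
    have htX : v.take ((a₀ + i₁) * D.P) = X.flatten := by
      rw [hveq, S.take_flatten hBlen t hT₁]
    have htXY : v.take ((a₀ + i₂) * D.P) = X.flatten ++ Y.flatten := by
      rw [hveq, S.take_flatten hBlen t hT₂, hXY, List.flatten_append]
    set q := M.evalFrom M.start X.flatten with hq
    have hYlen : Y.length = c := by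
      rw [hY, List.length_take, List.length_drop]
      omega
    have hYloop : M.evalFrom q Y.flatten = q := by
      rw [hq, ← DFA.evalFrom_of_append, ← htXY, ← hst, htX]
    have hYfl : Y.flatten.length = c * D.P := by
      rw [length_flatten_of (P := D.P), hYlen]
      intro B hB
      exact hBlen B (List.mem_of_mem_drop (List.mem_of_mem_take hB))
    have hYne : Y.flatten ≠ [] := by
      intro h0
      rw [h0] at hYfl
      have := Nat.mul_pos hcpos D.P_pos
      simp only [List.length_nil] at hYfl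
      omega
    have hgd : Gd M D.P M.start (X ++ Bs.drop (a₀ + i₁)) := by
      rw [hX, List.take_append_drop]
      exact S.gd_bl D hM _
    have hqlive : Live M q := D.gd_live (D.gd_split hgd)
    have hqcyc : Cyc M q := ⟨_, hYne, hYloop⟩
    have hYeq : Y.flatten = (List.replicate c (D.z q)).flatten :=
      D.loop_eq hqlive hYne hYloop hYfl
    set ζ' := S.ev (D.z q) with hζ'
    set d := (e₁ * ζ ^ (i₁ : ℕ))⁻¹ * S.ev X.flatten with hd
    have hevX : S.ev X.flatten = e₁ * ζ ^ (i₁ : ℕ) * d := by rw [hd, mul_inv_cancel_left]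
    have hcomm : ζ ^ c * d = d * ζ' ^ c := by
      rw [htX, htXY, ev_append, hYeq, S.ev_replicate, ← hd] at hdd
      have h1 : e₁ * ζ ^ (i₂ : ℕ) * d = S.ev X.flatten * ζ' ^ c := by
        rw [hdd, mul_inv_cancel_left]
      rw [hevX, hc, pow_add] at h1
      clear_value d
      have h2 : e₁ * ζ ^ (i₁ : ℕ) * (ζ ^ c * d) = e₁ * ζ ^ (i₁ : ℕ) * (d * ζ' ^ c) := by
        simp only [mul_assoc] at h1 ⊢
        exact h1
      exact mul_left_cancel h2
    have hcomm1 : ζ * d = d * ζ' := by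
      obtain ⟨y, hy⟩ := hz _ hjlive hjvis.2
      obtain ⟨y', hy'⟩ := hz _ hqlive hqcyc
      have h1 : (d⁻¹ * y * d) ^ (e * c) = y' ^ (e * c) := by
        have h2 : (d⁻¹ * y * d) ^ (e * c) = d⁻¹ * y ^ (e * c) * d := by
          have := conj_pow (a := d⁻¹) (b := y) (i := e * c)
          rwa [inv_inv] at this
        rw [h2, pow_mul, pow_mul, ← hy, ← hy', ← hζ, ← hζ', mul_assoc, hcomm,
          inv_mul_cancel_left]
      have h3 := hRP _ _ _ (Nat.mul_pos he hcpos) h1
      have h4 : (d⁻¹ * y * d) ^ e = d⁻¹ * y ^ e * d := by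
        have := conj_pow (a := d⁻¹) (b := y) (i := e)
        rwa [inv_inv] at this
      rw [h4, ← hy, ← hy', ← hζ, ← hζ', mul_assoc, inv_mul_eq_iff_eq_mul] at h3
      exact h3
    -- the new word
    have hnewacc : (X ++ D.z q :: Bs.drop (a₀ + i₁)).flatten ++ t ∈ S.NF := by
      have h1 := S.nf_mem (κ.γ S m * δ)
      rw [← hv, hveq, S.mem_NF_iff hM] at h1
      rw [S.mem_NF_iff hM]
      have h2 : Bs.flatten ++ t = X.flatten ++ ((Bs.drop (a₀ + i₁)).flatten ++ t) := by
        rw [← List.append_assoc, ← List.flatten_append, hX, List.take_append_drop]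
      rw [h2, DFA.evalFrom_of_append, ← hq] at h1
      rw [List.flatten_append, List.flatten_cons, List.append_assoc, List.append_assoc,
        DFA.evalFrom_of_append, ← hq, DFA.evalFrom_of_append, D.z_loop q hqlive hqcyc]
      exact h1
    have hnewev : S.ev ((X ++ D.z q :: Bs.drop (a₀ + i₁)).flatten ++ t) =
        κ.γ S (m + Pi.single j 1) * δ := by
      have h1 : S.ev (X.flatten) * S.ev ((Bs.drop (a₀ + i₁)).flatten ++ t) = κ.γ S m * δ := by
        rw [← ev_append, ← List.append_assoc, ← List.flatten_append, hX, List.take_append_drop,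
          ← hveq, hv, S.ev_nf]
      have h2 := hγc 0
      rw [Pi.single_zero, add_zero, add_zero] at h2
      have h3 := hγc 1
      have h4 : κ.γ S (m + Pi.single j 1) = e₁ * ζ * e₁⁻¹ * κ.γ S m := by
        rw [h3, h2, pow_succ']
        group
      have h5 : S.ev ((Bs.drop (a₀ + i₁)).flatten ++ t) = (S.ev X.flatten)⁻¹ * (κ.γ S m * δ) := by
        rw [← h1, inv_mul_cancel_left]
      rw [List.flatten_append, List.flatten_cons, List.append_assoc, List.append_assoc,
        ev_append, ev_append, h5, ← hζ', h4, hevX]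
      have h6 : ζ' = d⁻¹ * ζ * d := by
        rw [mul_assoc, hcomm1, inv_mul_cancel_left]
      rw [h6]
      have h7 : ζ ^ (i₁ : ℕ) * ζ = ζ * ζ ^ (i₁ : ℕ) := by rw [← pow_succ, ← pow_succ']
      calc e₁ * ζ ^ (i₁ : ℕ) * d * (d⁻¹ * ζ * d * ((e₁ * ζ ^ (i₁ : ℕ) * d)⁻¹ * (κ.γ S m * δ)))
          = e₁ * (ζ ^ (i₁ : ℕ) * ζ) * (ζ ^ (i₁ : ℕ))⁻¹ * e₁⁻¹ * κ.γ S m * δ := by group
        _ = e₁ * (ζ * ζ ^ (i₁ : ℕ)) * (ζ ^ (i₁ : ℕ))⁻¹ * e₁⁻¹ * κ.γ S m * δ := by rw [h7]
        _ = e₁ * ζ * e₁⁻¹ * κ.γ S m * δ := by group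
    have hnewlen : ∀ B ∈ X ++ D.z q :: Bs.drop (a₀ + i₁), B.length = D.P := by
      intro B hB
      rcases List.mem_append.mp hB with h | h
      · exact hBlen B (List.mem_of_mem_take h)
      · rcases List.mem_cons.mp h with rfl | h
        · exact D.z_len q hqlive hqcyc
        · exact hBlen B (List.mem_of_mem_drop h)
    obtain ⟨h1, h2⟩ := S.bl_tl_of D hnewacc hnewev hnewlen htlen
    exact ⟨a₀ + i₁, q, hT₁, rfl, hqcyc, hqlive, h1, h2⟩
  · -- the word has ended
    exfalso
    have hflag' : ¬ ((a₀ + (i₁ : ℕ)) * D.P ≤ v.length) := by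
      intro h
      rw [decide_eq_true h, decide_eq_false hflag] at hfl
      exact Bool.noConfusion hfl
    rw [List.take_of_length_le (by omega), List.take_of_length_le (l := v) (by omega)] at hdd
    have h1 := mul_right_cancel hdd
    have h2 := inv_injective h1
    have h3 : ζ ^ (i₁ : ℕ) = ζ ^ (i₂ : ℕ) := mul_left_cancel h2
    have h4 : ζ ^ c = 1 := by
      rw [hc, pow_add] at h3
      exact (mul_eq_left.mp h3.symm)
    have h5 : κ.γ S (m + Pi.single j c) = κ.γ S (m + Pi.single j 0) := by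
      rw [hγc, hγc, pow_add, h4, add_zero, mul_one]
    have h6 := κ.γ_inj S hM h5
    have h7 := congrFun (add_left_cancel h6) j
    rw [Pi.single_eq_same, Pi.single_eq_same] at h7
    omega

end family

end Aut

end Pool.Agent.Lib.MP_59c382_al
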