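import Pool.Agent.Lib.MP_59c382_al.MainD

/-!
# Automatic groups with a positive law and the root property are virtually abelian
-/

set_option autoImplicit false
set_option linter.unusedSectionVars false

namespace Pool.Agent.Lib.MP_59c382_al

namespace Aut

variable {G : Type*} [Group G] (S : Aut G)

theorem finite_lists {α : Type*} [Finite α] (n P : ℕ) :
    {Ks : List (List α) | Ks.length ≤ n ∧ ∀ B ∈ Ks, B.length = P}.Finite := by
  have h1 : Finite {B : List α | B.length ≤ P} := List.finite_length_le _ P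
  have h2 : ({Ks : List {B : List α | B.length ≤ P} | Ks.length ≤ n}).Finite :=
    List.finite_length_le _ n
  apply (h2.image (fun Ks : List {B : List α | B.length ≤ P} => Ks.map Subtype.val)).subset
  rintro Ks ⟨h3, h4⟩
  refine ⟨Ks.attach.map (fun B => ⟨B.1, (h4 B.1 B.2).le⟩), ?_, ?_⟩
  · simpa using h3
  · show List.map _ (List.map _ _) = Ks
    rw [List.map_map]
    exact List.attach_map_subtype_val Ks

include S in
/-- **Main theorem of part D.** -/
theorem partD {k m : ℕ} (hk : 0 < k)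
    (hPL : ∀ x y : G, (XY (x ^ k) (y ^ k) m).1 = (XY (x ^ k) (y ^ k) m).2)
    {e : ℕ} (he : 0 < e) (hRP : ∀ x y : G, ∀ c : ℕ, 0 < c → x ^ c = y ^ c → x ^ e = y ^ e) :
    ∃ H : Subgroup G, H.FiniteIndex ∧ ∀ x ∈ H, ∀ y ∈ H, x * y = y * x := by
  classical
  obtain ⟨σ', hσ', M, hM⟩ := S.NF_regular
  obtain ⟨D, hD⟩ := S.exists_loopData hM hk hPL he
  set Sk : G → List (List (Fin S.n)) × List (Fin S.n) :=
    fun g => (sk M M.start (S.bl D g), S.tl D g) with hSk
  set N : G → σ' → ℕ := fun g => cnt M M.start (S.bl D g) with hN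
  set vis : List (List (Fin S.n)) × List (Fin S.n) → Finset σ' := fun κ => S.visK M κ.1 with hvisdef
  have hfin : (Set.range Sk).Finite := by
    have h1 : ({Ks : List (List (Fin S.n)) | Ks.length ≤ Fintype.card σ' ∧
        ∀ B ∈ Ks, B.length = D.P}).Finite := finite_lists _ _
    have h2 : ({t : List (Fin S.n) | t.length ≤ D.P}).Finite := List.finite_length_le _ _
    apply (h1.prod h2).subset
    rintro _ ⟨g, rfl⟩
    refine ⟨⟨?_, D.sk_length_blocks (S.bl_length D g)⟩, (S.tl_length D g).le⟩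
    have h3 := D.length_sk_lt (S.gd_bl D hM g)
    have h4 := Finset.card_le_univ (sts M M.start (S.bl D g))
    show (sk M M.start (S.bl D g)).length ≤ _
    omega
  have hinj : ∀ g h, Sk g = Sk h → N g = N h → g = h := by
    intro g h h1 h2
    have h3 : sk M M.start (S.bl D g) = sk M M.start (S.bl D h) := congrArg Prod.fst h1
    have h4 : S.tl D g = S.tl D h := congrArg Prod.snd h1
    have h5 := D.sk_cnt_inj (S.gd_bl D hM g) (S.gd_bl D hM h) h3 h2
    rw [← S.ev_nf g, ← S.ev_nf h, S.nf_eq D g, S.nf_eq D h, h4, h5]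
  have hvis : ∀ g q, N g q ≠ 0 → q ∈ vis (Sk g) := by
    intro g q h
    obtain ⟨h1, B, hB, h2⟩ := cnt_ne_zero M h
    rw [hvisdef]
    show q ∈ S.visK M (sk M M.start (S.bl D g))
    rw [S.mem_visK, sts_sk]
    refine ⟨h1, B, ?_, h2⟩
    intro h0
    have h3 := S.bl_length D g B hB
    rw [h0] at h3
    have := D.P_pos
    simp only [List.length_nil] at h3
    omega
  obtain ⟨κ₀, ⟨g₀, hg₀⟩, hmax⟩ := Set.exists_max_image (Set.range Sk) (fun κ => (vis κ).card) hfin
    ⟨_, ⟨1, rfl⟩⟩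
  let κ : S.Skel D :=
    { Ks := sk M M.start (S.bl D g₀)
      t := S.tl D g₀
      rd := D.rd_sk (S.gd_bl D hM g₀)
      len := D.sk_length_blocks (S.bl_length D g₀)
      tlen := S.tl_length D g₀
      acc := by
        have h1 := S.nf_mem g₀
        rw [S.mem_NF_iff hM, S.nf_eq D, DFA.evalFrom_of_append] at h1
        rw [DFA.evalFrom_of_append, LoopData.evalFrom_sk]
        exact h1 }
  have hJ : ∀ g, (vis (Sk g)).card ≤ Fintype.card (S.visK M κ.Ks) := by
    intro g
    rw [Fintype.card_coe]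
    have := hmax (Sk g) ⟨g, rfl⟩
    rw [← hg₀] at this
    exact this
  refine abs_virtually_abelian (Sk := Sk) (N := N) (vis := vis) (J := S.visK M κ.Ks)
    (γ := κ.γ S) hfin hinj hvis hJ (κ.γ_inj S hM) ?_
  intro δ
  obtain ⟨m₀, hm₀⟩ := κ.step S hM he hRP hD δ
  refine ⟨m₀, fun m' hm' j => ?_⟩
  obtain ⟨T, q, hT, hq, hcyc, hlive, h1, h2⟩ := hm₀ m' hm' j
  refine ⟨q, ?_, ?_, ?_⟩
  · show q ∈ S.visK M (sk M M.start (S.bl D (κ.γ S m' * δ)))
    rw [S.mem_visK, sts_sk]
    refine ⟨?_, hcyc⟩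
    have h3 := mem_sts_append M (q := M.start) ((S.bl D (κ.γ S m' * δ)).take T)
      ((S.bl D (κ.γ S m' * δ)).drop T)
    rw [List.take_append_drop, hq] at h3
    exact h3
  · show (sk M M.start (S.bl D (κ.γ S (m' + Pi.single j 1) * δ)),
      S.tl D (κ.γ S (m' + Pi.single j 1) * δ)) =
      (sk M M.start (S.bl D (κ.γ S m' * δ)), S.tl D (κ.γ S m' * δ))
    rw [h1, h2, sk_insert, List.take_append_drop]
    rw [hq]
    exact D.z_loop q hlive hcyc
  · show cnt M M.start (S.bl D (κ.γ S (m' + Pi.single j 1) * δ)) =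
      cnt M M.start (S.bl D (κ.γ S m' * δ)) + Pi.single q 1
    rw [h1, cnt_insert, List.take_append_drop, hq]
    rw [hq]
    exact D.z_loop q hlive hcyc

end Aut

end Pool.Agent.Lib.MP_59c382_al
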