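import Pool.Agent.Lib.MP_59c382_al.Chains

/-!
# Supports and masses of chains
-/

set_option autoImplicit false

namespace Pool.Agent.Lib.MP_59c382_al

open Finsupp

variable {G : Type*}

/-- chains supported on the lists satisfying `P` -/
def On (P : List G → Prop) : Submodule ℤ (Ch G) := Finsupp.supported ℤ ℤ {l | P l}

theorem mem_On {P : List G → Prop} {z : Ch G} : z ∈ On P ↔ ∀ l ∈ z.support, P l := by
  rw [On, Finsupp.mem_supported]
  rfl

theorem single_mem_On {P : List G → Prop} {l : List G} (h : P l) (c : ℤ) : single l c ∈ On P := by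
  rw [mem_On]
  intro l' hl'
  have := Finsupp.support_single_subset hl'
  rw [Finset.mem_singleton] at this
  rwa [this]

theorem On_mono {P Q : List G → Prop} (h : ∀ l, P l → Q l) : On P ≤ On Q := by
  intro z hz
  rw [mem_On] at hz ⊢
  exact fun l hl => h l (hz l hl)

theorem ext_apply (φ : List G → Ch G) (z : Ch G) : ext φ z = ∑ l ∈ z.support, z l • φ l := by
  rw [ext, Finsupp.linearCombination_apply, Finsupp.sum]

theorem ext_mem_On {P Q : List G → Prop} {φ : List G → Ch G} (h : ∀ l, P l → φ l ∈ On Q)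
    {z : Ch G} (hz : z ∈ On P) : ext φ z ∈ On Q := by
  rw [ext_apply]
  apply Submodule.sum_mem
  intro l hl
  exact Submodule.smul_mem _ _ (h l (mem_On.mp hz l hl))

theorem jn_mem_On {P Q : List G → Prop} {g : G} (h : ∀ l, P l → Q (g :: l)) {z : Ch G}
    (hz : z ∈ On P) : jn g z ∈ On Q :=
  ext_mem_On (fun l hl => single_mem_On (h l hl) 1) hz

theorem vmap_mem_On {P Q : List G → Prop} {α : G → G} (h : ∀ l, P l → Q (l.map α)) {z : Ch G}
    (hz : z ∈ On P) : vmap α z ∈ On Q :=
  ext_mem_On (fun l hl => single_mem_On (h l hl) 1) hz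

/-- the mass of a chain -/
noncomputable def mass (z : Ch G) : ℕ := z.sum fun _ c => c.natAbs

theorem mass_eq_sum {z : Ch G} {s : Finset (List G)} (h : z.support ⊆ s) :
    mass z = ∑ l ∈ s, (z l).natAbs := by
  rw [mass, Finsupp.sum]
  apply Finset.sum_subset h
  intro l _ hl
  rw [Finsupp.notMem_support_iff.mp hl]
  rfl

theorem mass_zero : mass (0 : Ch G) = 0 := by simp [mass]

theorem mass_add (z w : Ch G) : mass (z + w) ≤ mass z + mass w := by
  classical
  rw [mass_eq_sum (Finsupp.support_add (g₁ := z) (g₂ := w)),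
    mass_eq_sum (Finset.subset_union_left (s₁ := z.support) (s₂ := w.support)),
    mass_eq_sum (Finset.subset_union_right (s₁ := z.support) (s₂ := w.support)),
    ← Finset.sum_add_distrib]
  apply Finset.sum_le_sum
  intro l _
  exact Int.natAbs_add_le _ _

theorem mass_neg (z : Ch G) : mass (-z) = mass z := by
  rw [mass, mass, Finsupp.sum, Finsupp.sum, Finsupp.support_neg]
  apply Finset.sum_congr rfl
  intro l _
  simp

theorem mass_sub (z w : Ch G) : mass (z - w) ≤ mass z + mass w := by
  rw [sub_eq_add_neg, ← mass_neg w]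
  exact mass_add _ _

theorem mass_single (l : List G) (c : ℤ) : mass (single l c) = c.natAbs := by
  rw [mass, Finsupp.sum_single_index]
  rfl

theorem mass_smul (c : ℤ) (z : Ch G) : mass (c • z) ≤ c.natAbs * mass z := by
  have h : (c • z).support ⊆ z.support := Finsupp.support_smul
  rw [mass_eq_sum h, mass_eq_sum (Finset.Subset.refl z.support), Finset.mul_sum]
  apply Finset.sum_le_sum
  intro l _
  rw [Finsupp.smul_apply, smul_eq_mul, Int.natAbs_mul]

theorem mass_sum {κ : Type*} (s : Finset κ) (f : κ → Ch G) :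
    mass (∑ i ∈ s, f i) ≤ ∑ i ∈ s, mass (f i) := by
  classical
  induction s using Finset.induction_on with
  | empty => simp [mass_zero]
  | insert a s ha ih =>
    rw [Finset.sum_insert ha, Finset.sum_insert ha]
    exact (mass_add _ _).trans (Nat.add_le_add_left ih _)

theorem mass_ext {φ : List G → Ch G} {B : ℕ} {z : Ch G} (h : ∀ l ∈ z.support, mass (φ l) ≤ B) :
    mass (ext φ z) ≤ B * mass z := by
  rw [ext_apply, mass_eq_sum (Finset.Subset.refl z.support), Finset.mul_sum]
  refine (mass_sum _ _).trans (Finset.sum_le_sum ?_)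
  intro l hl
  calc mass (z l • φ l) ≤ (z l).natAbs * mass (φ l) := mass_smul _ _
    _ ≤ (z l).natAbs * B := Nat.mul_le_mul_left _ (h l hl)
    _ = B * (z l).natAbs := Nat.mul_comm _ _

theorem mass_jn (g : G) (z : Ch G) : mass (jn g z) ≤ mass z := by
  have := mass_ext (φ := fun l => single (g :: l) 1) (B := 1) (z := z)
    (fun l _ => by rw [mass_single]; rfl)
  rwa [one_mul] at this

theorem mass_vmap (α : G → G) (z : Ch G) : mass (vmap α z) ≤ mass z := by
  have := mass_ext (φ := fun l => single (l.map α) 1) (B := 1) (z := z)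
    (fun l _ => by rw [mass_single]; rfl)
  rwa [one_mul] at this

theorem mass_prB (α β : G → G) (l : List G) : mass (prB α β l) ≤ l.length := by
  induction l with
  | nil => simp [prB, mass_zero]
  | cons g l ih =>
    rw [prB, List.length_cons]
    calc mass (single (α g :: β g :: List.map β l) 1 - (jn (α g)) (prB α β l))
        ≤ mass (single (α g :: β g :: List.map β l) (1 : ℤ)) + mass ((jn (α g)) (prB α β l)) :=
          mass_sub _ _
      _ ≤ 1 + l.length := by
          rw [mass_single]
          exact Nat.add_le_add le_rfl ((mass_jn _ _).trans ih)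
      _ = l.length + 1 := Nat.add_comm _ _

theorem mass_pr (α β : G → G) {k : ℕ} {z : Ch G} (hz : z ∈ On (fun l => l.length = k)) :
    mass (pr α β z) ≤ k * mass z := by
  apply mass_ext
  intro l hl
  have := mem_On.mp hz l hl
  rw [← this]
  exact mass_prB α β l

theorem mass_cone (α : ℕ → G → G) (T : ℕ) {k : ℕ} {z : Ch G}
    (hz : z ∈ On (fun l => l.length = k)) : mass (cone α T z) ≤ T * (k * mass z) := by
  unfold cone
  rw [LinearMap.sum_apply]
  refine (mass_sum _ _).trans ?_
  calc ∑ t ∈ Finset.range T, mass (pr (α t) (α (t + 1)) z)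
      ≤ ∑ _t ∈ Finset.range T, k * mass z :=
        Finset.sum_le_sum (fun t _ => mass_pr _ _ hz)
    _ = T * (k * mass z) := by rw [Finset.sum_const, Finset.card_range, smul_eq_mul]

/-- the prism lives on lists whose entries are images of entries -/
theorem prB_mem_On (α β : G → G) (l : List G) :
    prB α β l ∈ On (fun l' => l'.length = l.length + 1 ∧
      ∀ x ∈ l', ∃ y ∈ l, x = α y ∨ x = β y) := by
  induction l with
  | nil => exact Submodule.zero_mem _
  | cons g l ih =>
    rw [prB]
    apply Submodule.sub_mem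
    · apply single_mem_On
      refine ⟨by simp, ?_⟩
      intro x hx
      simp only [List.mem_cons, List.mem_map] at hx
      rcases hx with rfl | rfl | ⟨y, hy, rfl⟩
      · exact ⟨g, by simp, Or.inl rfl⟩
      · exact ⟨g, by simp, Or.inr rfl⟩
      · exact ⟨y, by simp [hy], Or.inr rfl⟩
    · apply jn_mem_On _ ih
      rintro l' ⟨h1, h2⟩
      refine ⟨by simp [h1], ?_⟩
      intro x hx
      rcases List.mem_cons.mp hx with rfl | hx
      · exact ⟨g, by simp, Or.inl rfl⟩
      · obtain ⟨y, hy, h⟩ := h2 x hx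
        exact ⟨y, by simp [hy], h⟩

theorem pr_mem_On {P : List G → Prop} {Q : List G → Prop} {α β : G → G}
    (h : ∀ l, P l → ∀ l', l'.length = l.length + 1 → (∀ x ∈ l', ∃ y ∈ l, x = α y ∨ x = β y) → Q l')
    {z : Ch G} (hz : z ∈ On P) : pr α β z ∈ On Q := by
  apply ext_mem_On _ hz
  intro l hl
  exact On_mono (fun l' hl' => h l hl l' hl'.1 hl'.2) (prB_mem_On α β l)

theorem cone_mem_On {P : List G → Prop} {Q : List G → Prop} {α : ℕ → G → G} {T : ℕ}
    (h : ∀ l, P l → ∀ t < T, ∀ l', l'.length = l.length + 1 →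
      (∀ x ∈ l', ∃ y ∈ l, x = α t y ∨ x = α (t + 1) y) → Q l')
    {z : Ch G} (hz : z ∈ On P) : cone α T z ∈ On Q := by
  unfold cone
  rw [LinearMap.sum_apply]
  apply Submodule.sum_mem
  intro t ht
  exact pr_mem_On (fun l hl l' h1 h2 => h l hl t (Finset.mem_range.mp ht) l' h1 h2) hz

/-- sum of the coefficients -/
noncomputable def aug : Ch G →ₗ[ℤ] ℤ := Finsupp.linearCombination ℤ (fun _ => (1 : ℤ))

theorem aug_single (l : List G) : aug (single l 1) = 1 := by simp [aug]

theorem aug_vmap (α : G → G) (z : Ch G) : aug (vmap α z) = aug z := by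
  have : aug ∘ₗ vmap α = (aug : Ch G →ₗ[ℤ] ℤ) := by
    apply Finsupp.lhom_ext'
    intro l
    apply LinearMap.ext_ring
    simp only [LinearMap.comp_apply, Finsupp.lsingle_apply, vmap_single, aug_single]
  exact LinearMap.congr_fun this z

/-- all vertices are sent to the same point -/
theorem vmap_const {α : G → G} {e : G} (hα : ∀ g, α g = e) {k : ℕ} {z : Ch G}
    (hz : z ∈ On (fun l => l.length = k)) :
    vmap α z = aug z • single (List.replicate k e) 1 := by
  rw [vmap, ext_apply, aug, Finsupp.linearCombination_apply, Finsupp.sum, Finset.sum_smul]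
  apply Finset.sum_congr rfl
  intro l hl
  have h1 : l.map α = List.replicate k e := by
    rw [List.eq_replicate_iff]
    refine ⟨by rw [List.length_map]; exact mem_On.mp hz l hl, ?_⟩
    intro x hx
    obtain ⟨y, _, rfl⟩ := List.mem_map.mp hx
    exact hα y
  rw [h1, smul_eq_mul, mul_one]

theorem vmap_id_of {α : G → G} {z : Ch G} (hz : z ∈ On (fun l => ∀ x ∈ l, α x = x)) :
    vmap α z = z := by
  conv_rhs => rw [← Finsupp.sum_single z]
  rw [vmap, ext_apply, Finsupp.sum]
  apply Finset.sum_congr rfl
  intro l hl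
  have h1 : l.map α = l := by
    conv_rhs => rw [← List.map_id l]
    apply List.map_congr_left
    intro x hx
    exact mem_On.mp hz l hl x hx
  rw [h1, Finsupp.smul_single, smul_eq_mul, mul_one]

theorem On_inf {P Q : List G → Prop} {z : Ch G} (h1 : z ∈ On P) (h2 : z ∈ On Q) :
    z ∈ On (fun l => P l ∧ Q l) := by
  rw [mem_On] at h1 h2 ⊢
  exact fun l hl => ⟨h1 l hl, h2 l hl⟩

end Pool.Agent.Lib.MP_59c382_al
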