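import Pool.Agent.Lib.MP_59c382_al.PartE

/-!
# The module data of a finitely generated metabelian group
-/

set_option autoImplicit false

namespace Pool.Agent.Lib.MP_59c382_al

/-- conjugation, as endomorphisms of the additive group of an abelian normal subgroup -/
def conjEnd {G : Type*} [Group G] (A : Subgroup G) [A.Normal] {M : Type*} [AddCommGroup M]
    (e : Additive A ≃+ M) : G →* Module.End ℤ M where
  toFun g := ((e : Additive A →+ M).comp
    ((MonoidHom.toAdditive (MulAut.conjNormal g : A ≃* A).toMonoidHom).comp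
      (e.symm : M →+ Additive A))).toIntLinearMap
  map_one' := by
    ext m
    simp
  map_mul' g h := by
    ext m
    simp

theorem conjEnd_apply {G : Type*} [Group G] (A : Subgroup G) [hA : A.Normal] {M : Type*}
    [AddCommGroup M] (e : Additive A ≃+ M) (g : G) (a : A) :
    conjEnd A e g (e (Additive.ofMul a)) =
      e (Additive.ofMul ⟨g * a * g⁻¹, hA.conj_mem a a.2 g⟩) := by
  show e (Additive.ofMul (MulAut.conjNormal g (Additive.toMul (e.symm (e (Additive.ofMul a)))))) = _
  rw [AddEquiv.symm_apply_apply]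
  rfl

theorem exists_modData (G : Type) [Group G] {S : Set G} (hS : S.Finite)
    (hgen : Subgroup.closure S = ⊤) (hder : derivedSeries G 2 = ⊥) :
    ∃ (R : Type) (_ : CommRing R) (M : Type) (_ : AddCommGroup M) (_ : Module R M)
      (_ : Algebra.FiniteType ℤ R) (_ : Module.Finite R M) (Δ : ModData G R M),
      Δ.A = commutator G := by
  classical
  set A := commutator G with hA
  have hcomm : ∀ a ∈ A, ∀ b ∈ A, a * b = b * a := by
    intro a ha b hb
    rw [derivedSeries_succ, derivedSeries_one] at hder
    have h1 := Subgroup.commutator_mem_commutator ha hb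
    rw [hder, Subgroup.mem_bot, commutatorElement_eq_one_iff_mul_comm] at h1
    exact h1
  have hquot : ∀ g h : G, g * h * g⁻¹ * h⁻¹ ∈ A := by
    intro g h
    exact Subgroup.commutator_mem_commutator (Subgroup.mem_top g) (Subgroup.mem_top h)
  have hnorm : A.Normal := inferInstance
  let _ : CommGroup A := { (inferInstance : Group A) with
    mul_comm := fun a b => Subtype.ext (hcomm a a.2 b b.2) }
  let ρ₀ : G →* Module.End ℤ (Additive A) := conjEnd A (AddEquiv.refl (Additive A))
  have hρ₀ : A ≤ ρ₀.ker := by
    intro a ha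
    rw [MonoidHom.mem_ker]
    apply LinearMap.ext
    intro m
    have h1 := conjEnd_apply A (AddEquiv.refl (Additive A)) a (Additive.toMul m)
    have h2 : (⟨a * (Additive.toMul m : A) * a⁻¹, hnorm.conj_mem _ (Additive.toMul m : A).2 a⟩ : A) =
        Additive.toMul m := by
      apply Subtype.ext
      show a * (Additive.toMul m : A) * a⁻¹ = (Additive.toMul m : A)
      rw [hcomm a ha _ (Additive.toMul m : A).2, mul_inv_cancel_right]
    rw [h2] at h1
    exact h1
  let ρ₁ : Abelianization G →* Module.End ℤ (Additive A) := QuotientGroup.lift A ρ₀ hρ₀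
  let ρ : MonoidAlgebra ℤ (Abelianization G) →ₐ[ℤ] Module.End ℤ (Additive A) :=
    MonoidAlgebra.lift ℤ (Module.End ℤ (Additive A)) (Abelianization G) ρ₁
  let π : G →* MonoidAlgebra ℤ (Abelianization G) :=
    (MonoidAlgebra.of ℤ (Abelianization G)).comp Abelianization.of
  have hρπ : ∀ g, ρ (π g) = ρ₀ g := by
    intro g
    exact MonoidAlgebra.lift_of ρ₁ (Abelianization.of g)
  let _ : Module (MonoidAlgebra ℤ (Abelianization G)) (Additive A) :=
    Module.compHom (Additive A) ρ.toRingHom
  have hsmul : ∀ (r : MonoidAlgebra ℤ (Abelianization G)) (m : Additive A), r • m = ρ r m :=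
    fun r m => rfl
  have hGfg : Group.FG G := by
    rw [Group.fg_def, Subgroup.fg_iff]
    exact ⟨S, hgen, hS⟩
  have hQfg : Group.FG (Abelianization G) := QuotientGroup.fg (commutator G)
  have hQfg' : Monoid.FG (Abelianization G) := Group.fg_iff_monoid_fg.mp hQfg
  have hact : ∀ (g : G) (a : A), π g • (Additive.ofMul a) =
      Additive.ofMul (⟨g * a * g⁻¹, hnorm.conj_mem a a.2 g⟩ : A) := by
    intro g a
    rw [hsmul, hρπ]
    exact conjEnd_apply A (AddEquiv.refl (Additive A)) g a
  refine ⟨MonoidAlgebra ℤ (Abelianization G), inferInstance, Additive A, inferInstance,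
    inferInstance, MonoidAlgebra.finiteType_of_fg, ?_,
    ⟨A, hnorm, hcomm, hquot, fun a => Additive.ofMul a, fun a b => rfl,
      fun m => ⟨Additive.toMul m, rfl⟩, fun a b h => h, π, hact, ?_⟩, rfl⟩
  · -- finite generation
    set T : Set (Additive A) := {m | ∃ s ∈ S, ∃ t ∈ S,
      (Additive.toMul m : A) = ⟨s * t * s⁻¹ * t⁻¹, hquot s t⟩} with hT
    have hTfin : T.Finite := by
      apply ((hS.prod hS).image (fun p : G × G =>
        Additive.ofMul (⟨p.1 * p.2 * p.1⁻¹ * p.2⁻¹, hquot p.1 p.2⟩ : A))).subset
      rintro m ⟨s, hs, t, ht, h⟩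
      exact ⟨(s, t), ⟨hs, ht⟩, (congrArg Additive.ofMul h).symm⟩
    rw [Module.finite_def, Submodule.fg_def]
    refine ⟨T, hTfin, ?_⟩
    set N := Submodule.span (MonoidAlgebra ℤ (Abelianization G)) T with hN
    -- the corresponding subgroup
    let N' : Subgroup G :=
      { carrier := {g | ∃ h : g ∈ A, Additive.ofMul (⟨g, h⟩ : A) ∈ N}
        mul_mem' := by
          rintro a b ⟨ha, ha'⟩ ⟨hb, hb'⟩
          exact ⟨A.mul_mem ha hb, N.add_mem ha' hb'⟩
        one_mem' := ⟨A.one_mem, N.zero_mem⟩
        inv_mem' := by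
          rintro a ⟨ha, ha'⟩
          exact ⟨A.inv_mem ha, N.neg_mem ha'⟩ }
    have hN'norm : N'.Normal := by
      constructor
      rintro a ⟨ha, ha'⟩ g
      refine ⟨hnorm.conj_mem a ha g, ?_⟩
      have := N.smul_mem (π g) ha'
      rwa [hact g ⟨a, ha⟩] at this
    have hgens : ∀ s ∈ S, ∀ t ∈ S, s * t * s⁻¹ * t⁻¹ ∈ N' := by
      intro s hs t ht
      exact ⟨hquot s t, Submodule.subset_span ⟨s, hs, t, ht, rfl⟩⟩
    -- commutation modulo `N'`
    have hq1 : ∀ s ∈ S, ∀ g : G, Commute (QuotientGroup.mk s : G ⧸ N') (QuotientGroup.mk g) := by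
      intro s hs g
      have hg : g ∈ Subgroup.closure S := by rw [hgen]; trivial
      induction hg using Subgroup.closure_induction with
      | mem t ht =>
        have h1 := (QuotientGroup.eq_one_iff _).mpr (hgens s hs t ht)
        rw [QuotientGroup.mk_mul, QuotientGroup.mk_mul, QuotientGroup.mk_mul,
          QuotientGroup.mk_inv, QuotientGroup.mk_inv] at h1
        rw [commute_iff_eq]
        have h2 := mul_inv_eq_one.mp h1
        exact mul_inv_eq_iff_eq_mul.mp h2
      | one => rw [QuotientGroup.mk_one]; exact Commute.one_right _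
      | mul a b _ _ ha hb => rw [QuotientGroup.mk_mul]; exact ha.mul_right hb
      | inv a _ ha => rw [QuotientGroup.mk_inv]; exact ha.inv_right
    have hq2 : ∀ g h : G, Commute (QuotientGroup.mk g : G ⧸ N') (QuotientGroup.mk h) := by
      intro g h
      have hg : g ∈ Subgroup.closure S := by rw [hgen]; trivial
      induction hg using Subgroup.closure_induction with
      | mem t ht => exact hq1 t ht h
      | one => rw [QuotientGroup.mk_one]; exact Commute.one_left _
      | mul a b _ _ ha hb => rw [QuotientGroup.mk_mul]; exact ha.mul_left hb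
      | inv a _ ha => rw [QuotientGroup.mk_inv]; exact ha.inv_left
    have hAN' : A ≤ N' := by
      rw [hA, commutator_def, Subgroup.commutator_le]
      intro g _ h _
      rw [← QuotientGroup.eq_one_iff, commutatorElement_def, QuotientGroup.mk_mul,
        QuotientGroup.mk_mul, QuotientGroup.mk_mul, QuotientGroup.mk_inv, QuotientGroup.mk_inv,
        (hq2 g h).eq]
      group
    rw [eq_top_iff]
    rintro m -
    obtain ⟨h1, h2⟩ := hAN' (Additive.toMul m : A).2
    exact h2
  · rw [eq_top_iff]
    rintro r -
    induction r using MonoidAlgebra.induction_on with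
    | of q =>
      obtain ⟨g, rfl⟩ := QuotientGroup.mk_surjective q
      exact Algebra.subset_adjoin ⟨g, rfl⟩
    | add x y hx hy => exact Subalgebra.add_mem _ hx hy
    | smul c x hx => exact Subalgebra.smul_mem _ hx c

/-- torsion exponent modulo the commutator subgroup -/
theorem exists_eQ (G : Type) [Group G] {S : Set G} (hS : S.Finite)
    (hgen : Subgroup.closure S = ⊤) :
    ∃ e : ℕ, 0 < e ∧ ∀ g : G, ∀ c : ℕ, 0 < c → g ^ c ∈ commutator G → g ^ e ∈ commutator G := by
  have hGfg : Group.FG G := by
    rw [Group.fg_def, Subgroup.fg_iff]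
    exact ⟨S, hgen, hS⟩
  have hQfg : Group.FG (Abelianization G) := QuotientGroup.fg (commutator G)
  have hQfg' : AddGroup.FG (Additive (Abelianization G)) := inferInstance
  have hfin : Module.Finite ℤ (Additive (Abelianization G)) :=
    Module.Finite.iff_addGroup_fg.mpr hQfg'
  obtain ⟨e, he, h⟩ := torsion_exponent ℤ (Additive (Abelianization G))
  refine ⟨e, he, ?_⟩
  intro g c hc hg
  have h1 : ∀ n : ℕ, g ^ n ∈ commutator G ↔
      n • (Additive.ofMul (Abelianization.of g)) = 0 := by
    intro n
    rw [← Abelianization.ker_of, MonoidHom.mem_ker, map_pow, ← ofMul_pow]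
    rfl
  rw [h1] at hg ⊢
  exact h _ c hc hg

end Pool.Agent.Lib.MP_59c382_al
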