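import Pool.Agent.Lib.MP_59c382_al.DPlaces

/-!
# The number field case
-/

set_option autoImplicit false

namespace Pool.Agent.Lib.MP_59c382_al

open IsDedekindDomain NNReal NumberField

variable {G : Type*} [Group G] {F : Type*} [Field F]

/-- the `ℚ`-span of the values of `x` on `A` is stable under the algebra generated by `χ` -/
theorem span_stable [Algebra ℚ F] (D : CH G F) {y : F}
    (hy : y ∈ Algebra.adjoin ℚ (Set.range D.χ)) {z : F}
    (hz : z ∈ Submodule.span ℚ (D.x '' D.A)) : y * z ∈ Submodule.span ℚ (D.x '' D.A) := by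
  have hχ : ∀ g, ∀ z ∈ Submodule.span ℚ (D.x '' (D.A : Set G)),
      D.χ g * z ∈ Submodule.span ℚ (D.x '' (D.A : Set G)) := by
    intro g z hz
    induction hz using Submodule.span_induction with
    | mem z hz =>
      obtain ⟨a, ha, rfl⟩ := hz
      apply Submodule.subset_span
      refine ⟨g * a * g⁻¹, D.normal.conj_mem a ha g, ?_⟩
      have h1 : D.x g + D.χ g * D.x g⁻¹ = D.x 1 := by
        rw [← D.x_mul, mul_inv_cancel]
      have h2 : D.x 1 = 0 := by
        have := D.x_mul 1 1
        simpa using this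
      rw [h2] at h1
      rw [D.x_mul, D.x_mul, map_mul, D.χ_A a ha, mul_one]
      linear_combination h1
    | zero => rw [mul_zero]; exact Submodule.zero_mem _
    | add u v _ _ hu hv => rw [mul_add]; exact Submodule.add_mem _ hu hv
    | smul c u _ hu => rw [mul_smul_comm]; exact Submodule.smul_mem _ _ hu
  induction hy using Algebra.adjoin_induction generalizing z with
  | mem y hy =>
    obtain ⟨g, rfl⟩ := hy
    exact hχ g z hz
  | algebraMap c => rw [← Algebra.smul_def]; exact Submodule.smul_mem _ _ hz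
  | add u v _ _ hu hv => rw [add_mul]; exact Submodule.add_mem _ (hu hz) (hv hz)
  | mul u v _ _ hu hv => rw [mul_assoc]; exact hu (hv hz)

theorem span_eq_top [Algebra ℚ F] (D : CH G F)
    (hadj : Algebra.adjoin ℚ (Set.range D.χ) = ⊤) {b : G} (hb : b ∈ D.A) (hxb : D.x b ≠ 0) :
    Submodule.span ℚ (D.x '' D.A) = ⊤ := by
  rw [eq_top_iff]
  intro y _
  have h1 : y * (D.x b)⁻¹ ∈ Algebra.adjoin ℚ (Set.range D.χ) := by rw [hadj]; trivial
  have h2 := span_stable D h1 (Submodule.subset_span ⟨b, hb, rfl⟩)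
  rwa [inv_mul_cancel_right₀ hxb] at h2

/-- elements of `A` on which the matrix of the embeddings is invertible -/
theorem exists_det_ne_zero [NumberField F] (D : CH G F)
    (hadj : Algebra.adjoin ℚ (Set.range D.χ) = ⊤) {b : G} (hb : b ∈ D.A) (hxb : D.x b ≠ 0) :
    ∃ (r : ℕ) (e : Fin r ≃ (F →+* ℂ)) (β : Fin r → G), (∀ k, β k ∈ D.A) ∧
      Matrix.det (Matrix.of fun k k' => e k (D.x (β k'))) ≠ 0 := by
  classical
  have htop := span_eq_top D hadj hb hxb
  obtain ⟨f, hf1, hf2, hf3⟩ := Submodule.exists_fun_fin_finrank_span_eq ℚ (D.x '' (D.A : Set G))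
  have hf2' : Submodule.span ℚ (Set.range f) = ⊤ := hf2.trans htop
  clear hf2
  have hr' : Module.finrank ℚ (Submodule.span ℚ (D.x '' (D.A : Set G))) =
    Module.finrank ℚ F := by rw [htop, finrank_top]
  generalize Module.finrank ℚ (Submodule.span ℚ (D.x '' (D.A : Set G))) = r at *
  choose β hβ using hf1
  let bas : Module.Basis (Fin r) ℚ F := Module.Basis.mk hf3 hf2'.ge
  have hbas : ∀ k, bas k = D.x (β k) := by
    intro k
    rw [Module.Basis.mk_apply]
    exact (hβ k).2.symm
  have hcard : Fintype.card (F →ₐ[ℚ] ℂ) = r := by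
    rw [AlgHom.card, hr']
  let e' : Fin r ≃ (F →ₐ[ℚ] ℂ) := (Fintype.equivFinOfCardEq hcard).symm
  refine ⟨r, e'.trans (RingHom.equivRatAlgHom F ℂ).symm, β, fun k => (hβ k).1, ?_⟩
  have h1 := Algebra.discr_eq_det_embeddingsMatrixReindex_pow_two ℚ ℂ bas e'
  have h2 := Algebra.discr_not_zero_of_basis ℚ bas
  have h3 : (Algebra.embeddingsMatrixReindex ℚ ℂ bas e').det ≠ 0 := by
    intro h0
    rw [h0, sq, zero_mul] at h1
    exact h2 ((map_eq_zero _).mp h1)
  rw [← Matrix.det_transpose] at h3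
  convert h3 using 2
  ext k k'
  simp only [Matrix.of_apply, Matrix.transpose_apply, Algebra.embeddingsMatrixReindex,
    Matrix.reindex_apply, Matrix.submatrix_apply, Algebra.embeddingsMatrix_apply, hbas]
  rfl

/-- product formula, in additive form -/
theorem product_formula [NumberField F] {r : ℕ} (e : Fin r ≃ (F →+* ℂ)) {y : F} (hy : y ≠ 0)
    (s : Finset (HeightOneSpectrum (𝓞 F)))
    (hs : ∀ v : HeightOneSpectrum (𝓞 F), v ∉ s → HeightOneSpectrum.adicAbv F v y = 1) :
    ∑ k, Real.log ‖e k y‖ + ∑ v ∈ s, Real.log (HeightOneSpectrum.adicAbv F v y) = 0 := by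
  have h1 := NumberField.prod_abs_eq_one hy
  rw [InfinitePlace.prod_eq_abs_norm] at h1
  have h2 : ((|Algebra.norm ℚ y| : ℚ) : ℝ) = ∏ k, ‖e k y‖ := by
    have h3 := congr_arg (‖·‖) (Algebra.norm_eq_prod_embeddings ℚ ℂ y)
    simp only [norm_prod] at h3
    have h4 : ∏ σ : F →ₐ[ℚ] ℂ, ‖σ y‖ = ∏ k, ‖e k y‖ := by
      rw [← Fintype.prod_equiv (e.trans (RingHom.equivRatAlgHom F ℂ)) (fun k => ‖e k y‖)
        (fun σ => ‖σ y‖)]
      intro k
      rfl
    rw [← h4, ← h3]
    simp
  have h5 : ∏ᶠ w : FinitePlace F, w y = ∏ v ∈ s, HeightOneSpectrum.adicAbv F v y := by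
    rw [← finprod_comp_equiv (FinitePlace.equivHeightOneSpectrum (K := F)).symm]
    rw [finprod_eq_finsetProd_of_mulSupport_subset (s := s)]
    · apply Finset.prod_congr rfl
      intro v _
      rw [FinitePlace.equivHeightOneSpectrum_symm_apply, FinitePlace.norm_embedding]
    · intro v hv
      rw [Function.mem_mulSupport] at hv
      by_contra hcon
      apply hv
      rw [FinitePlace.equivHeightOneSpectrum_symm_apply, FinitePlace.norm_embedding]
      exact hs v hcon
  rw [h5, h2] at h1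
  have h6 := congrArg Real.log h1
  rw [Real.log_one, Real.log_mul, Real.log_prod, Real.log_prod] at h6
  · exact h6
  · intro v _
    exact (AbsoluteValue.ne_zero_iff _).mpr hy
  · intro k _
    rw [norm_ne_zero_iff]
    exact fun h => hy ((map_eq_zero _).mp h)
  · apply Finset.prod_ne_zero_iff.mpr
    intro k _
    rw [norm_ne_zero_iff]
    exact fun h => hy ((map_eq_zero _).mp h)
  · apply Finset.prod_ne_zero_iff.mpr
    intro v _
    exact (AbsoluteValue.ne_zero_iff _).mpr hy

/-- **Contradiction in the number field case.** -/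
theorem typeNF [NumberField F] (C : Combing G) {S : Set G} (hS : S.Finite)
    (hgen : Subgroup.closure S = ⊤) (D : CH G F)
    (hadj : Algebra.adjoin ℚ (Set.range D.χ) = ⊤)
    {q : G} (hq : ∀ k : ℕ, 0 < k → D.χ q ^ k ≠ 1) {b : G} (hb : b ∈ D.A) (hxb : D.x b ≠ 0) :
    False := by
  classical
  set P := dplaces (𝓞 F) D (fun v => (Ideal.absNorm v.asIdeal : ℝ≥0))
    (fun v => HeightOneSpectrum.one_lt_absNorm_nnreal v) with hP
  have hfin : {j | ∃ g, P.w j g ≠ 0}.Finite := dplaces_finite D _ _ hS hgen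
  obtain ⟨r, e, β, hβ, hdet⟩ := exists_det_ne_zero D hadj hb hxb
  have hrel : ∀ γ, ∑ k, Real.log ‖e k (D.χ γ)‖ +
      ∑ j ∈ hfin.toFinset, Real.log (P.θ j) * P.w j γ = 0 := by
    intro γ
    rw [← product_formula e (D.χ_ne γ) hfin.toFinset]
    · congr 1
      apply Finset.sum_congr rfl
      intro j _
      have h1 : HeightOneSpectrum.adicAbv F j (D.χ γ) = P.θ j ^ (P.w j γ) := P.v_eq j γ
      rw [h1, Real.log_zpow]
      ring
    · intro v hv
      have h1 : HeightOneSpectrum.adicAbv F v (D.χ γ) = P.θ v ^ (P.w v γ) := P.v_eq v γ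
      have h2 : P.w v γ = 0 := by
        by_contra hcon
        exact hv ((Set.Finite.mem_toFinset hfin).mpr ⟨γ, hcon⟩)
      rw [h1, h2, zpow_zero]
  by_cases harch : ∃ k₀ γ, 1 < ‖e k₀ (D.χ γ)‖
  · obtain ⟨k₀, γ, hγ⟩ := harch
    exact P.typeA C hfin.toFinset (lam := fun j => Real.log (P.θ j))
      (fun j _ => (P.log_pos j).le) (fun k => e k) hrel hγ hb hxb hβ hdet
  · push Not at harch
    have harch' : ∀ k g, ‖e k (D.χ g)‖ = 1 := by
      intro k g
      apply le_antisymm (harch k g)
      have h1 := harch k g⁻¹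
      have h2 : ‖e k (D.χ g)‖ * ‖e k (D.χ g⁻¹)‖ = 1 := by
        rw [← norm_mul, ← map_mul, ← map_mul, mul_inv_cancel, map_one, map_one, norm_one]
      have h3 := norm_nonneg (e k (D.χ g))
      nlinarith
    have hrel' : ∀ γ, ∑ j ∈ hfin.toFinset, Real.log (P.θ j) * P.w j γ = 0 := by
      intro γ
      have h1 := hrel γ
      have h2 : ∑ k, Real.log ‖e k (D.χ γ)‖ = 0 := by
        apply Finset.sum_eq_zero
        intro k _
        rw [harch', Real.log_one]
      rwa [h2, zero_add] at h1
    refine P.typeN C hfin.toFinset (fun j hj => (Set.Finite.mem_toFinset hfin).mp hj) ?_ hb hxb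
    rintro ⟨γ, hγ⟩
    rcases hfin.toFinset.eq_empty_or_nonempty with hemp | hne
    · have h0 : ∀ j, P.w j q ≤ 0 := by
        intro j
        by_contra hcon
        have : j ∈ hfin.toFinset := (Set.Finite.mem_toFinset hfin).mpr ⟨q, by omega⟩
        rw [hemp] at this
        simp at this
      obtain ⟨y, hy⟩ := mem_range_of_nonpos _ _ h0
      have hint : IsIntegral ℤ (D.χ q) := by
        rw [← hy]
        exact RingOfIntegers.isIntegral_coe y
      obtain ⟨n, hn, hpow⟩ := NumberField.Embeddings.pow_eq_one_of_norm_eq_one F ℂ hint (by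
        intro φ
        have h1 := harch' (e.symm φ) q
        rwa [Equiv.apply_symm_apply] at h1)
      exact hq n hn hpow
    · have h1 := hrel' γ
      have h2 : 0 < ∑ j ∈ hfin.toFinset, Real.log (P.θ j) * P.w j γ := by
        apply Finset.sum_pos _ hne
        intro j hj
        exact mul_pos (P.log_pos j) (by exact_mod_cast hγ j hj)
      linarith

end Pool.Agent.Lib.MP_59c382_al
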