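import Pool.Agent.Lib.MP_59c382_al.Auto

/-!
# Unique normal forms
-/

set_option autoImplicit false

namespace Pool.Agent.Lib.MP_59c382_al

section rank

variable {n : ℕ}

/-- rank of a word -/
def rank : List (Fin n) → ℕ
  | [] => 0
  | i :: w => (i + 1) + (n + 1) * rank w

theorem rank_append (v w : List (Fin n)) :
    rank (v ++ w) = rank v + (n + 1) ^ v.length * rank w := by
  induction v with
  | nil => simp [rank]
  | cons i v ih =>
    rw [List.cons_append, rank, rank, ih, List.length_cons, pow_succ]
    ring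

theorem rank_lt (v : List (Fin n)) : rank v < (n + 1) ^ v.length := by
  induction v with
  | nil => simp [rank]
  | cons i v ih =>
    rw [rank, List.length_cons, pow_succ]
    have := i.2
    nlinarith

theorem pow_le_rank (v : List (Fin n)) : (n + 1) ^ v.length ≤ (n + 1) * rank v + 1 := by
  induction v with
  | nil => simp [rank]
  | cons i v ih =>
    rw [rank, List.length_cons, pow_succ]
    nlinarith

theorem rank_lt_of_length_lt {v w : List (Fin n)} (h : v.length < w.length) : rank v < rank w := by
  have h1 := rank_lt v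
  have h2 := pow_le_rank w
  obtain ⟨l, hl⟩ : ∃ l, w.length = l + 1 := ⟨w.length - 1, by omega⟩
  have hn : 1 ≤ n := by
    match w, hl with
    | i :: _, _ => exact lt_of_le_of_lt (Nat.zero_le _) i.2
  rw [hl, pow_succ] at h2
  have h3 : (n + 1) ^ v.length ≤ (n + 1) ^ l := Nat.pow_le_pow_right (by omega) (by omega)
  have h4 : (n + 1) ^ l ≤ rank w := by
    by_contra hcon
    rw [not_le] at hcon
    nlinarith
  omega

theorem rank_injective : Function.Injective (rank : List (Fin n) → ℕ) := by
  intro v
  induction v with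
  | nil =>
    intro w h
    match w with
    | [] => rfl
    | i :: w =>
      simp only [rank] at h
      omega
  | cons i v ih =>
    intro w h
    match w with
    | [] =>
      simp only [rank] at h
      omega
    | j :: w =>
      simp only [rank] at h
      have h1 : (i : ℕ) + 1 = j + 1 := by
        have h2 := congrArg (fun x => x % (n + 1)) h
        simp only [Nat.add_mul_mod_self_left] at h2
        rw [Nat.mod_eq_of_lt (by have := i.2; omega),
          Nat.mod_eq_of_lt (by have := j.2; omega)] at h2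
        exact h2
      have h2 : i = j := Fin.ext (by omega)
      have h3 : rank v = rank w := by
        rw [h1] at h
        have := Nat.add_left_cancel h
        exact Nat.eq_of_mul_eq_mul_left (by omega) this
      rw [h2, ih h3]

end rank

namespace Aut

variable {G : Type*} [Group G] (S : Aut G)

/-- the language of normal forms -/
def NF : Language (Fin S.n) :=
  {w | w ∈ S.M.accepts ∧ ∀ v ∈ S.M.accepts, S.ev v = S.ev w → rank w ≤ rank v}

theorem mem_NF (w : List (Fin S.n)) :
    w ∈ S.NF ↔ w ∈ S.M.accepts ∧ ∀ v ∈ S.M.accepts, S.ev v = S.ev w → rank w ≤ rank v := Iff.rfl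

theorem exists_NF (g : G) : ∃ w ∈ S.NF, S.ev w = g := by
  classical
  have h : ∃ m, ∃ w ∈ S.M.accepts, S.ev w = g ∧ rank w = m := by
    obtain ⟨w, hw, he⟩ := S.surj g
    exact ⟨_, w, hw, he, rfl⟩
  obtain ⟨w, hw, he, hr⟩ := Nat.find_spec h
  refine ⟨w, ⟨hw, ?_⟩, he⟩
  intro v hv hev
  rw [hr]
  exact Nat.find_min' h ⟨v, hv, hev.trans he, rfl⟩

theorem NF_inj {v w : List (Fin S.n)} (hv : v ∈ S.NF) (hw : w ∈ S.NF) (h : S.ev v = S.ev w) :
    v = w :=
  rank_injective (le_antisymm (hv.2 w hw.1 h.symm) (hw.2 v hv.1 h))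

/-- comparison data -/
def DD (u : List (Fin S.n)) (q : S.σ) (d : G) (c : Fin 3) : Prop :=
  ∃ v : List (Fin S.n), S.M.eval v = q ∧ (S.ev u)⁻¹ * S.ev v = d ∧
    ((c = 0 ∧ v.length < u.length) ∨ (c = 1 ∧ v.length = u.length ∧ rank v < rank u) ∨
      (c = 2 ∧ v.length = u.length ∧ rank u ≤ rank v))

/-- finite invariant of a prefix -/
def FF (u : List (Fin S.n)) : S.σ × Set (S.σ × {g | Bl S.s S.k g} × Fin 3) :=
  (S.M.eval u, {p | S.DD u p.1 p.2.1 p.2.2})

theorem eval_append (u w : List (Fin S.n)) :
    S.M.eval (u ++ w) = S.M.evalFrom (S.M.eval u) w := by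
  rw [DFA.eval, DFA.evalFrom_of_append]

theorem NF_of_FF_eq {u u' : List (Fin S.n)} (h : S.FF u = S.FF u') (w : List (Fin S.n))
    (hw : u ++ w ∈ S.NF) : u' ++ w ∈ S.NF := by
  have h1 : S.M.eval u = S.M.eval u' := congrArg Prod.fst h
  have h2 : ∀ q d (hd : Bl S.s S.k d) c, S.DD u' q d c → S.DD u q d c := by
    intro q d hd c hD
    have h3 : ((q, ⟨d, hd⟩, c) : S.σ × {g | Bl S.s S.k g} × Fin 3) ∈ (S.FF u').2 := hD
    rw [← h] at h3
    exact h3
  have hacc : u' ++ w ∈ S.M.accepts := by
    have h3 := hw.1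
    rw [S.mem_accepts_iff, S.eval_append] at h3 ⊢
    rwa [← h1]
  refine ⟨hacc, ?_⟩
  intro v' hv' hev
  by_contra hlt
  rw [not_le] at hlt
  -- split
  set v₁ := v'.take u'.length with hv₁
  set v₂ := v'.drop u'.length with hv₂
  have hsplit : v₁ ++ v₂ = v' := List.take_append_drop _ _
  have hball : Bl S.s S.k ((S.ev u')⁻¹ * S.ev v₁) := by
    obtain ⟨l, hl1, hl2, hl3⟩ := S.fellow _ hacc _ hv' 1 (Or.inl rfl) (by
      rw [mul_one]; exact hev.symm) u'.length
    refine ⟨l, hl1, hl2, ?_⟩
    rw [List.take_left'] at hl3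
    · rw [eq_inv_mul_iff_mul_eq]
      exact hl3
    · rfl
  have hevv : S.ev v₁ * S.ev v₂ = S.ev u' * S.ev w := by
    rw [← ev_append, ← ev_append, hsplit, hev]
  -- the replacement
  have key : ∀ c, S.DD u' (S.M.eval v₁) ((S.ev u')⁻¹ * S.ev v₁) c →
      (∀ v : List (Fin S.n), ((c = 0 ∧ v.length < u.length) ∨
        (c = 1 ∧ v.length = u.length ∧ rank v < rank u) ∨
        (c = 2 ∧ v.length = u.length ∧ rank u ≤ rank v)) → rank (v ++ v₂) < rank (u ++ w)) →
      False := by
    intro c hc hrank
    obtain ⟨v, hv1, hv2, hv3⟩ := h2 _ _ hball c hc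
    have h3 := hrank v hv3
    have h4 : v ++ v₂ ∈ S.M.accepts := by
      rw [S.mem_accepts_iff, S.eval_append, hv1, ← S.eval_append, hsplit]
      exact hv'
    have h5 : S.ev (v ++ v₂) = S.ev (u ++ w) := by
      rw [ev_append, ev_append]
      have h6 : S.ev v = S.ev u * ((S.ev u')⁻¹ * S.ev v₁) := by
        rw [← hv2, mul_inv_cancel_left]
      rw [h6, mul_assoc, mul_assoc, hevv, inv_mul_cancel_left]
    exact absurd (hw.2 _ h4 h5) (not_le.mpr h3)
  rcases lt_or_ge v'.length u'.length with hlen | hlen
  · -- `v'` is shorter than `u'`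
    have e1 : v₁ = v' := List.take_of_length_le hlen.le
    have e2 : v₂ = [] := List.drop_eq_nil_of_le hlen.le
    apply key 0
    · exact ⟨v₁, rfl, rfl, Or.inl ⟨rfl, by rw [e1]; exact hlen⟩⟩
    · intro v hv
      rw [e2, List.append_nil]
      apply rank_lt_of_length_lt
      rcases hv with ⟨_, h3⟩ | ⟨h3, _⟩ | ⟨h3, _⟩
      · rw [List.length_append]; omega
      · exact absurd h3 (by decide)
      · exact absurd h3 (by decide)
  · have e1 : v₁.length = u'.length := by rw [hv₁, List.length_take]; omega
    have hr := hlt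
    rw [← hsplit, rank_append, rank_append, e1] at hr
    have hb1 := rank_lt v₁
    have hb2 := rank_lt u'
    rw [e1] at hb1
    set B := (S.n + 1) ^ u'.length with hB
    by_cases hcmp : rank v₁ < rank u'
    · apply key 1
      · exact ⟨v₁, rfl, rfl, Or.inr (Or.inl ⟨rfl, e1, hcmp⟩)⟩
      · intro v hv
        rcases hv with ⟨h3, _⟩ | ⟨_, h3, h4⟩ | ⟨h3, _⟩
        · exact absurd h3 (by decide)
        · rw [rank_append, rank_append, h3]
          have h5 : rank v₂ ≤ rank w := by
            by_contra hcon
            rw [not_le] at hcon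
            nlinarith
          have h6 := Nat.mul_le_mul_left ((S.n + 1) ^ u.length) h5
          omega
        · exact absurd h3 (by decide)
    · apply key 2
      · exact ⟨v₁, rfl, rfl, Or.inr (Or.inr ⟨rfl, e1, not_lt.mp hcmp⟩)⟩
      · intro v hv
        rcases hv with ⟨h3, _⟩ | ⟨h3, _⟩ | ⟨_, h3, h4⟩
        · exact absurd h3 (by decide)
        · exact absurd h3 (by decide)
        · rw [rank_append, rank_append, h3]
          have h5 : rank v₂ < rank w := by
            by_contra hcon
            rw [not_lt] at hcon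
            have := Nat.mul_le_mul_left B hcon
            omega
          have h6 : (S.n + 1) ^ u.length * (rank v₂ + 1) ≤ (S.n + 1) ^ u.length * rank w :=
            Nat.mul_le_mul_left _ h5
          have h7 := rank_lt v
          rw [h3] at h7
          nlinarith

theorem NF_regular : S.NF.IsRegular := by
  classical
  rw [Language.isRegular_iff_finite_range_leftQuotient]
  have := S.fin
  have hfin1 : Finite {g | Bl S.s S.k g} := finite_Bl S.k
  have hfin : Finite (S.σ × Set (S.σ × {g | Bl S.s S.k g} × Fin 3)) := inferInstance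
  have hfac : Function.FactorsThrough S.NF.leftQuotient S.FF := by
    intro u u' h
    ext w
    exact ⟨fun hw => S.NF_of_FF_eq h w hw, fun hw => S.NF_of_FF_eq h.symm w hw⟩
  have hfac' := (Function.factorsThrough_iff _).mp hfac
  obtain ⟨e, he⟩ := hfac'
  rw [he, Set.range_comp]
  exact (Set.toFinite (Set.range S.FF)).image e

end Aut

end Pool.Agent.Lib.MP_59c382_al
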