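import Pool.Agent.Lib.MP_59c382_al.Count

/-!
# The obstruction inequality
-/

set_option autoImplicit false

namespace Pool.Agent.Lib.MP_59c382_al

open Finsupp

variable {G : Type*} [Group G] {F : Type*} [Field F]

section

variable {I : Type*} [Fintype I] [DecidableEq I] {r : ℕ}

/-- the list of all indices -/
noncomputable def LL (I : Type*) [Fintype I] (r : ℕ) : List (I ⊕ Fin r) :=
  (Finset.univ : Finset I).toList.map Sum.inl ++ (List.finRange r).map Sum.inr

omit [DecidableEq I] in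
theorem length_LL : (LL I r).length = Fintype.card I + r := by
  simp [LL]

omit [DecidableEq I] in
theorem nodup_LL : (LL I r).Nodup := by
  rw [LL, List.nodup_append]
  refine ⟨?_, ?_, ?_⟩
  · exact (Finset.nodup_toList _).map Sum.inl_injective
  · exact (List.nodup_finRange r).map Sum.inr_injective
  · intro a ha b hb
    obtain ⟨i, _, rfl⟩ := List.mem_map.mp ha
    obtain ⟨k, _, rfl⟩ := List.mem_map.mp hb
    simp

/-- the coefficient matrix -/
noncomputable def cc (E : Fin r → I ⊕ Fin r → ℂ) : I ⊕ Fin r → I ⊕ Fin r → ℂ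
  | Sum.inl j, Sum.inl i => if i = j then -1 else 0
  | Sum.inl _, Sum.inr _ => 0
  | Sum.inr k, i => E k i

omit [Fintype I] in
theorem ldet_inl (E : Fin r → I ⊕ Fin r → ℂ) (s : List I) (hs : s.Nodup)
    (R : List (I ⊕ Fin r)) (hR : ∀ i ∈ R, ∃ k, i = Sum.inr k) (rows : List (I ⊕ Fin r)) :
    ldet (cc E) (s.map Sum.inl ++ rows) (s.map Sum.inl ++ R) =
      (-1) ^ s.length * ldet (cc E) rows R := by
  induction s with
  | nil => simp
  | cons i s ih =>
    rw [List.nodup_cons] at hs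
    rw [List.map_cons, List.cons_append, List.cons_append, ldet_cons_of_zero, ih hs.2]
    · simp only [cc, if_true, List.length_cons, pow_succ]
      ring
    · intro i' hi'
      rcases List.mem_append.mp hi' with h | h
      · obtain ⟨j, hj, rfl⟩ := List.mem_map.mp h
        have : j ≠ i := fun h => hs.1 (h ▸ hj)
        simp [cc, this]
      · obtain ⟨k, rfl⟩ := hR i' h
        rfl

theorem norm_ldet_LL (E : Fin r → I ⊕ Fin r → ℂ) :
    ‖ldet (cc E) (LL I r) (LL I r)‖ =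
      ‖Matrix.det (Matrix.of fun k k' => E k (Sum.inr k'))‖ := by
  rw [LL, ldet_inl E _ (Finset.nodup_toList _)]
  · rw [norm_mul, norm_pow, norm_neg, norm_one, one_pow, one_mul]
    have h : (List.finRange r).map (Sum.inr : Fin r → I ⊕ Fin r) =
        List.ofFn (Sum.inr : Fin r → I ⊕ Fin r) := (List.ofFn_eq_map).symm
    rw [h, ldet_ofFn]
    rfl
  · intro i hi
    obtain ⟨k, _, rfl⟩ := List.mem_map.mp hi
    exact ⟨k, rfl⟩

end

/-- data for the obstruction -/
structure Datum (G : Type*) [Group G] (F : Type*) [Field F] (I : Type*) [Fintype I] (r : ℕ) where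
  /-- a commutative normal subgroup -/
  A : Subgroup G
  normal : A.Normal
  comm : ∀ a ∈ A, ∀ b ∈ A, a * b = b * a
  /-- the character -/
  χ : G →* F
  /-- the crossed homomorphism -/
  x : G → F
  x_mul : ∀ g h, x (g * h) = x g + χ g * x h
  χ_A : ∀ a ∈ A, χ a = 1
  /-- non-archimedean absolute values -/
  v : I → AbsoluteValue F ℝ
  ultra : ∀ i a b, v i (a + b) ≤ max (v i a) (v i b)
  /-- embeddings -/
  e : Fin r → F →+* ℂ
  /-- weights -/
  lam : I → ℝ
  lam_pos : ∀ i, 0 < lam i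
  rel : ∀ g, (∏ k, ‖e k (χ g)‖) * ∏ i, (v i (χ g)) ^ (lam i) = 1

namespace Datum

variable {I : Type*} [Fintype I] {r : ℕ} (D : Datum G F I r) (C : Combing G)

theorem χ_ne (g : G) : D.χ g ≠ 0 := by
  intro h
  have h1 : D.χ g * D.χ g⁻¹ = 1 := by rw [← map_mul, mul_inv_cancel, map_one]
  rw [h, zero_mul] at h1
  exact zero_ne_one h1

theorem x_sub (g h : G) : D.x h - D.x g = D.χ g * D.x (g⁻¹ * h) := by
  have := D.x_mul g (g⁻¹ * h)
  rw [mul_inv_cancel_left] at this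
  rw [this]
  ring

theorem ultra_sub (i : I) (a b : F) : D.v i (a - b) ≤ max (D.v i a) (D.v i b) := by
  rw [sub_eq_add_neg]
  have := D.ultra i a (-b)
  rwa [(D.v i).map_neg] at this

theorem exists_bound : ∃ M : ℝ, 1 ≤ M ∧ ∀ n : ℕ, ∀ h : G, n ≤ Fintype.card I + r →
    C.len h ≤ C.RR n → (∀ i, D.v i (D.χ h) ≤ M ∧ D.v i (D.x h) ≤ M) ∧
      ∀ k, ‖D.e k (D.χ h)‖ ≤ M ∧ ‖D.e k (D.x h)‖ ≤ M := by
  classical
  set R := ∑ n ∈ Finset.range (Fintype.card I + r + 1), C.RR n with hR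
  set s := (C.finite_ball R).toFinset with hs
  refine ⟨1 + ∑ h ∈ s, ((∑ i, (D.v i (D.χ h) + D.v i (D.x h))) +
    ∑ k, (‖D.e k (D.χ h)‖ + ‖D.e k (D.x h)‖)), ?_, ?_⟩
  · have : 0 ≤ ∑ h ∈ s, ((∑ i, (D.v i (D.χ h) + D.v i (D.x h))) +
        ∑ k, (‖D.e k (D.χ h)‖ + ‖D.e k (D.x h)‖)) := by
      apply Finset.sum_nonneg
      intro h _
      apply add_nonneg
      · exact Finset.sum_nonneg (fun i _ => add_nonneg ((D.v i).nonneg _) ((D.v i).nonneg _))
      · exact Finset.sum_nonneg (fun k _ => add_nonneg (norm_nonneg _) (norm_nonneg _))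
    linarith
  · intro n h hn hlen
    have hmem : h ∈ s := by
      rw [hs, Set.Finite.mem_toFinset, Set.mem_ofPred_eq]
      refine hlen.trans ?_
      rw [hR]
      exact Finset.single_le_sum (f := C.RR) (fun _ _ => Nat.zero_le _)
        (Finset.mem_range.mpr (Nat.lt_succ_of_le hn))
    have h1 : ((∑ i, (D.v i (D.χ h) + D.v i (D.x h))) +
        ∑ k, (‖D.e k (D.χ h)‖ + ‖D.e k (D.x h)‖)) ≤
        ∑ h ∈ s, ((∑ i, (D.v i (D.χ h) + D.v i (D.x h))) +
        ∑ k, (‖D.e k (D.χ h)‖ + ‖D.e k (D.x h)‖)) := by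
      apply Finset.single_le_sum (f := fun h => ((∑ i, (D.v i (D.χ h) + D.v i (D.x h))) +
        ∑ k, (‖D.e k (D.χ h)‖ + ‖D.e k (D.x h)‖))) _ hmem
      intro h _
      apply add_nonneg
      · exact Finset.sum_nonneg (fun i _ => add_nonneg ((D.v i).nonneg _) ((D.v i).nonneg _))
      · exact Finset.sum_nonneg (fun k _ => add_nonneg (norm_nonneg _) (norm_nonneg _))
    have hI : ∀ i, D.v i (D.χ h) + D.v i (D.x h) ≤ ∑ i, (D.v i (D.χ h) + D.v i (D.x h)) :=
      fun i => Finset.single_le_sum (f := fun i => (D.v i (D.χ h) + D.v i (D.x h)))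
        (fun i _ => add_nonneg ((D.v i).nonneg _) ((D.v i).nonneg _)) (Finset.mem_univ i)
    have hK : ∀ k, ‖D.e k (D.χ h)‖ + ‖D.e k (D.x h)‖ ≤
        ∑ k, (‖D.e k (D.χ h)‖ + ‖D.e k (D.x h)‖) :=
      fun k => Finset.single_le_sum (f := fun k => (‖D.e k (D.χ h)‖ + ‖D.e k (D.x h)‖))
        (fun k _ => add_nonneg (norm_nonneg _) (norm_nonneg _)) (Finset.mem_univ k)
    have hI0 : 0 ≤ ∑ i, (D.v i (D.χ h) + D.v i (D.x h)) :=
      Finset.sum_nonneg (fun i _ => add_nonneg ((D.v i).nonneg _) ((D.v i).nonneg _))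
    have hK0 : 0 ≤ ∑ k, (‖D.e k (D.χ h)‖ + ‖D.e k (D.x h)‖) :=
      Finset.sum_nonneg (fun k _ => add_nonneg (norm_nonneg _) (norm_nonneg _))
    refine ⟨fun i => ⟨?_, ?_⟩, fun k => ⟨?_, ?_⟩⟩
    · have := hI i
      have := (D.v i).nonneg (D.x h)
      linarith
    · have := hI i
      have := (D.v i).nonneg (D.χ h)
      linarith
    · have := hK k
      have := norm_nonneg (D.e k (D.x h))
      linarith
    · have := hK k
      have := norm_nonneg (D.e k (D.χ h))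
      linarith

open Classical in
/-- the vertices of all fillings of subcubes avoiding the direction `i` -/
noncomputable def VV (T : ℕ) (b : Fin r → G) (i : I) (a : I → G) : Finset G :=
  ((LL I r).sublists.toFinset.filter (fun L' => Sum.inl i ∉ L')).biUnion
    (fun L' => (th C.α T (Sum.elim a b) L'.length L').support.biUnion (fun l => l.toFinset))

theorem mem_VV {T : ℕ} {b : Fin r → G} {i : I} {a : I → G} {L' : List (I ⊕ Fin r)}
    (h1 : L'.Sublist (LL I r)) (h2 : Sum.inl i ∉ L') {l : List G}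
    (hl : l ∈ (th C.α T (Sum.elim a b) L'.length L').support) {g : G} (hg : g ∈ l) :
    g ∈ VV C T b i a := by
  classical
  rw [VV, Finset.mem_biUnion]
  refine ⟨L', ?_, ?_⟩
  · rw [Finset.mem_filter, List.mem_toFinset, List.mem_sublists]
    exact ⟨h1, h2⟩
  · rw [Finset.mem_biUnion]
    exact ⟨l, hl, List.mem_toFinset.mpr hg⟩

theorem VV_congr {T : ℕ} {b : Fin r → G} {i : I} {a a' : I → G} (h : ∀ j, j ≠ i → a j = a' j) :
    VV C T b i a = VV C T b i a' := by
  classical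
  rw [VV, VV]
  apply Finset.biUnion_congr rfl
  intro L' hL'
  rw [Finset.mem_filter] at hL'
  rw [th_congr]
  rintro (j | k) hj
  · exact h j (fun hji => hL'.2 (hji ▸ hj))
  · rfl

theorem card_VV_le {ℓ T : ℕ} {b : Fin r → G} {i : I} {a : I → G} (hb : ∀ k, C.len (b k) ≤ ℓ)
    (ha : ∀ j, C.len (a j) ≤ ℓ) {W : ℕ} (hW : ∀ n ≤ Fintype.card I + r, Combing.mm T n ≤ W) :
    (VV C T b i a).card ≤ 2 ^ (Fintype.card I + r) * ((Fintype.card I + r + 1) * W) := by
  classical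
  rw [VV]
  refine (Finset.card_biUnion_le_card_mul _ _ ((Fintype.card I + r + 1) * W) ?_).trans ?_
  · intro L' hL'
    rw [Finset.mem_filter, List.mem_toFinset, List.mem_sublists] at hL'
    have hlen : L'.length ≤ Fintype.card I + r := by
      rw [← length_LL]
      exact hL'.1.length_le
    have h1 : th C.α T (Sum.elim a b) L'.length L' ∈ On (fun l => l.length = L'.length + 1) := by
      apply On_mono (fun l hl => hl.1) (C.th_Sz (ℓ := ℓ) (T := T) L'.length L' _)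
      rintro (j | k) _
      · exact ha j
      · exact hb k
    refine (card_vertices_le h1).trans ?_
    apply Nat.mul_le_mul (by omega)
    exact (Combing.mass_th C _ _ rfl).trans (hW _ hlen)
  · apply Nat.mul_le_mul_right
    refine (Finset.card_filter_le _ _).trans ?_
    refine (List.toFinset_card_le _).trans ?_
    rw [List.length_sublists, length_LL]

/-- the index function -/
noncomputable def ff (T : ℕ) (b : Fin r → G) (a : I → G) (ρ : I → ℝ) (i : I) (g : G) : ℂ :=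
  open Classical in
  if ∃ w ∈ VV C T b i a, D.v i (D.x g - D.x w) < ρ i then 1 else 0

theorem ff_eq_one {T : ℕ} {b : Fin r → G} {a : I → G} {ρ : I → ℝ} {i : I} {g : G}
    (h : ∃ w ∈ VV C T b i a, D.v i (D.x g - D.x w) < ρ i) : D.ff C T b a ρ i g = 1 := by
  classical
  rw [ff, if_pos h]

theorem ff_eq_zero {T : ℕ} {b : Fin r → G} {a : I → G} {ρ : I → ℝ} {i : I} {g : G}
    (h : ¬ ∃ w ∈ VV C T b i a, D.v i (D.x g - D.x w) < ρ i) : D.ff C T b a ρ i g = 0 := by
  classical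
  rw [ff, if_neg h]

theorem norm_ff_sub_le {T : ℕ} {b : Fin r → G} {a : I → G} {ρ : I → ℝ} {i : I} (g g' : G) :
    ‖D.ff C T b a ρ i g' - D.ff C T b a ρ i g‖ ≤ 1 := by
  by_cases h : ∃ w ∈ VV C T b i a, D.v i (D.x g - D.x w) < ρ i <;>
  by_cases h' : ∃ w ∈ VV C T b i a, D.v i (D.x g' - D.x w) < ρ i
  · rw [ff_eq_one D C h, ff_eq_one D C h']; simp
  · rw [ff_eq_one D C h, ff_eq_zero D C h']; simp
  · rw [ff_eq_zero D C h, ff_eq_one D C h']; simp
  · rw [ff_eq_zero D C h, ff_eq_zero D C h']; simp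

theorem le_of_ff_ne {T : ℕ} {b : Fin r → G} {a : I → G} {ρ : I → ℝ} {i : I} {g g' : G}
    (hne : D.ff C T b a ρ i g' ≠ D.ff C T b a ρ i g) : ρ i ≤ D.v i (D.x g' - D.x g) := by
  by_contra hlt
  rw [not_le] at hlt
  apply hne
  by_cases h : ∃ w ∈ VV C T b i a, D.v i (D.x g - D.x w) < ρ i
  · have h' : ∃ w ∈ VV C T b i a, D.v i (D.x g' - D.x w) < ρ i := by
      obtain ⟨w, hw, hlt'⟩ := h
      refine ⟨w, hw, ?_⟩
      have : D.x g' - D.x w = (D.x g' - D.x g) + (D.x g - D.x w) := by ring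
      rw [this]
      exact (D.ultra i _ _).trans_lt (max_lt hlt hlt')
    rw [ff_eq_one D C h, ff_eq_one D C h']
  · have h' : ¬ ∃ w ∈ VV C T b i a, D.v i (D.x g' - D.x w) < ρ i := by
      rintro ⟨w, hw, hlt'⟩
      apply h
      refine ⟨w, hw, ?_⟩
      have : D.x g - D.x w = (D.x g' - D.x w) - (D.x g' - D.x g) := by ring
      rw [this]
      exact (D.ultra_sub i _ _).trans_lt (max_lt hlt' hlt)
    rw [ff_eq_zero D C h, ff_eq_zero D C h']

theorem x_mul_A {a : G} (ha : a ∈ D.A) (g : G) : D.x (a * g) = D.x a + D.x g := by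
  rw [D.x_mul, D.χ_A a ha, one_mul]

variable [DecidableEq I]

theorem exists_good {ℓ T : ℕ} {b : Fin r → G} (hb : ∀ k, C.len (b k) ≤ ℓ) {W : ℕ}
    (hW : ∀ n ≤ Fintype.card I + r, Combing.mm T n ≤ W) {ρ : I → ℝ} {S : I → Finset G}
    (hS : ∀ i, ∀ a ∈ S i, C.len a ≤ ℓ)
    (hsep : ∀ i, ∀ a ∈ S i, ∀ a' ∈ S i, a ≠ a' → ρ i ≤ D.v i (D.x a - D.x a'))
    (hcard : ∀ i, Fintype.card I *
      (2 ^ (Fintype.card I + r) * ((Fintype.card I + r + 1) * W)) ^ 2 < (S i).card) :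
    ∃ a : I → G, (∀ i, a i ∈ S i) ∧ ∀ i, ∀ g ∈ VV C T b i a, ∀ g' ∈ VV C T b i a,
      ρ i ≤ D.v i (D.x (a i) + D.x g - D.x g') := by
  classical
  suffices hsuff : ∀ i, ∀ a : I → G, (∀ j, a j ∈ S j) →
      Set.ncard {s | s ∈ S i ∧ ∃ g ∈ VV C T b i (Function.update a i s),
        ∃ g' ∈ VV C T b i (Function.update a i s),
        D.v i (D.x ((Function.update a i s) i) + D.x g - D.x g') < ρ i} ≤
      (2 ^ (Fintype.card I + r) * ((Fintype.card I + r + 1) * W)) ^ 2 by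
    obtain ⟨a, ha, hP⟩ := exists_choice S (fun i a => ∃ g ∈ VV C T b i a, ∃ g' ∈ VV C T b i a,
      D.v i (D.x (a i) + D.x g - D.x g') < ρ i)
      ((2 ^ (Fintype.card I + r) * ((Fintype.card I + r + 1) * W)) ^ 2) hsuff hcard
    refine ⟨a, ha, ?_⟩
    intro i g hg g' hg'
    by_contra hlt
    rw [not_le] at hlt
    exact hP i ⟨g, hg, g', hg', hlt⟩
  · intro i a ha
    have hVV : ∀ s, VV C T b i (Function.update a i s) = VV C T b i a := by
      intro s
      apply VV_congr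
      intro j hj
      rw [Function.update_of_ne hj]
    have hcardV := card_VV_le C (T := T) (i := i) hb (fun j => hS j _ (ha j)) hW
    have hsub : {s | s ∈ S i ∧ ∃ g ∈ VV C T b i (Function.update a i s),
        ∃ g' ∈ VV C T b i (Function.update a i s),
        D.v i (D.x ((Function.update a i s) i) + D.x g - D.x g') < ρ i} ⊆
        ((VV C T b i a ×ˢ VV C T b i a).biUnion (fun p => (S i).filter
          (fun s => D.v i (D.x s + D.x p.1 - D.x p.2) < ρ i)) : Finset G) := by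
      rintro s ⟨hs, g, hg, g', hg', hlt⟩
      rw [hVV] at hg hg'
      rw [Function.update_self] at hlt
      rw [Finset.mem_coe, Finset.mem_biUnion]
      exact ⟨(g, g'), Finset.mem_product.mpr ⟨hg, hg'⟩, Finset.mem_filter.mpr ⟨hs, hlt⟩⟩
    refine (Set.ncard_le_ncard hsub (Finset.finite_toSet _)).trans ?_
    rw [Set.ncard_coe_finset]
    refine (Finset.card_biUnion_le_card_mul _ _ 1 ?_).trans ?_
    · rintro ⟨g, g'⟩ _
      rw [Finset.card_le_one]
      intro s hs s' hs'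
      rw [Finset.mem_filter] at hs hs'
      by_contra hne
      have h1 := hsep i s hs.1 s' hs'.1 hne
      have h2 : D.x s - D.x s' = (D.x s + D.x g - D.x g') - (D.x s' + D.x g - D.x g') := by ring
      rw [h2] at h1
      exact absurd ((D.ultra_sub i _ _).trans_lt (max_lt hs.2 hs'.2)) (not_lt.mpr h1)
    · rw [mul_one, Finset.card_product, ← sq]
      exact Nat.pow_le_pow_left hcardV 2

theorem det_eq {ℓ T : ℕ} (hT : ∀ k ≤ Fintype.card I + r, C.c * (C.rr ℓ k + ℓ + 1) ≤ T)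
    {b : Fin r → G} {ρ : I → ℝ} (hρ : ∀ i, 0 < ρ i)
    (hb : ∀ k, b k ∈ D.A ∧ C.len (b k) ≤ ℓ ∧ ∀ i, D.v i (D.x (b k)) < ρ i) {a : I → G}
    (ha : ∀ i, a i ∈ D.A ∧ C.len (a i) ≤ ℓ ∧ ∀ i', i' ≠ i → D.v i' (D.x (a i)) < ρ i')
    (hgood : ∀ i, ∀ g ∈ VV C T b i a, ∀ g' ∈ VV C T b i a,
      ρ i ≤ D.v i (D.x (a i) + D.x g - D.x g')) :
    ‖pair (cup ((LL I r).map (Sum.elim (D.ff C T b a ρ) (fun k g => D.e k (D.x g)))))
      (th C.α T (Sum.elim a b) (LL I r).length (LL I r))‖ =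
    ‖Matrix.det (Matrix.of fun k k' => D.e k (D.x (b k')))‖ := by
  have hA : ∀ j : I ⊕ Fin r, Sum.elim a b j ∈ D.A := by
    rintro (j | k)
    · exact (ha j).1
    · exact (hb k).1
  have key := pair_cup_th C (ℓ := ℓ) (T := T) (a := Sum.elim a b)
    (Sum.elim (D.ff C T b a ρ) (fun k g => D.e k (D.x g)))
    (cc (fun k j => D.e k (D.x (Sum.elim a b j)))) (LL I r)
    (fun k hk => hT k (by rwa [length_LL] at hk)) nodup_LL
    (by
      rintro (j | k) _
      · exact (ha j).2.1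
      · exact (hb k).2.1)
    (fun i _ j _ => D.comm _ (hA i) _ (hA j)) (LL I r) ?_ (LL I r) (fun f hf => hf) (LL I r)
    (List.Sublist.refl _) rfl
  · rw [key, norm_ldet_LL]
    rfl
  · rintro (j | k) _ i _ L' hL' hiL' l hl g hg
    · -- an index function
      show D.ff C T b a ρ j (Sum.elim a b i * g) = D.ff C T b a ρ j g + _
      by_cases hij : i = Sum.inl j
      · subst hij
        have hgV : g ∈ VV C T b j a := mem_VV C hL' hiL' hl hg
        have h1 : D.ff C T b a ρ j g = 1 := by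
          apply ff_eq_one
          exact ⟨g, hgV, by rw [sub_self, (D.v j).map_zero]; exact hρ j⟩
        have h2 : D.ff C T b a ρ j (Sum.elim a b (Sum.inl j) * g) = 0 := by
          apply ff_eq_zero
          rintro ⟨w, hw, hlt⟩
          rw [D.x_mul_A (hA _)] at hlt
          exact absurd hlt (not_lt.mpr (hgood j g hgV w hw))
        rw [h1, h2]
        simp [cc]
      · have hsmall : D.v j (D.x (Sum.elim a b i)) < ρ j := by
          rcases i with i | k
          · exact (ha i).2.2 j (fun h => hij (by rw [h]))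
          · exact (hb k).2.2 j
        have hc : cc (fun k j => D.e k (D.x (Sum.elim a b j))) (Sum.inl j) i = 0 := by
          rcases i with i | k
          · have : i ≠ j := fun h => hij (by rw [h])
            simp [cc, this]
          · rfl
        rw [hc, add_zero]
        by_contra hne
        have := D.le_of_ff_ne C hne
        rw [D.x_mul_A (hA _), add_sub_cancel_right] at this
        exact absurd hsmall (not_lt.mpr this)
    · show D.e k (D.x (Sum.elim a b i * g)) = D.e k (D.x g) + D.e k (D.x (Sum.elim a b i))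
      rw [D.x_mul_A (hA _), map_add]
      ring

omit [DecidableEq I] in
set_option maxHeartbeats 2000000 in
/-- **The obstruction inequality.** -/
theorem obstruction : ∃ B : ℝ, ∃ N : ℕ, 0 < B ∧ ∀ ℓ : ℕ, 1 ≤ ℓ → ∀ ρ : I → ℝ, (∀ i, 0 < ρ i) →
    ∀ b : Fin r → G, (∀ k, b k ∈ D.A ∧ C.len (b k) ≤ ℓ ∧ ∀ i, D.v i (D.x (b k)) < ρ i) →
    ∀ S : I → Finset G,
      (∀ i, ∀ a ∈ S i, a ∈ D.A ∧ C.len a ≤ ℓ ∧ ∀ i', i' ≠ i → D.v i' (D.x a) < ρ i') →
      (∀ i, ∀ a ∈ S i, ∀ a' ∈ S i, a ≠ a' → ρ i ≤ D.v i (D.x a - D.x a')) →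
      (∀ i, B * (ℓ : ℝ) ^ N < (S i).card) →
      ‖Matrix.det (Matrix.of fun k k' => D.e k (D.x (b k')))‖ * ∏ i, (ρ i) ^ (D.lam i) ≤
        B * (ℓ : ℝ) ^ N := by
  classical
  set m := Fintype.card I + r with hm
  obtain ⟨Bm, hBm1, hBm⟩ := C.mm_le m
  obtain ⟨M, hM1, hM⟩ := D.exists_bound C
  have hM0 : (0 : ℝ) < M := by linarith
  set B₁ : ℝ := (M ^ 2) ^ r * ∏ i, (M ^ 2) ^ (D.lam i) with hB₁
  have hB₁pos : 0 < B₁ := by
    apply mul_pos (by positivity)
    exact Finset.prod_pos (fun i _ => Real.rpow_pos_of_pos (by positivity) _)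
  set B₂ : ℕ := Fintype.card I * (2 ^ m * ((m + 1) * Bm)) ^ 2 with hB₂
  refine ⟨B₁ * Bm + B₂ + 1, 2 * m, by positivity, ?_⟩
  intro ℓ hℓ ρ hρ b hb S hS hsep hcard
  have hℓR : (1 : ℝ) ≤ ℓ := by exact_mod_cast hℓ
  have hℓpow : (ℓ : ℝ) ^ m ≤ (ℓ : ℝ) ^ (2 * m) := pow_le_pow_right₀ hℓR (by omega)
  have hℓpos : (0 : ℝ) < (ℓ : ℝ) ^ m := by positivity
  have hT := C.le_TT m ℓ
  set T := C.TT m ℓ with hTdef
  have hW : ∀ n ≤ Fintype.card I + r, Combing.mm T n ≤ Bm * ℓ ^ m := fun n hn => hBm ℓ hℓ n hn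
  obtain ⟨a, haS, hgood⟩ := D.exists_good C (b := b) (ρ := ρ) (S := S) (fun k => (hb k).2.1) hW
    (fun i a ha => (hS i a ha).2.1) hsep (by
      intro i
      have h1 := hcard i
      have h2 : ((Fintype.card I * (2 ^ (Fintype.card I + r) *
          ((Fintype.card I + r + 1) * (Bm * ℓ ^ m))) ^ 2 : ℕ) : ℝ) = B₂ * (ℓ : ℝ) ^ (2 * m) := by
        rw [hB₂, ← hm]
        push_cast
        ring
      have h3 : (B₂ : ℝ) * (ℓ : ℝ) ^ (2 * m) ≤ (B₁ * Bm + B₂ + 1) * (ℓ : ℝ) ^ (2 * m) := by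
        apply mul_le_mul_of_nonneg_right _ (by positivity)
        have : 0 ≤ B₁ * Bm := by positivity
        linarith
      have h4 := h3.trans_lt h1
      rw [← h2] at h4
      exact_mod_cast h4)
  have ha : ∀ i, a i ∈ D.A ∧ C.len (a i) ≤ ℓ ∧ ∀ i', i' ≠ i → D.v i' (D.x (a i)) < ρ i' :=
    fun i => hS i (a i) (haS i)
  have hdet := D.det_eq C (ℓ := ℓ) (T := T) hT hρ hb ha hgood
  rw [← hdet]
  have hPi : 0 < ∏ i, (ρ i) ^ (D.lam i) :=
    Finset.prod_pos (fun i _ => Real.rpow_pos_of_pos (hρ i) _)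
  -- bound for the values on the simplices
  have hval : ∀ l ∈ (th C.α T (Sum.elim a b) (LL I r).length (LL I r)).support,
      ‖cup ((LL I r).map (Sum.elim (D.ff C T b a ρ) (fun k g => D.e k (D.x g)))) l‖ ≤
        B₁ / ∏ i, (ρ i) ^ (D.lam i) := by
    intro l hl
    by_cases hzero : cup ((LL I r).map (Sum.elim (D.ff C T b a ρ) (fun k g => D.e k (D.x g)))) l = 0
    · rw [hzero, norm_zero]
      positivity
    have hsz := mem_On.mp (C.th_Sz (ℓ := ℓ) (T := T) (a := Sum.elim a b) (LL I r).length (LL I r)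
      (by
        rintro (j | k) _
        · exact (ha j).2.1
        · exact (hb k).2.1)) l hl
    obtain ⟨hlen, -, hdiam⟩ := hsz
    rw [length_LL] at hlen hdiam
    obtain ⟨g₀, hg₀⟩ : ∃ g₀, g₀ ∈ l := by
      match l, hlen with
      | g :: _, _ => exact ⟨g, by simp⟩
    have hvx : ∀ i, ∀ g ∈ l, ∀ g' ∈ l, D.v i (D.x g' - D.x g) ≤ M ^ 2 * D.v i (D.χ g₀) := by
      intro i g hg g' hg'
      rw [D.x_sub, (D.v i).map_mul]
      have e1 : g = g₀ * (g₀⁻¹ * g) := by group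
      have h1 := ((hM _ _ le_rfl (hdiam g₀ hg₀ g hg)).1 i).1
      have h2 := ((hM _ _ le_rfl (hdiam g hg g' hg')).1 i).2
      have h3 : D.v i (D.χ g) = D.v i (D.χ g₀) * D.v i (D.χ (g₀⁻¹ * g)) := by
        conv_lhs => rw [e1]
        rw [map_mul, (D.v i).map_mul]
      rw [h3]
      calc D.v i (D.χ g₀) * D.v i (D.χ (g₀⁻¹ * g)) * D.v i (D.x (g⁻¹ * g'))
          ≤ D.v i (D.χ g₀) * M * M := by
            apply mul_le_mul _ h2 ((D.v i).nonneg _) (by
              exact mul_nonneg ((D.v i).nonneg _) hM0.le)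
            exact mul_le_mul_of_nonneg_left h1 ((D.v i).nonneg _)
        _ = M ^ 2 * D.v i (D.χ g₀) := by ring
    have hex : ∀ k, ∀ g ∈ l, ∀ g' ∈ l,
        ‖D.e k (D.x g') - D.e k (D.x g)‖ ≤ M ^ 2 * ‖D.e k (D.χ g₀)‖ := by
      intro k g hg g' hg'
      rw [← map_sub, D.x_sub, map_mul, norm_mul]
      have e1 : g = g₀ * (g₀⁻¹ * g) := by group
      have h1 := ((hM _ _ le_rfl (hdiam g₀ hg₀ g hg)).2 k).1
      have h2 := ((hM _ _ le_rfl (hdiam g hg g' hg')).2 k).2
      have h3 : ‖D.e k (D.χ g)‖ = ‖D.e k (D.χ g₀)‖ * ‖D.e k (D.χ (g₀⁻¹ * g))‖ := by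
        conv_lhs => rw [e1]
        rw [map_mul, map_mul, norm_mul]
      rw [h3]
      calc ‖D.e k (D.χ g₀)‖ * ‖D.e k (D.χ (g₀⁻¹ * g))‖ * ‖D.e k (D.x (g⁻¹ * g'))‖
          ≤ ‖D.e k (D.χ g₀)‖ * M * M := by
            apply mul_le_mul _ h2 (norm_nonneg _) (by positivity)
            exact mul_le_mul_of_nonneg_left h1 (norm_nonneg _)
        _ = M ^ 2 * ‖D.e k (D.χ g₀)‖ := by ring
    have hρle : ∀ i, ρ i ≤ M ^ 2 * D.v i (D.χ g₀) := by
      intro i
      obtain ⟨g, hg, g', hg', hne⟩ := exists_ne_of_cup_ne_zero _ _ _ hzero (Sum.inl i)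
        (by rw [LL]; simp)
      exact (D.le_of_ff_ne C hne).trans (hvx i g hg g' hg')
    have h1 := norm_cup_map_le (Sum.elim (D.ff C T b a ρ) (fun k g => D.e k (D.x g)))
      (Sum.elim (fun _ => 1) (fun k => M ^ 2 * ‖D.e k (D.χ g₀)‖)) (LL I r) l (by
        rintro (i | k) _
        · exact ⟨zero_le_one, fun g _ g' _ => D.norm_ff_sub_le C g g'⟩
        · exact ⟨by simp only [Sum.elim_inr]; positivity, fun g hg g' hg' => hex k g hg g' hg'⟩)
    have h2 : ((LL I r).map (Sum.elim (fun _ => (1 : ℝ))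
        (fun k => M ^ 2 * ‖D.e k (D.χ g₀)‖))).prod = (M ^ 2) ^ r * ∏ k, ‖D.e k (D.χ g₀)‖ := by
      rw [LL, List.map_append, List.prod_append, List.map_map, List.map_map]
      have e1 : ((Finset.univ : Finset I).toList.map ((Sum.elim (fun _ => (1 : ℝ))
        (fun k => M ^ 2 * ‖D.e k (D.χ g₀)‖)) ∘ Sum.inl)).prod = 1 := by
        rw [Finset.prod_map_toList]
        simp
      rw [e1, one_mul, ← List.ofFn_eq_map, List.prod_ofFn]
      simp only [Function.comp_apply, Sum.elim_inr]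
      rw [Finset.prod_mul_distrib, Finset.prod_const, Finset.card_univ, Fintype.card_fin]
    rw [h2] at h1
    refine h1.trans ?_
    rw [le_div_iff₀ hPi]
    have h3 : ∏ i, (ρ i) ^ (D.lam i) ≤
        (∏ i, (M ^ 2) ^ (D.lam i)) * ∏ i, (D.v i (D.χ g₀)) ^ (D.lam i) := by
      rw [← Finset.prod_mul_distrib]
      apply Finset.prod_le_prod
      · intro i _
        exact (Real.rpow_pos_of_pos (hρ i) _).le
      · intro i _
        rw [← Real.mul_rpow (by positivity) ((D.v i).nonneg _)]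
        exact Real.rpow_le_rpow (hρ i).le (hρle i) (D.lam_pos i).le
    calc (M ^ 2) ^ r * (∏ k, ‖D.e k (D.χ g₀)‖) * ∏ i, (ρ i) ^ (D.lam i)
        ≤ (M ^ 2) ^ r * (∏ k, ‖D.e k (D.χ g₀)‖) *
          ((∏ i, (M ^ 2) ^ (D.lam i)) * ∏ i, (D.v i (D.χ g₀)) ^ (D.lam i)) := by
          apply mul_le_mul_of_nonneg_left h3
          exact mul_nonneg (by positivity) (Finset.prod_nonneg (fun k _ => norm_nonneg _))
      _ = B₁ * ((∏ k, ‖D.e k (D.χ g₀)‖) * ∏ i, (D.v i (D.χ g₀)) ^ (D.lam i)) := by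
          rw [hB₁]; ring
      _ = B₁ := by rw [D.rel, mul_one]
  have hmass : (mass (th C.α T (Sum.elim a b) (LL I r).length (LL I r)) : ℝ) ≤
      Bm * (ℓ : ℝ) ^ m := by
    have h1 := Combing.mass_th C (T := T) (a := Sum.elim a b) (LL I r).length (LL I r) rfl
    have h2 := hW (LL I r).length (by rw [length_LL])
    exact_mod_cast h1.trans h2
  calc ‖pair (cup ((LL I r).map (Sum.elim (D.ff C T b a ρ) (fun k g => D.e k (D.x g)))))
          (th C.α T (Sum.elim a b) (LL I r).length (LL I r))‖ * ∏ i, (ρ i) ^ (D.lam i)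
      ≤ (mass (th C.α T (Sum.elim a b) (LL I r).length (LL I r)) *
        (B₁ / ∏ i, (ρ i) ^ (D.lam i))) * ∏ i, (ρ i) ^ (D.lam i) :=
        mul_le_mul_of_nonneg_right (norm_pair_le hval) hPi.le
    _ = mass (th C.α T (Sum.elim a b) (LL I r).length (LL I r)) * B₁ := by
        rw [mul_assoc, div_mul_cancel₀ _ hPi.ne']
    _ ≤ (Bm * (ℓ : ℝ) ^ m) * B₁ := mul_le_mul_of_nonneg_right hmass hB₁pos.le
    _ = (B₁ * Bm) * (ℓ : ℝ) ^ m := by ring
    _ ≤ (B₁ * Bm + B₂ + 1) * (ℓ : ℝ) ^ (2 * m) := by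
        apply mul_le_mul _ hℓpow hℓpos.le (by positivity)
        have : (0 : ℝ) ≤ B₂ := Nat.cast_nonneg _
        linarith

end Datum

end Pool.Agent.Lib.MP_59c382_al
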