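import Pool.Agent.Lib.MP_59c382_al.Case1

/-!
# Positive law and root property
-/

set_option autoImplicit false

namespace Pool.Agent.Lib.MP_59c382_al

/-- torsion exponent of a noetherian module -/
theorem torsion_exponent (R M : Type*) [CommRing R] [AddCommGroup M] [Module R M]
    [IsNoetherian R M] :
    ∃ e : ℕ, 0 < e ∧ ∀ y : M, ∀ c : ℕ, 0 < c → c • y = 0 → e • y = 0 := by
  let f : ℕ →o Submodule R M :=
    { toFun := fun n => LinearMap.ker (LinearMap.lsmul R M ((n.factorial : ℕ) : R))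
      monotone' := by
        intro a b hab y hy
        rw [LinearMap.mem_ker, LinearMap.lsmul_apply] at hy ⊢
        obtain ⟨c, hc⟩ := Nat.factorial_dvd_factorial hab
        rw [hc, Nat.cast_mul, mul_comm, mul_smul, hy, smul_zero] }
  obtain ⟨n, hn⟩ := (monotone_stabilizes_iff_noetherian (R := R) (M := M)).mpr inferInstance f
  refine ⟨n.factorial, n.factorial_pos, ?_⟩
  intro y c hc hy
  have h1 : y ∈ f (max n c) := by
    show y ∈ LinearMap.ker (LinearMap.lsmul R M (((max n c).factorial : ℕ) : R))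
    rw [LinearMap.mem_ker, LinearMap.lsmul_apply]
    obtain ⟨d, hd⟩ := Nat.dvd_factorial hc (le_max_right n c)
    rw [hd, Nat.cast_smul_eq_nsmul, mul_comm, mul_smul, hy, smul_zero]
  rw [← hn (max n c) (le_max_left _ _)] at h1
  have h2 : y ∈ LinearMap.ker (LinearMap.lsmul R M ((n.factorial : ℕ) : R)) := h1
  rw [LinearMap.mem_ker, LinearMap.lsmul_apply, Nat.cast_smul_eq_nsmul] at h2
  exact h2

/-- the words of the positive law -/
def XY {G : Type*} [Mul G] (x y : G) : ℕ → G × G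
  | 0 => (x, y)
  | i + 1 => ((XY x y i).1 * (XY x y i).2, (XY x y i).2 * (XY x y i).1)

theorem geom_mul {R : Type*} [CommRing R] (h : R) (n n' : ℕ) :
    ∑ j ∈ Finset.range (n * n'), h ^ j =
      (∑ j ∈ Finset.range n, h ^ j) * ∑ l ∈ Finset.range n', (h ^ n) ^ l := by
  induction n' with
  | zero => simp
  | succ n' ih =>
    rw [Nat.mul_succ, Finset.sum_range_add, ih, Finset.sum_range_succ, mul_add]
    congr 1
    rw [← pow_mul, Finset.sum_mul]
    apply Finset.sum_congr rfl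
    intro j _
    rw [pow_add, mul_comm]

namespace ModData

variable {G : Type*} [Group G] {R : Type*} [CommRing R] {M : Type*} [AddCommGroup M]
  [Module R M] (Δ : ModData G R M)

theorem uniform [Algebra.FiniteType ℤ R] [Module.Finite R M] (C : Combing G) {S : Set G}
    (hS : S.Finite) (hgen : Subgroup.closure S = ⊤) :
    ∃ k : ℕ, 0 < k ∧ ∃ N : Ideal R, ∃ m : ℕ, (∀ q, Δ.π q ^ k - 1 ∈ N) ∧
      ∀ r ∈ N ^ m, ∀ y : M, r • y = 0 := by
  classical
  have hnoeth : IsNoetherianRing R := Algebra.FiniteType.isNoetherianRing ℤ R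
  have h1 := fun q => Δ.case1 C hS hgen q
  choose k hk m hm using h1
  set N := (Module.annihilator R M).radical with hN
  have h2 : ∀ q, Δ.π q ^ k q - 1 ∈ N := by
    intro q
    exact ⟨m q, Module.mem_annihilator.mpr (hm q)⟩
  set K := ∏ s ∈ hS.toFinset, k s with hK
  have hKpos : 0 < K := Finset.prod_pos (fun s _ => hk s)
  obtain ⟨n, hn⟩ := Ideal.exists_radical_pow_le_of_fg (Module.annihilator R M)
    (IsNoetherian.noetherian _)
  refine ⟨K, hKpos, N, n, ?_, ?_⟩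
  · intro q
    have hq : q ∈ Subgroup.closure S := by rw [hgen]; trivial
    induction hq using Subgroup.closure_induction with
    | mem s hs =>
      obtain ⟨c, hc⟩ : k s ∣ K := Finset.dvd_prod_of_mem k ((Set.Finite.mem_toFinset hS).mpr hs)
      rw [hc, pow_mul]
      have h3 : Δ.π s ^ k s - 1 ∣ (Δ.π s ^ k s) ^ c - 1 := by
        simpa using sub_dvd_pow_sub_pow (Δ.π s ^ k s) 1 c
      exact Ideal.mem_of_dvd N h3 (h2 s)
    | one => rw [map_one, one_pow, sub_self]; exact N.zero_mem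
    | mul a b _ _ ha hb =>
      have : Δ.π (a * b) ^ K - 1 = Δ.π a ^ K * (Δ.π b ^ K - 1) + (Δ.π a ^ K - 1) := by
        rw [map_mul]; ring
      rw [this]
      exact N.add_mem (N.mul_mem_left _ hb) ha
    | inv a _ ha =>
      have h3 : Δ.π a⁻¹ ^ K * Δ.π a ^ K = 1 := by
        rw [← mul_pow, ← map_mul, inv_mul_cancel, map_one, one_pow]
      have : Δ.π a⁻¹ ^ K - 1 = - Δ.π a⁻¹ ^ K * (Δ.π a ^ K - 1) := by
        linear_combination h3
      rw [this]
      exact N.mul_mem_left _ ha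
  · intro r hr y
    exact Module.mem_annihilator.mp (hn hr) y

include Δ in
/-- **Positive law.** -/
theorem positive_law [Algebra.FiniteType ℤ R] [Module.Finite R M] (C : Combing G) {S : Set G}
    (hS : S.Finite) (hgen : Subgroup.closure S = ⊤) :
    ∃ k : ℕ, 0 < k ∧ ∃ m : ℕ, ∀ x y : G, (XY (x ^ k) (y ^ k) m).1 = (XY (x ^ k) (y ^ k) m).2 := by
  obtain ⟨k, hk, N, m, hN, hm⟩ := Δ.uniform C hS hgen
  refine ⟨k, hk, m + 1, ?_⟩
  intro x y
  have hA : ∀ i, Δ.π (XY (x ^ k) (y ^ k) i).1 - 1 ∈ N ∧ Δ.π (XY (x ^ k) (y ^ k) i).2 - 1 ∈ N := by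
    intro i
    induction i with
    | zero => exact ⟨by simpa [XY] using hN x, by simpa [XY] using hN y⟩
    | succ i ih =>
      have h1 : ∀ a b : G, Δ.π a - 1 ∈ N → Δ.π b - 1 ∈ N → Δ.π (a * b) - 1 ∈ N := by
        intro a b ha hb
        have : Δ.π (a * b) - 1 = Δ.π a * (Δ.π b - 1) + (Δ.π a - 1) := by
          rw [map_mul]; ring
        rw [this]
        exact N.add_mem (N.mul_mem_left _ hb) ha
      exact ⟨h1 _ _ ih.1 ih.2, h1 _ _ ih.2 ih.1⟩
  have hB : ∀ i, ∃ z : Δ.A, (XY (x ^ k) (y ^ k) (i + 1)).2 = (XY (x ^ k) (y ^ k) (i + 1)).1 * z ∧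
      ∃ r ∈ N ^ i, ∃ y' : M, Δ.μ z = r • y' := by
    intro i
    induction i with
    | zero =>
      set a := x ^ k
      set b := y ^ k
      refine ⟨⟨b⁻¹ * a⁻¹ * b⁻¹⁻¹ * a⁻¹⁻¹, Δ.quot b⁻¹ a⁻¹⟩, ?_, 1, ?_, _, (one_smul R _).symm⟩
      · show b * a = (a * b) * (b⁻¹ * a⁻¹ * b⁻¹⁻¹ * a⁻¹⁻¹)
        group
      · rw [pow_zero, Ideal.one_eq_top]; trivial
    | succ i ih =>
      obtain ⟨z, hz, r, hr, y', hy'⟩ := ih
      set a := (XY (x ^ k) (y ^ k) (i + 1)).1 with ha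
      have haN : Δ.π a⁻¹ - 1 ∈ N := by
        have h1 := (hA (i + 1)).1
        rw [← ha] at h1
        have h3 : Δ.π a⁻¹ * Δ.π a = 1 := by rw [← map_mul, inv_mul_cancel, map_one]
        have : Δ.π a⁻¹ - 1 = - Δ.π a⁻¹ * (Δ.π a - 1) := by
          linear_combination h3
        rw [this]
        exact N.mul_mem_left _ h1
      refine ⟨z⁻¹ * ⟨a⁻¹ * z * a⁻¹⁻¹, Δ.normal.conj_mem z z.2 a⁻¹⟩, ?_,
        (Δ.π a⁻¹ - 1) * r, ?_, y', ?_⟩
      · show (XY (x ^ k) (y ^ k) (i + 1)).2 * (XY (x ^ k) (y ^ k) (i + 1)).1 =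
          ((XY (x ^ k) (y ^ k) (i + 1)).1 * (XY (x ^ k) (y ^ k) (i + 1)).2) *
            ((z : G)⁻¹ * (a⁻¹ * z * a⁻¹⁻¹))
        rw [hz, ← ha]
        group
      · rw [pow_succ']
        exact Ideal.mul_mem_mul haN hr
      · rw [Δ.μ_mul, Δ.μ_inv, ← Δ.act a⁻¹ z, hy', mul_smul, sub_smul, one_smul]
        abel
  obtain ⟨z, hz, r, hr, y', hy'⟩ := hB m
  have hz1 : z = 1 := by
    apply Δ.μ_inj
    rw [Δ.μ_one, hy', hm r hr]
  rw [hz, hz1]
  simp

/-- **Root property.** -/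
theorem root_property [Algebra.FiniteType ℤ R] [Module.Finite R M] (C : Combing G) {S : Set G}
    (hS : S.Finite) (hgen : Subgroup.closure S = ⊤)
    (hQ : ∃ e : ℕ, 0 < e ∧ ∀ g : G, ∀ c : ℕ, 0 < c → g ^ c ∈ Δ.A → g ^ e ∈ Δ.A) :
    ∃ e : ℕ, 0 < e ∧ ∀ x y : G, ∀ c : ℕ, 0 < c → x ^ c = y ^ c → x ^ e = y ^ e := by
  obtain ⟨k, hk, N, m, hN, hm⟩ := Δ.uniform C hS hgen
  obtain ⟨eQ, heQ, hQ⟩ := hQ
  have hnoeth : IsNoetherianRing R := Algebra.FiniteType.isNoetherianRing ℤ R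
  obtain ⟨eA, heA, hA⟩ := torsion_exponent R M
  refine ⟨eQ * k * eA ^ m, by positivity, ?_⟩
  intro x y c hc hxy
  -- modulo `A`
  have hmod : y ^ (eQ * k) * (x ^ (eQ * k))⁻¹ ∈ Δ.A := by
    have := Δ.normal
    have hcomm : ∀ a b : G ⧸ Δ.A, Commute a b := by
      intro a b
      obtain ⟨a, rfl⟩ := QuotientGroup.mk_surjective a
      obtain ⟨b, rfl⟩ := QuotientGroup.mk_surjective b
      show (QuotientGroup.mk a * QuotientGroup.mk b : G ⧸ Δ.A) =
        QuotientGroup.mk b * QuotientGroup.mk a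
      rw [← QuotientGroup.mk_mul, ← QuotientGroup.mk_mul, QuotientGroup.eq]
      have h1 := Δ.quot b⁻¹ a⁻¹
      have h2 : b⁻¹ * a⁻¹ * b⁻¹⁻¹ * a⁻¹⁻¹ = (a * b)⁻¹ * (b * a) := by group
      rwa [h2] at h1
    have h1 : (y * x⁻¹) ^ c ∈ Δ.A := by
      rw [← QuotientGroup.eq_one_iff, QuotientGroup.mk_pow, QuotientGroup.mk_mul,
        (hcomm _ _).mul_pow, ← QuotientGroup.mk_pow, ← QuotientGroup.mk_pow,
        ← QuotientGroup.mk_mul, inv_pow, hxy, mul_inv_cancel, QuotientGroup.mk_one]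
    have h2 := hQ _ c hc h1
    have h3 : (y * x⁻¹) ^ (eQ * k) ∈ Δ.A := by
      rw [pow_mul]
      exact Δ.A.pow_mem h2 k
    rw [← QuotientGroup.eq_one_iff] at h3 ⊢
    rw [QuotientGroup.mk_pow, QuotientGroup.mk_mul, (hcomm _ _).mul_pow, ← QuotientGroup.mk_pow,
        ← QuotientGroup.mk_pow, ← QuotientGroup.mk_mul, inv_pow] at h3
    exact h3
  set x₁ := x ^ (eQ * k) with hx₁
  set y₁ := y ^ (eQ * k) with hy₁
  set a : Δ.A := ⟨y₁ * x₁⁻¹, hmod⟩ with ha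
  set h := Δ.π x₁ with hh
  have hhN : h - 1 ∈ N := by
    rw [hh, hx₁, pow_mul, map_pow]
    exact hN _
  have hpowN : ∀ j : ℕ, h ^ j - 1 ∈ N := by
    intro j
    have : h - 1 ∣ h ^ j - 1 := by simpa using sub_dvd_pow_sub_pow h 1 j
    exact Ideal.mem_of_dvd N this hhN
  -- powers
  have hpow : ∀ n : ℕ, ∃ a' : Δ.A, y₁ ^ n = a' * x₁ ^ n ∧
      Δ.μ a' = (∑ j ∈ Finset.range n, h ^ j) • Δ.μ a := by
    intro n
    induction n with
    | zero => exact ⟨1, by simp, by simp [Δ.μ_one]⟩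
    | succ n ih =>
      obtain ⟨a', h1, h2⟩ := ih
      refine ⟨a * ⟨x₁ * a' * x₁⁻¹, Δ.normal.conj_mem a' a'.2 x₁⟩, ?_, ?_⟩
      · show y₁ ^ (n + 1) = (y₁ * x₁⁻¹) * (x₁ * a' * x₁⁻¹) * x₁ ^ (n + 1)
        rw [pow_succ', h1, pow_succ']
        group
      · rw [Δ.μ_mul, ← Δ.act x₁ a', h2, geom_sum_succ, add_smul, one_smul, mul_smul, add_comm]
  have hc1 : x₁ ^ c = y₁ ^ c := by
    rw [hx₁, hy₁, ← pow_mul, ← pow_mul, mul_comm _ c, pow_mul x c, pow_mul y c, hxy]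
  -- torsion
  have htors : (∑ j ∈ Finset.range c, h ^ j) • Δ.μ a = 0 := by
    obtain ⟨a', h1, h2⟩ := hpow c
    rw [← h2]
    have : a' = 1 := by
      apply Subtype.ext
      rw [hc1] at h1
      exact (mul_eq_right.mp h1.symm)
    rw [this, Δ.μ_one]
  have hgeomN : ∀ (h' : R), h' - 1 ∈ N → (∀ j : ℕ, h' ^ j - 1 ∈ N) → ∀ n : ℕ,
      (∑ j ∈ Finset.range n, h' ^ j) - n ∈ N := by
    intro h' _ hj n
    have : (∑ j ∈ Finset.range n, h' ^ j) - n = ∑ j ∈ Finset.range n, (h' ^ j - 1) := by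
      rw [Finset.sum_sub_distrib]
      simp
    rw [this]
    exact N.sum_mem (fun j _ => hj j)
  have hcm : (c ^ m) • Δ.μ a = 0 := by
    set ν := (∑ j ∈ Finset.range c, h ^ j) - c with hν
    have hνN : ν ∈ N := hgeomN h hhN hpowN c
    have h1 : ((c : R) + ν) • Δ.μ a = 0 := by
      rw [hν, add_sub_cancel]
      exact htors
    have h2 : ((c : R) + ν) ∣ (c : R) ^ m - (-ν) ^ m := by
      have := sub_dvd_pow_sub_pow (c : R) (-ν) m
      rwa [sub_neg_eq_add] at this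
    obtain ⟨d, hd⟩ := h2
    have h3 : ((c : R) ^ m - (-ν) ^ m) • Δ.μ a = 0 := by
      rw [hd, mul_comm, mul_smul, h1, smul_zero]
    have h4 : ((-ν) ^ m) • Δ.μ a = 0 := hm _ (Ideal.pow_mem_pow (N.neg_mem hνN) m) _
    rw [sub_smul, h4, sub_zero, ← Nat.cast_pow, Nat.cast_smul_eq_nsmul] at h3
    exact h3
  have heAa : eA • Δ.μ a = 0 := hA _ _ (pow_pos hc m) hcm
  have hclaim : ∀ i : ℕ, ∃ r ∈ N ^ i, (∑ j ∈ Finset.range (eA ^ i), h ^ j) • Δ.μ a =
      r • Δ.μ a := by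
    intro i
    induction i with
    | zero => exact ⟨1, by rw [pow_zero, Ideal.one_eq_top]; trivial, by simp⟩
    | succ i ih =>
      obtain ⟨r, hr, hr'⟩ := ih
      set ν := (∑ l ∈ Finset.range eA, (h ^ eA ^ i) ^ l) - eA with hν
      have hνN : ν ∈ N := by
        apply hgeomN _ (hpowN _)
        intro j
        rw [← pow_mul]
        exact hpowN _
      refine ⟨ν * r, by rw [pow_succ']; exact Ideal.mul_mem_mul hνN hr, ?_⟩
      rw [pow_succ, geom_mul, mul_comm, mul_smul, hr', smul_comm]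
      have h1 : (∑ l ∈ Finset.range eA, (h ^ eA ^ i) ^ l) = (eA : R) + ν := by
        rw [hν]; ring
      rw [h1, add_smul, Nat.cast_smul_eq_nsmul, heAa, zero_add, ← mul_smul, mul_comm]
  obtain ⟨r, hr, hr'⟩ := hclaim m
  rw [hm r hr] at hr'
  obtain ⟨a', h1, h2⟩ := hpow (eA ^ m)
  rw [hr'] at h2
  have ha' : a' = 1 := by
    apply Δ.μ_inj
    rw [h2, Δ.μ_one]
  rw [ha'] at h1
  rw [pow_mul x, pow_mul y, ← hx₁, ← hy₁, h1]
  simp

end ModData

end Pool.Agent.Lib.MP_59c382_al
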