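import Pool.Agent.Lib.MP_59c382_al.NormalForm
import Pool.Agent.Lib.MP_59c382_al.Blocks
import Pool.Agent.Lib.MP_59c382_al.AbsIndex
import Pool.Agent.Lib.MP_59c382_al.PartE

/-!
# Automatic groups with a positive law and the root property are virtually abelian
-/

set_option autoImplicit false
set_option linter.unusedSectionVars false

namespace Pool.Agent.Lib.MP_59c382_al

/-- the words of the positive law, for lists -/
def XYl {α : Type*} (x y : List α) : ℕ → List α × List α
  | 0 => (x, y)
  | i + 1 => ((XYl x y i).1 ++ (XYl x y i).2, (XYl x y i).2 ++ (XYl x y i).1)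

theorem XYl_length {α : Type*} {x y : List α} (h : x.length = y.length) (i : ℕ) :
    (XYl x y i).1.length = (XYl x y i).2.length := by
  induction i with
  | zero => exact h
  | succ i ih =>
    rw [XYl, List.length_append, List.length_append]
    omega

theorem eq_of_XYl {α : Type*} {x y : List α} (h : x.length = y.length) (i : ℕ)
    (hi : (XYl x y i).1 = (XYl x y i).2) : x = y := by
  induction i with
  | zero => exact hi
  | succ i ih =>
    rw [XYl] at hi
    exact ih (List.append_inj hi (XYl_length h i)).1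

theorem XYl_loop {α σ : Type*} {M : DFA α σ} {q : σ} {x y : List α} (hx : M.evalFrom q x = q)
    (hy : M.evalFrom q y = q) (i : ℕ) :
    M.evalFrom q (XYl x y i).1 = q ∧ M.evalFrom q (XYl x y i).2 = q := by
  induction i with
  | zero => exact ⟨hx, hy⟩
  | succ i ih =>
    rw [XYl]
    constructor
    · rw [DFA.evalFrom_of_append, ih.1, ih.2]
    · rw [DFA.evalFrom_of_append, ih.2, ih.1]

theorem replicate_flatten_inj {α : Type*} {u v : List α} (h : u.length = v.length) {k : ℕ}
    (hk : 0 < k) (he : (List.replicate k u).flatten = (List.replicate k v).flatten) : u = v := by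
  obtain ⟨k', rfl⟩ : ∃ k', k = k' + 1 := ⟨k - 1, by omega⟩
  rw [List.replicate_succ, List.replicate_succ, List.flatten_cons, List.flatten_cons] at he
  exact (List.append_inj he h).1

namespace Aut

variable {G : Type*} [Group G] (S : Aut G)

theorem ev_replicate (n : ℕ) (u : List (Fin S.n)) :
    S.ev (List.replicate n u).flatten = S.ev u ^ n := by
  induction n with
  | zero => simp
  | succ n ih =>
    rw [List.replicate_succ, List.flatten_cons, ev_append, ih, pow_succ']

theorem ev_XYl (x y : List (Fin S.n)) (i : ℕ) :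
    S.ev (XYl x y i).1 = (XY (S.ev x) (S.ev y) i).1 ∧
      S.ev (XYl x y i).2 = (XY (S.ev x) (S.ev y) i).2 := by
  induction i with
  | zero => exact ⟨rfl, rfl⟩
  | succ i ih => exact ⟨by rw [XYl, XY, ev_append, ih.1, ih.2], by rw [XYl, XY, ev_append, ih.1, ih.2]⟩

/-- normal form -/
noncomputable def nf (g : G) : List (Fin S.n) := (S.exists_NF g).choose

theorem nf_mem (g : G) : S.nf g ∈ S.NF := (S.exists_NF g).choose_spec.1

theorem ev_nf (g : G) : S.ev (S.nf g) = g := (S.exists_NF g).choose_spec.2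

theorem nf_ev {w : List (Fin S.n)} (hw : w ∈ S.NF) : S.nf (S.ev w) = w :=
  S.NF_inj (S.nf_mem _) hw (S.ev_nf _)

theorem nf_fellow_gen (t : ℕ) (g : G) (i : Fin S.n) :
    Bl S.s S.k ((S.ev ((S.nf g).take t))⁻¹ * S.ev ((S.nf (g * S.s i)).take t)) := by
  obtain ⟨l, h1, h2, h3⟩ := S.fellow _ (S.nf_mem g).1 _ (S.nf_mem (g * S.s i)).1 (S.s i)
    (Or.inr ⟨i, rfl⟩) (by
      have e1 := S.ev_nf g
      have e2 := S.ev_nf (g * S.s i)
      unfold ev at e1 e2
      rw [e1, e2]) t
  refine ⟨l, h1, h2, ?_⟩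
  unfold ev
  rw [← h3, inv_mul_cancel_left]

theorem nf_fellow_list (t : ℕ) (l : List G)
    (hl : ∀ x ∈ l, x ∈ Set.range S.s ∨ x⁻¹ ∈ Set.range S.s) (g : G) :
    S.len ((S.ev ((S.nf g).take t))⁻¹ * S.ev ((S.nf (g * l.prod)).take t)) ≤ S.k * l.length := by
  induction l generalizing g with
  | nil => simp [S.len_one]
  | cons x l ih =>
    have ih' := ih (fun y hy => hl y (by simp [hy])) (g * x)
    have e1 : (S.ev ((S.nf g).take t))⁻¹ * S.ev ((S.nf (g * (x :: l).prod)).take t) =
        ((S.ev ((S.nf g).take t))⁻¹ * S.ev ((S.nf (g * x)).take t)) *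
        ((S.ev ((S.nf (g * x)).take t))⁻¹ * S.ev ((S.nf (g * x * l.prod)).take t)) := by
      rw [List.prod_cons, mul_assoc g x]
      group
    rw [e1]
    refine (S.len_mul _ _).trans ?_
    have h1 : S.len ((S.ev ((S.nf g).take t))⁻¹ * S.ev ((S.nf (g * x)).take t)) ≤ S.k := by
      rcases hl x (by simp) with ⟨i, hi⟩ | ⟨i, hi⟩
      · rw [← hi, len_le_iff]
        exact S.nf_fellow_gen t g i
      · have h2 := S.nf_fellow_gen t (g * x) i
        rw [hi, mul_inv_cancel_right] at h2
        have h3 := Bl_inv h2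
        rw [mul_inv_rev, inv_inv] at h3
        rwa [len_le_iff]
    rw [List.length_cons, Nat.mul_succ]
    omega

theorem nf_fellow (δ : G) : ∃ R : ℕ, ∀ g t,
    Bl S.s R ((S.ev ((S.nf g).take t))⁻¹ * S.ev ((S.nf (g * δ)).take t)) := by
  obtain ⟨l, -, h2, h3⟩ := S.len_le_iff.mp (le_refl (S.len δ))
  refine ⟨S.k * l.length, fun g t => ?_⟩
  rw [← S.len_le_iff, ← h3]
  exact S.nf_fellow_list t l h2 g

/-- uniqueness of loops of a given length -/
theorem loop_uniq {σ' : Type*} {M : DFA (Fin S.n) σ'} (hM : M.accepts = S.NF) {k m : ℕ}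
    (hk : 0 < k) (hPL : ∀ x y : G, (XY (x ^ k) (y ^ k) m).1 = (XY (x ^ k) (y ^ k) m).2)
    {q : σ'} (hq : Live M q) {u v : List (Fin S.n)} (hlen : u.length = v.length)
    (hu : M.evalFrom q u = q) (hv : M.evalFrom q v = q) : u = v := by
  obtain ⟨⟨p, hp⟩, s, hs⟩ := hq
  set x := (List.replicate k u).flatten with hx
  set y := (List.replicate k v).flatten with hy
  have hxl : M.evalFrom q x = q := by
    rw [hx]
    exact evalFrom_replicate M hu _
  have hyl : M.evalFrom q y = q := by
    rw [hy]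
    exact evalFrom_replicate M hv _
  have hxy : x.length = y.length := by rw [hx, hy]; simp [hlen]
  have hmem : ∀ w : List (Fin S.n), M.evalFrom q w = q → p ++ w ++ s ∈ S.NF := by
    intro w hw
    rw [← hM, DFA.mem_accepts, DFA.eval, DFA.evalFrom_of_append, DFA.evalFrom_of_append]
    have : M.evalFrom M.start p = q := hp
    rw [this, hw]
    exact hs
  have hloop := XYl_loop hxl hyl m
  have h1 := S.NF_inj (hmem _ hloop.1) (hmem _ hloop.2) (by
    rw [ev_append, ev_append, ev_append, ev_append, (S.ev_XYl x y m).1, (S.ev_XYl x y m).2, hx, hy,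
      S.ev_replicate, S.ev_replicate, hPL])
  have h2 : (XYl x y m).1 = (XYl x y m).2 := by
    have h3 := List.append_cancel_right h1
    exact List.append_cancel_left h3
  exact replicate_flatten_inj hlen hk (eq_of_XYl hxy m h2)

/-- the loops -/
theorem exists_loopData {σ' : Type*} [Fintype σ'] [DecidableEq σ'] {M : DFA (Fin S.n) σ'}
    (hM : M.accepts = S.NF) {k m : ℕ}
    (hk : 0 < k) (hPL : ∀ x y : G, (XY (x ^ k) (y ^ k) m).1 = (XY (x ^ k) (y ^ k) m).2)
    {e : ℕ} (he : 0 < e) :
    ∃ D : LoopData M, ∀ q, Live M q → Cyc M q → ∃ y : G, S.ev (D.z q) = y ^ e := by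
  classical
  have h1 : ∀ q, ∃ u : List (Fin S.n), (Live M q → Cyc M q → M.evalFrom q u = q) ∧ u ≠ [] ∨
      ¬ (Live M q ∧ Cyc M q) := by
    intro q
    by_cases hq : Live M q ∧ Cyc M q
    · obtain ⟨u, hu, hloop⟩ := hq.2
      exact ⟨u, Or.inl ⟨fun _ _ => hloop, hu⟩⟩
    · exact ⟨[], Or.inr hq⟩
  choose u hu using h1
  have hlenpos : ∀ q, Live M q → Cyc M q → 0 < (u q).length := by
    intro q h2 h3
    rcases hu q with ⟨-, h⟩ | h
    · exact List.length_pos_iff.mpr h
    · exact absurd ⟨h2, h3⟩ h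
  set ℓ : σ' → ℕ := fun q => if Live M q ∧ Cyc M q then (u q).length else 1 with hℓ
  have hℓpos : ∀ q, 0 < ℓ q := by
    intro q
    simp only [hℓ]
    split_ifs with h
    · exact hlenpos q h.1 h.2
    · exact one_pos
  set P₀ := ∏ q, ℓ q with hP₀
  have hP₀pos : 0 < P₀ := Finset.prod_pos (fun q _ => hℓpos q)
  have hdvd : ∀ q, Live M q → Cyc M q → (u q).length ∣ P₀ := by
    intro q h2 h3
    have h4 : ℓ q ∣ P₀ := Finset.dvd_prod_of_mem ℓ (Finset.mem_univ q)
    simp only [hℓ, if_pos (And.intro h2 h3)] at h4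
    exact h4
  set y : σ' → List (Fin S.n) := fun q => (List.replicate (P₀ / (u q).length) (u q)).flatten with hy
  have hylen : ∀ q, Live M q → Cyc M q → (y q).length = P₀ := by
    intro q h2 h3
    simp only [hy, List.length_flatten, List.map_replicate, List.sum_replicate, smul_eq_mul]
    exact Nat.div_mul_cancel (hdvd q h2 h3)
  have hyloop : ∀ q, Live M q → Cyc M q → M.evalFrom q (y q) = q := by
    intro q h2 h3
    rcases hu q with ⟨h, -⟩ | h
    · exact evalFrom_replicate M (h h2 h3) _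
    · exact absurd ⟨h2, h3⟩ h
  refine ⟨⟨e * P₀, Nat.mul_pos he hP₀pos, fun q => (List.replicate e (y q)).flatten, ?_, ?_, ?_⟩, ?_⟩
  · intro q hq u v hlen hu hv
    exact S.loop_uniq hM hk hPL hq hlen hu hv
  · intro q h2 h3
    simp only [List.length_flatten, List.map_replicate, List.sum_replicate, smul_eq_mul,
      hylen q h2 h3]
  · intro q h2 h3
    exact evalFrom_replicate M (hyloop q h2 h3) _
  · intro q _ _
    exact ⟨S.ev (y q), S.ev_replicate e (y q)⟩

section main

variable {σ' : Type*} [Fintype σ'] [DecidableEq σ'] {M : DFA (Fin S.n) σ'} (D : LoopData M)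

/-- blocks of the normal form -/
noncomputable def bl (g : G) : List (List (Fin S.n)) := (exists_blocks D.P_pos (S.nf g)).choose

/-- tail of the normal form -/
noncomputable def tl (g : G) : List (Fin S.n) :=
  (exists_blocks D.P_pos (S.nf g)).choose_spec.choose

omit [Fintype σ'] in
theorem nf_eq (g : G) : S.nf g = (S.bl D g).flatten ++ S.tl D g :=
  (exists_blocks D.P_pos (S.nf g)).choose_spec.choose_spec.1

omit [Fintype σ'] in
theorem bl_length (g : G) : ∀ B ∈ S.bl D g, B.length = D.P :=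
  (exists_blocks D.P_pos (S.nf g)).choose_spec.choose_spec.2.1

omit [Fintype σ'] in
theorem tl_length (g : G) : (S.tl D g).length < D.P :=
  (exists_blocks D.P_pos (S.nf g)).choose_spec.choose_spec.2.2

omit [Fintype σ'] in
theorem bl_tl_of {g : G} {Bs : List (List (Fin S.n))} {t : List (Fin S.n)}
    (h : Bs.flatten ++ t ∈ S.NF) (hev : S.ev (Bs.flatten ++ t) = g)
    (hB : ∀ B ∈ Bs, B.length = D.P) (ht : t.length < D.P) :
    S.bl D g = Bs ∧ S.tl D g = t := by
  have h1 : S.nf g = Bs.flatten ++ t := by rw [← hev]; exact S.nf_ev h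
  rw [S.nf_eq D] at h1
  exact blocks_unique h1 (S.bl_length D g) hB (S.tl_length D g) ht

omit [Fintype σ'] in
theorem gd_bl (hM : M.accepts = S.NF) (g : G) : Gd M D.P M.start (S.bl D g) := by
  refine ⟨⟨[], rfl⟩, ⟨S.tl D g, ?_⟩, S.bl_length D g⟩
  rw [← S.nf_eq D]
  have := S.nf_mem g
  rw [← hM, DFA.mem_accepts] at this
  exact this

omit [Fintype σ'] in
theorem mem_NF_iff (hM : M.accepts = S.NF) (w : List (Fin S.n)) :
    w ∈ S.NF ↔ M.evalFrom M.start w ∈ M.accept := by
  rw [← hM, DFA.mem_accepts]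
  rfl

end main

end Aut

end Pool.Agent.Lib.MP_59c382_al
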