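import Pool.Agent.Lib.MP_59c382_al.Cup

/-!
# Combings and the fillings of commuting cubes
-/

set_option autoImplicit false

namespace Pool.Agent.Lib.MP_59c382_al

open Finsupp

/-- A length function with finite balls and a synchronous combing of linear length. -/
structure Combing (G : Type*) [Group G] where
  /-- the length -/
  len : G → ℕ
  len_one : len 1 = 0
  len_inv : ∀ g, len g⁻¹ = len g
  len_mul : ∀ g h, len (g * h) ≤ len g + len h
  finite_ball : ∀ r, {g | len g ≤ r}.Finite
  /-- `α t g` is the point at time `t` on the path from `1` to `g` -/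
  α : ℕ → G → G
  /-- Lipschitz constant -/
  K : ℕ
  /-- constant for the lengths of the paths -/
  c : ℕ
  α_zero : ∀ g, α 0 g = 1
  α_step : ∀ t g, len ((α t g)⁻¹ * α (t + 1) g) ≤ 1
  α_end : ∀ t g, c * (len g + 1) ≤ t → α t g = g
  α_fellow : ∀ t g h, len ((α t g)⁻¹ * α t h) ≤ K * len (g⁻¹ * h)
  α_len : ∀ t g, len (α t g) ≤ c * (len g + 1)

variable {G : Type*} [Group G] {ι : Type*}

/-- `z ↦ a z - z` -/
noncomputable def trm (a : G) : Ch G →+ Ch G :=
  ((vmap (fun g => a * g) : Ch G →ₗ[ℤ] Ch G) - LinearMap.id).toAddMonoidHom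

theorem trm_apply (a : G) (z : Ch G) : trm a z = vmap (fun g => a * g) z - z := rfl

theorem vmap_vmap (α β : G → G) (z : Ch G) : vmap α (vmap β z) = vmap (fun g => α (β g)) z := by
  have : vmap α ∘ₗ vmap β = (vmap (fun g => α (β g)) : Ch G →ₗ[ℤ] Ch G) := by
    apply linext
    intro l
    simp [List.map_map, Function.comp_def]
  exact LinearMap.congr_fun this z

theorem trm_comm {a b : G} (h : a * b = b * a) (z : Ch G) : trm a (trm b z) = trm b (trm a z) := by
  simp only [trm_apply, map_sub, vmap_vmap]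
  have : (fun g => a * (b * g)) = fun g => b * (a * g) := by
    funext g
    rw [← mul_assoc, ← mul_assoc, h]
  rw [this]
  abel

theorem bd_trm (a : G) (z : Ch G) : bd (trm a z) = trm a (bd z) := by
  rw [trm_apply, trm_apply, map_sub, bd_vmap]

theorem aug_trm (a : G) (z : Ch G) : aug (trm a z) = 0 := by
  rw [trm_apply, map_sub, aug_vmap, sub_self]

theorem aug_kos (a : ι → G) (Ψ : List ι → Ch G) (L : List ι) :
    aug (kos (fun i => trm (a i)) Ψ L) = 0 := by
  induction L generalizing Ψ with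
  | nil => simp [kos]
  | cons i L ih => rw [kos, map_sub, aug_trm, ih, sub_zero]

theorem kos_mem (a : ι → G) {Ψ : List ι → Ch G} {L : List ι} {S : Submodule ℤ (Ch G)}
    (h : ∀ i ∈ L, ∀ L', L'.Sublist L → L'.length + 1 = L.length → trm (a i) (Ψ L') ∈ S) :
    kos (fun i => trm (a i)) Ψ L ∈ S := by
  induction L generalizing Ψ with
  | nil => exact S.zero_mem
  | cons i L ih =>
    rw [kos]
    apply S.sub_mem
    · exact h i (by simp) L (List.sublist_cons_self i L) (by simp)
    · apply ih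
      intro j hj L' hL' hlen
      exact h j (by simp [hj]) (i :: L') (hL'.cons_cons i) (by simp [hlen])

theorem mass_kos (a : ι → G) {Ψ : List ι → Ch G} {L : List ι} {B : ℕ}
    (h : ∀ L', L'.Sublist L → L'.length + 1 = L.length → mass (Ψ L') ≤ B) :
    mass (kos (fun i => trm (a i)) Ψ L) ≤ L.length * (2 * B) := by
  induction L generalizing Ψ with
  | nil => simp [kos, mass_zero]
  | cons i L ih =>
    rw [kos]
    refine (mass_sub _ _).trans ?_
    have h1 : mass (trm (a i) (Ψ L)) ≤ 2 * B := by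
      rw [trm_apply]
      refine (mass_sub _ _).trans ?_
      have h2 := h L (List.sublist_cons_self i L) (by simp)
      have h3 := mass_vmap (fun g => a i * g) (Ψ L)
      omega
    have h2 := ih (Ψ := fun L' => Ψ (i :: L')) (fun L' hL' hlen =>
      h (i :: L') (hL'.cons_cons i) (by simp [hlen]))
    rw [List.length_cons, Nat.succ_mul]
    omega

/-- the fillings of the boundaries of the cubes spanned by commuting elements -/
noncomputable def th (α : ℕ → G → G) (T : ℕ) (a : ι → G) : ℕ → List ι → Ch G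
  | 0, _ => single [1] 1
  | n + 1, L => cone α T (kos (fun i => trm (a i)) (th α T a n) L)

namespace Combing

variable (C : Combing G)

/-- a simplex with `k` vertices, of diameter at most `R`, in the ball of radius `r` -/
def Sz (k R r : ℕ) (l : List G) : Prop :=
  l.length = k ∧ (∀ x ∈ l, C.len x ≤ r) ∧ ∀ x ∈ l, ∀ y ∈ l, C.len (x⁻¹ * y) ≤ R

theorem Sz_mono {k R r R' r' : ℕ} (hR : R ≤ R') (hr : r ≤ r') {l : List G} (h : C.Sz k R r l) :
    C.Sz k R' r' l :=
  ⟨h.1, fun x hx => (h.2.1 x hx).trans hr, fun x hx y hy => (h.2.2 x hx y hy).trans hR⟩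

theorem trm_Sz {k R r : ℕ} {a : G} {z : Ch G} (hz : z ∈ On (C.Sz k R r)) :
    trm a z ∈ On (C.Sz k R (r + C.len a)) := by
  rw [trm_apply]
  apply Submodule.sub_mem
  · apply vmap_mem_On _ hz
    rintro l ⟨h1, h2, h3⟩
    refine ⟨by simpa using h1, ?_, ?_⟩
    · intro x hx
      obtain ⟨y, hy, rfl⟩ := List.mem_map.mp hx
      have := C.len_mul a y
      have := h2 y hy
      omega
    · intro x hx y hy
      obtain ⟨x', hx', rfl⟩ := List.mem_map.mp hx
      obtain ⟨y', hy', rfl⟩ := List.mem_map.mp hy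
      have : (a * x')⁻¹ * (a * y') = x'⁻¹ * y' := by group
      rw [this]
      exact h3 x' hx' y' hy'
  · exact On_mono (fun l hl => C.Sz_mono le_rfl (Nat.le_add_right _ _) hl) hz

theorem cone_Sz {k R r T : ℕ} {z : Ch G} (hz : z ∈ On (C.Sz k R r)) :
    cone C.α T z ∈ On (C.Sz (k + 1) (C.K * R + 1) (C.c * (r + 1))) := by
  apply cone_mem_On _ hz
  rintro l ⟨h1, h2, h3⟩ t _ l' hlen hl'
  have hsame : ∀ y ∈ l, ∀ y' ∈ l, ∀ s, C.len ((C.α s y)⁻¹ * C.α s y') ≤ C.K * R := by
    intro y hy y' hy' s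
    exact (C.α_fellow s y y').trans (Nat.mul_le_mul_left _ (h3 y hy y' hy'))
  have hdiff : ∀ y ∈ l, ∀ y' ∈ l, C.len ((C.α t y)⁻¹ * C.α (t + 1) y') ≤ C.K * R + 1 := by
    intro y hy y' hy'
    have e : (C.α t y)⁻¹ * C.α (t + 1) y' =
        ((C.α t y)⁻¹ * C.α t y') * ((C.α t y')⁻¹ * C.α (t + 1) y') := by group
    rw [e]
    refine (C.len_mul _ _).trans ?_
    have := hsame y hy y' hy' t
    have := C.α_step t y'
    omega
  refine ⟨by omega, ?_, ?_⟩
  · intro x hx
    obtain ⟨y, hy, h⟩ := hl' x hx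
    have hb : C.c * (C.len y + 1) ≤ C.c * (r + 1) :=
      Nat.mul_le_mul_left _ (Nat.add_le_add_right (h2 y hy) 1)
    rcases h with rfl | rfl
    · exact (C.α_len _ _).trans hb
    · exact (C.α_len _ _).trans hb
  · intro x hx y hy
    obtain ⟨x', hx', h⟩ := hl' x hx
    obtain ⟨y', hy', h'⟩ := hl' y hy
    rcases h with rfl | rfl <;> rcases h' with rfl | rfl
    · have := hsame x' hx' y' hy' t
      omega
    · exact hdiff x' hx' y' hy'
    · have h := hdiff y' hy' x' hx'
      rw [← C.len_inv] at h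
      convert h using 2
      group
    · have := hsame x' hx' y' hy' (t + 1)
      omega

/-- bound for the diameters -/
def RR : ℕ → ℕ
  | 0 => 0
  | n + 1 => C.K * RR n + 1

/-- bound for the distance to the base point -/
def rr (ℓ : ℕ) : ℕ → ℕ
  | 0 => 0
  | n + 1 => C.c * (rr ℓ n + ℓ + 1)

theorem th_Sz {ℓ T : ℕ} {a : ι → G} (n : ℕ) (L : List ι) (ha : ∀ i ∈ L, C.len (a i) ≤ ℓ) :
    th C.α T a n L ∈ On (C.Sz (n + 1) (C.RR n) (C.rr ℓ n)) := by
  induction n generalizing L with
  | zero =>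
    apply single_mem_On
    refine ⟨rfl, ?_, ?_⟩
    · intro x hx
      rw [List.mem_singleton] at hx
      rw [hx, C.len_one]
      exact Nat.zero_le _
    · intro x hx y hy
      rw [List.mem_singleton] at hx hy
      rw [hx, hy, inv_one, one_mul, C.len_one]
      exact Nat.zero_le _
  | succ n ih =>
    rw [th]
    apply C.cone_Sz
    apply kos_mem
    intro i hi L' hL' _
    apply On_mono _ (C.trm_Sz (ih L' (fun j hj => ha j (hL'.subset hj))))
    intro l hl
    exact C.Sz_mono le_rfl (Nat.add_le_add_left (ha i hi) _) hl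

theorem kos_th_Sz {ℓ T : ℕ} {a : ι → G} (n : ℕ) (L : List ι) (ha : ∀ i ∈ L, C.len (a i) ≤ ℓ) :
    kos (fun i => trm (a i)) (th C.α T a n) L ∈ On (C.Sz (n + 1) (C.RR n) (C.rr ℓ n + ℓ)) := by
  apply kos_mem
  intro i hi L' hL' _
  apply On_mono _ (C.trm_Sz (C.th_Sz (T := T) n L' (fun j hj => ha j (hL'.subset hj))))
  intro l hl
  exact C.Sz_mono le_rfl (Nat.add_le_add_left (ha i hi) _) hl

/-- **Boundary of the fillings.** -/
theorem bd_th {ℓ T : ℕ} {a : ι → G} (n : ℕ) (hT : ∀ k ≤ n, C.c * (C.rr ℓ k + ℓ + 1) ≤ T)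
    (L : List ι) (hlen : L.length = n + 1) (ha : ∀ i ∈ L, C.len (a i) ≤ ℓ)
    (hcomm : ∀ i ∈ L, ∀ j ∈ L, a i * a j = a j * a i) :
    bd (th C.α T a (n + 1) L) = kos (fun i => trm (a i)) (th C.α T a n) L := by
  induction n generalizing L with
  | zero =>
    rw [th, bd_cone]
    have hz := C.kos_th_Sz (T := T) 0 L ha
    set z := kos (fun i => trm (a i)) (th C.α T a 0) L with hzdef
    have h1 : vmap (C.α T) z = z := by
      apply vmap_id_of
      apply On_mono _ hz
      rintro l ⟨_, h, _⟩ x hx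
      apply C.α_end
      exact (Nat.mul_le_mul_left _ (Nat.add_le_add_right (h x hx) 1)).trans (hT 0 le_rfl)
    have h2 : vmap (C.α 0) z = 0 := by
      rw [vmap_const C.α_zero (k := 1) (On_mono (fun l hl => hl.1) hz), hzdef, aug_kos, zero_smul]
    have h3 : bd z = 0 := by
      match L, hlen with
      | [i], _ => simp [hzdef, kos, th, trm_apply, bdB]
    rw [h1, h2, h3, map_zero, sub_zero, sub_zero]
  | succ n ih =>
    rw [th, bd_cone]
    have hz := C.kos_th_Sz (T := T) (n + 1) L ha
    set z := kos (fun i => trm (a i)) (th C.α T a (n + 1)) L with hzdef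
    have h1 : vmap (C.α T) z = z := by
      apply vmap_id_of
      apply On_mono _ hz
      rintro l ⟨_, h, _⟩ x hx
      apply C.α_end
      exact (Nat.mul_le_mul_left _ (Nat.add_le_add_right (h x hx) 1)).trans (hT (n + 1) le_rfl)
    have h2 : vmap (C.α 0) z = 0 := by
      rw [vmap_const C.α_zero (k := n + 1 + 1) (On_mono (fun l hl => hl.1) hz), hzdef, aug_kos,
        zero_smul]
    have h3 : bd z = 0 := by
      have h4 : bd z = (bd : Ch G →ₗ[ℤ] Ch G).toAddMonoidHom
          (kos (fun i => trm (a i)) (th C.α T a (n + 1)) L) := rfl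
      rw [h4, kos_comp _ _ _ _ (fun i _ m => bd_trm (a i) m)]
      have h5 : kos (fun i => trm (a i))
          (fun L' => (bd : Ch G →ₗ[ℤ] Ch G).toAddMonoidHom (th C.α T a (n + 1) L')) L =
          kos (fun i => trm (a i)) (kos (fun i => trm (a i)) (th C.α T a n)) L := by
        apply kos_congr
        intro L' hL' hlen'
        exact ih (fun k hk => hT k (Nat.le_succ_of_le hk)) L' (by omega)
          (fun i hi => ha i (hL'.subset hi))
          (fun i hi j hj => hcomm i (hL'.subset hi) j (hL'.subset hj))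
      rw [h5, kos_kos _ _ _ (fun i hi j hj m => trm_comm (hcomm i hi j hj) m)]
    rw [h1, h2, h3, map_zero, sub_zero, sub_zero]

/-- bound for the masses -/
def mm (T : ℕ) : ℕ → ℕ
  | 0 => 1
  | n + 1 => T * ((n + 1) * ((n + 1) * (2 * mm T n)))

theorem mass_th {T : ℕ} {a : ι → G} (n : ℕ) (L : List ι) (hlen : L.length = n)  :
    mass (th C.α T a n L) ≤ mm T n := by
  induction n generalizing L with
  | zero =>
    rw [th, mass_single]
    rfl
  | succ n ih =>
    rw [th, mm]
    -- all simplices have `n + 1` vertices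
    have hz : kos (fun i => trm (a i)) (th C.α T a n) L ∈ On (fun l => l.length = n + 1) := by
      apply kos_mem
      intro i _ L' _ _
      obtain ⟨ℓ, hℓ⟩ : ∃ ℓ, ∀ i ∈ L', C.len (a i) ≤ ℓ := by
        refine ⟨(L'.map (fun i => C.len (a i))).sum, ?_⟩
        intro i hi
        exact List.single_le_sum (by simp) _ (List.mem_map.mpr ⟨i, hi, rfl⟩)
      exact On_mono (fun l hl => hl.1) (C.trm_Sz (C.th_Sz (T := T) n L' hℓ))
    refine (mass_cone _ _ hz).trans ?_
    apply Nat.mul_le_mul_left
    apply Nat.mul_le_mul_left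
    have := mass_kos a (Ψ := th C.α T a n) (L := L) (B := mm T n)
      (fun L' _ h => ih L' (by omega))
    rwa [hlen] at this

end Combing

end Pool.Agent.Lib.MP_59c382_al
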